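import Mathlib

/-!
# MP_5176ab_co: changing decidability instances by hand
-/

set_option autoImplicit false

namespace EX

open Finset

theorem ic_inter {W : Type} (i1 i2 : DecidableEq W) (E X : Finset W) :
    @Inter.inter (Finset W) (@Finset.instInter W i1) E X =
      @Inter.inter (Finset W) (@Finset.instInter W i2) E X := by
  have h : i1 = i2 := Subsingleton.elim _ _
  subst h
  rfl

theorem ic_insert_image {W V : Type} [Fintype W] (i1 i2 : DecidableEq V) (v : V) (x : W → V) :
    @insert V (Finset V) (@Finset.instInsert V i1) v (@Finset.image W V i1 x univ) =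
      @insert V (Finset V) (@Finset.instInsert V i2) v (@Finset.image W V i2 x univ) := by
  have h : i1 = i2 := Subsingleton.elim _ _
  subst h
  rfl

theorem ic_clique {V : Type} [Fintype V] (K : SimpleGraph V) (r : ℕ) (i1 i2 : DecidableEq V)
    (j1 j2 : DecidableRel K.Adj) :
    (@SimpleGraph.cliqueFinset V K _ i1 j1 r).card =
      (@SimpleGraph.cliqueFinset V K _ i2 j2 r).card := by
  have h : i1 = i2 := Subsingleton.elim _ _
  have h' : j1 = j2 := Subsingleton.elim _ _
  subst h
  subst h'
  rfl

end EX
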