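import Pool.Agent.Helper89.EX.OB

/-!
# MP_5176ab_co, module OL: the lower bound from the mixed construction
-/

set_option autoImplicit false

namespace EX

open Finset SimpleGraph Filter Topology

open scoped Classical

noncomputable section

theorem exr_ge_of_equiv {W V : Type} [Fintype V] (r n : ℕ) (F : Finset (Finset W))
    (e : V ≃ Fin n) (H : Finset (Finset V)) (h1 : ∀ E ∈ H, E.card = r) (h2 : ¬ Contains H F) :
    H.card ≤ exr r n F := by
  have h3 := le_exr (r := r) (n := n) (F := F) (H.image fun E => E.map e.toEmbedding) ?_ ?_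
  · rwa [card_image_of_injective] at h3
    intro E E' h
    exact Finset.map_injective _ h
  · intro E hE
    obtain ⟨E', hE', rfl⟩ := mem_image.1 hE
    rw [card_map]
    exact h1 _ hE'
  · rintro ⟨f, hf⟩
    apply h2
    refine ⟨f.trans e.symm.toEmbedding, fun E hE => ?_⟩
    obtain ⟨E', hE', h4⟩ := mem_image.1 (hf E hE)
    have h5 : E.map (f.trans e.symm.toEmbedding) = E' := by
      rw [← Finset.map_map, ← h4, Finset.map_map]
      ext x
      simp
    rw [h5]
    exact hE'

theorem OB_lower {U : Type} [Fintype U] (a k d s n : ℕ) (G : SimpleGraph U)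
    (hG : ¬ Splits (d + 2) a k G)
    (hn : a + (d + 1) *
      (s * Fintype.card (Equiv.Perm (CGT k (Fintype.card U + 2)))) ≤ n) :
    (2 * a + k) * (s * Fintype.card (Equiv.Perm (CGT k (Fintype.card U + 2)))) ^ (d + 1) ≤
      2 * exr (d + 2) n (expansion (d + 2) G) := by
  set p := Fintype.card (Equiv.Perm (CGT k (Fintype.card U + 2))) with hp
  obtain ⟨m, hm⟩ : ∃ m, m = n - (a + (d + 1) * (s * p)) := ⟨_, rfl⟩
  have hcardY : Fintype.card (CGV s m k (Fintype.card U)) = s * p + m := by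
    rw [Fintype.card_sum, Fintype.card_prod, Fintype.card_fin, Fintype.card_fin]
  have hcard : Fintype.card (OBV a (CGV s m k (Fintype.card U)) d (s * p)) = n := by
    rw [Fintype.card_sum, Fintype.card_sum, hcardY, Fintype.card_prod, Fintype.card_fin,
      Fintype.card_fin, Fintype.card_fin, hm]
    have : (d + 1) * (s * p) = s * p + d * (s * p) := by ring
    omega
  have h1 := exr_ge_of_equiv (d + 2) n (expansion (d + 2) G)
    (Fintype.equivFinOfCardEq hcard) (OBH a d (s * p) (CGM s m k (Fintype.card U)))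
    (fun E hE => OBH_unif _ E hE) (fun hc => hG (OB_splits a d (s * p) k (Fintype.card U)
      (CGM s m k (Fintype.card U)) (CGM_nbr s m k _) (fun y w hw => CGM_girth s m k _ w hw)
      G le_rfl hc))
  rw [OBH_card, hcardY] at h1
  have h2 := CGM_edges s m k (Fintype.card U)
  rw [Fintype.card_prod, Fintype.card_fin, ← hp] at h2
  calc (2 * a + k) * (s * p) ^ (d + 1)
      = (2 * (a * (s * p)) + k * (s * p)) * (s * p) ^ d := by ring
    _ = (2 * (a * (s * p)) + 2 * (CGM s m k (Fintype.card U)).edgeFinset.card) * (s * p) ^ d := by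
        rw [h2]
    _ ≤ 2 * ((a * (s * p + m) + (CGM s m k (Fintype.card U)).edgeFinset.card) *
          (s * p) ^ d) := by
        have h3 : a * (s * p) ≤ a * (s * p + m) := Nat.mul_le_mul_left _ (Nat.le_add_right _ _)
        have h4 := Nat.mul_le_mul_right ((s * p) ^ d) h3
        nlinarith
    _ ≤ _ := Nat.mul_le_mul_left _ h1

/-- the lower bound -/
theorem OB_lower' {U : Type} [Fintype U] (a k r : ℕ) (hr : 2 ≤ r) (G : SimpleGraph U)
    (hG : ¬ Splits r a k G) (ε : ℝ) (hε : 0 < ε) :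
    ∀ᶠ n : ℕ in atTop, (((a : ℝ) + (k : ℝ) / 2) *
      (((r - 1).factorial : ℝ) / ((r - 1 : ℕ) : ℝ) ^ (r - 1)) - ε) * (n.choose (r - 1) : ℝ) ≤
        exr r n (expansion r G) := by
  obtain ⟨d, rfl⟩ : ∃ d, r = d + 2 := ⟨r - 2, by omega⟩
  have hd : d + 2 - 1 = d + 1 := by omega
  rw [hd]
  set p := Fintype.card (Equiv.Perm (CGT k (Fintype.card U + 2))) with hp
  have hp0 : 0 < p := Fintype.card_pos
  set qf : ℕ → ℕ := fun n => ((n - a) / ((d + 1) * p)) * p with hqf
  have hq1 : ∀ n, a ≤ n → a + (d + 1) * qf n ≤ n := by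
    intro n hn
    have h1 : (d + 1) * p * ((n - a) / ((d + 1) * p)) ≤ n - a := Nat.mul_div_le _ _
    have h2 : (d + 1) * qf n = (d + 1) * p * ((n - a) / ((d + 1) * p)) := by
      rw [hqf]; ring
    omega
  have hq2 : ∀ n : ℕ, (n : ℝ) ≤ (d + 1) * (qf n : ℝ) + (a + (d + 1) * p) := by
    intro n
    have h1 : n - a < (d + 1) * p * ((n - a) / ((d + 1) * p)) + (d + 1) * p := by
      have := Nat.lt_mul_div_succ (n - a) (show 0 < (d + 1) * p by positivity)
      rw [Nat.mul_add, Nat.mul_one] at this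
      exact this
    have h2 : (d + 1) * qf n = (d + 1) * p * ((n - a) / ((d + 1) * p)) := by
      rw [hqf]; ring
    have h3 : n ≤ (d + 1) * qf n + (a + (d + 1) * p) := by omega
    exact_mod_cast h3
  -- the limit of `q / n`
  have hlim1 : Tendsto (fun n : ℕ => (qf n : ℝ) / (n : ℝ)) atTop (𝓝 (1 / ((d : ℝ) + 1))) := by
    have hd0 : (0 : ℝ) < (d : ℝ) + 1 := by positivity
    have h1 : Tendsto (fun n : ℕ => 1 / ((d : ℝ) + 1) -
        ((a + (d + 1) * p) / ((d : ℝ) + 1)) / (n : ℝ)) atTop (𝓝 (1 / ((d : ℝ) + 1) - 0)) :=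
      tendsto_const_nhds.sub (tendsto_const_div_atTop_nhds_zero_nat _)
    rw [sub_zero] at h1
    refine tendsto_of_tendsto_of_tendsto_of_le_of_le' h1 tendsto_const_nhds ?_ ?_
    · filter_upwards [eventually_ge_atTop 1] with n hn
      have hn0 : (0 : ℝ) < n := by exact_mod_cast hn
      have h2 := hq2 n
      rw [le_div_iff₀ hn0, sub_mul, div_mul_cancel₀ _ hn0.ne', div_mul_eq_mul_div, one_mul,
        ← sub_div, div_le_iff₀ hd0]
      linarith
    · filter_upwards [eventually_ge_atTop (max 1 a)] with n hn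
      have hn1 : 1 ≤ n := (le_max_left _ _).trans hn
      have hn0 : (0 : ℝ) < n := by exact_mod_cast hn1
      have h2 := hq1 n ((le_max_right _ _).trans hn)
      have h3 : ((d : ℝ) + 1) * (qf n : ℝ) ≤ n := by
        have : (d + 1) * qf n ≤ n := by omega
        exact_mod_cast this
      rw [div_le_div_iff₀ hn0 hd0]
      linarith
  have hlim2 : Tendsto (fun n : ℕ => (n : ℝ) ^ (d + 1) / (n.choose (d + 1) : ℝ)) atTop
      (𝓝 ((d + 1).factorial : ℝ)) := by
    have e1 : Asymptotics.IsEquivalent atTop (fun n : ℕ => ((n.choose (d + 1) : ℕ) : ℝ))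
        fun n : ℕ => (n : ℝ) ^ (d + 1) / ((d + 1).factorial : ℝ) := isEquivalent_choose (d + 1)
    have e2 : Tendsto (fun n : ℕ => ((n : ℝ) ^ (d + 1) / ((d + 1).factorial : ℝ)) /
        (n.choose (d + 1) : ℝ)) atTop (𝓝 1) := by
      have := e1.symm
      rw [Asymptotics.isEquivalent_iff_tendsto_one] at this
      · exact this
      · filter_upwards [choose_pos_eventually (d + 1)] with n hn
        exact hn.ne'
    have e3 := e2.mul_const ((d + 1).factorial : ℝ)
    rw [one_mul] at e3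
    refine e3.congr fun n => ?_
    have : ((d + 1).factorial : ℝ) ≠ 0 := by positivity
    field_simp
  have hlim3 := ((hlim1.pow (d + 1)).mul hlim2).const_mul ((a : ℝ) + (k : ℝ) / 2)
  have hval : ((a : ℝ) + (k : ℝ) / 2) * ((1 / ((d : ℝ) + 1)) ^ (d + 1) *
      ((d + 1).factorial : ℝ)) = ((a : ℝ) + (k : ℝ) / 2) *
      (((d + 1).factorial : ℝ) / ((d + 1 : ℕ) : ℝ) ^ (d + 1)) := by
    push_cast
    rw [one_div, inv_pow]
    ring
  rw [hval] at hlim3
  have h4 := hlim3.eventually (lt_mem_nhds (show ((a : ℝ) + (k : ℝ) / 2) *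
      (((d + 1).factorial : ℝ) / ((d + 1 : ℕ) : ℝ) ^ (d + 1)) - ε < _ from sub_lt_self _ hε))
  filter_upwards [h4, choose_pos_eventually (d + 1), eventually_ge_atTop (max 1 a)]
    with n hn hn2 hn3
  have hn1 : 1 ≤ n := (le_max_left _ _).trans hn3
  have hn0 : (0 : ℝ) < n := by exact_mod_cast hn1
  have h5 := OB_lower a k d ((n - a) / ((d + 1) * p)) n G hG
    (hq1 n ((le_max_right _ _).trans hn3))
  have h6 : (2 * (a : ℝ) + k) * (qf n : ℝ) ^ (d + 1) ≤
      2 * (exr (d + 2) n (expansion (d + 2) G) : ℝ) := by exact_mod_cast h5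
  have h7 : ((a : ℝ) + (k : ℝ) / 2) * (((qf n : ℝ) / (n : ℝ)) ^ (d + 1) *
      ((n : ℝ) ^ (d + 1) / (n.choose (d + 1) : ℝ))) * (n.choose (d + 1) : ℝ) =
      ((a : ℝ) + (k : ℝ) / 2) * (qf n : ℝ) ^ (d + 1) := by
    rw [div_pow]
    have : (n : ℝ) ^ (d + 1) ≠ 0 := by positivity
    field_simp
  have h8 := mul_le_mul_of_nonneg_right hn.le hn2.le
  rw [h7] at h8
  linarith

/-- the necessary condition -/
theorem formula_bound {U : Type} [Fintype U] (r a k : ℕ) (hr : 3 ≤ r) (G : SimpleGraph U)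
    (hG : ¬ Splits r a k G) (hσ : 2 ≤ crosscutNumber (expansion r G))
    (hF : CrosscutFormula r G) :
    (2 * a + k) * (r - 1).factorial ≤
        2 * (crosscutNumber (expansion r G) - 1) * (r - 1) ^ (r - 1) := by
  have h1 : ∀ ε : ℝ, 0 < ε → ((a : ℝ) + (k : ℝ) / 2) *
      (((r - 1).factorial : ℝ) / ((r - 1 : ℕ) : ℝ) ^ (r - 1)) ≤
      (crosscutNumber (expansion r G) : ℝ) - 1 + ε := by
    intro ε hε
    obtain ⟨n, hn1, hn2, hn3⟩ := ((OB_lower' a k r (by omega) G hG (ε / 2) (by positivity)).and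
      ((le_of_formula r G hσ hF (ε / 2) (by positivity)).and
        (choose_pos_eventually (r - 1)))).exists
    have h2 := hn1.trans hn2
    have h3 := le_of_mul_le_mul_right h2 hn3
    linarith
  have h2 := le_of_forall_pos_le_add h1
  have h3 : (0 : ℝ) < ((r - 1 : ℕ) : ℝ) ^ (r - 1) := by
    have : 0 < r - 1 := by omega
    positivity
  rw [mul_div_assoc', div_le_iff₀ h3] at h2
  have h4 : ((crosscutNumber (expansion r G) - 1 : ℕ) : ℝ) =
      (crosscutNumber (expansion r G) : ℝ) - 1 := by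
    rw [Nat.cast_sub (by omega), Nat.cast_one]
  have h5 : ((2 * a + k) * (r - 1).factorial : ℝ) ≤
      2 * ((crosscutNumber (expansion r G) - 1 : ℕ) : ℝ) * ((r - 1 : ℕ) : ℝ) ^ (r - 1) := by
    rw [h4]; linarith
  exact_mod_cast h5

end

end EX
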