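import Pool.Agent.Helper89.EX.DefsS
import Pool.Agent.Helper89.EX.OL
import Pool.Agent.Helper66.EX.TW

/-!
# MP_5176ab_co, module ST: graphs with pendant stars
-/

set_option autoImplicit false

namespace EX

open Finset SimpleGraph Filter Topology

open scoped Classical

noncomputable section

section adj

variable {W : Type} (F : SimpleGraph W) (D : ℕ)

theorem st_ll (v w : W) : (starred F D).Adj (Sum.inl v) (Sum.inl w) ↔ F.Adj v w := by
  unfold starred
  rw [fromRel_adj]
  constructor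
  · rintro ⟨-, h | h⟩
    · rcases h with ⟨v', w', h, h1, h2⟩ | ⟨v', h1, h2⟩ | ⟨v', i, h1, h2⟩
      · rw [Sum.inl_injective h1, Sum.inl_injective h2]; exact h
      · exact absurd h2 (by simp)
      · exact absurd h1 (by simp)
    · rcases h with ⟨v', w', h, h1, h2⟩ | ⟨v', h1, h2⟩ | ⟨v', i, h1, h2⟩
      · rw [Sum.inl_injective h1, Sum.inl_injective h2]; exact h.symm
      · exact absurd h2 (by simp)
      · exact absurd h1 (by simp)
  · intro h
    exact ⟨fun h' => h.ne (Sum.inl_injective h'), Or.inl (Or.inl ⟨v, w, h, rfl, rfl⟩)⟩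

theorem st_lc (v w : W) : (starred F D).Adj (Sum.inl v) (Sum.inr (Sum.inl w)) ↔ v = w := by
  unfold starred
  rw [fromRel_adj]
  constructor
  · rintro ⟨-, h | h⟩
    · rcases h with ⟨v', w', h, h1, h2⟩ | ⟨v', h1, h2⟩ | ⟨v', i, h1, h2⟩
      · exact absurd h2 (by simp)
      · rw [Sum.inl_injective h1, Sum.inl_injective (Sum.inr_injective h2)]
      · exact absurd h1 (by simp)
    · rcases h with ⟨v', w', h, h1, h2⟩ | ⟨v', h1, h2⟩ | ⟨v', i, h1, h2⟩
      · exact absurd h1 (by simp)
      · exact absurd h1 (by simp)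
      · exact absurd h2 (by simp)
  · rintro rfl
    exact ⟨by simp, Or.inl (Or.inr (Or.inl ⟨v, rfl, rfl⟩))⟩

theorem st_lr (v : W) (p : W × Fin D) :
    ¬ (starred F D).Adj (Sum.inl v) (Sum.inr (Sum.inr p)) := by
  unfold starred
  rw [fromRel_adj]
  rintro ⟨-, h | h⟩
  · rcases h with ⟨v', w', h, h1, h2⟩ | ⟨v', h1, h2⟩ | ⟨v', i, h1, h2⟩
    · exact absurd h2 (by simp)
    · exact absurd h2 (by simp)
    · exact absurd h1 (by simp)
  · rcases h with ⟨v', w', h, h1, h2⟩ | ⟨v', h1, h2⟩ | ⟨v', i, h1, h2⟩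
    · exact absurd h1 (by simp)
    · exact absurd h1 (by simp)
    · exact absurd h2 (by simp)

theorem st_cc (v w : W) :
    ¬ (starred F D).Adj (Sum.inr (Sum.inl v)) (Sum.inr (Sum.inl w)) := by
  unfold starred
  rw [fromRel_adj]
  rintro ⟨-, h | h⟩
  · rcases h with ⟨v', w', h, h1, h2⟩ | ⟨v', h1, h2⟩ | ⟨v', i, h1, h2⟩
    · exact absurd h2 (by simp)
    · exact absurd h1 (by simp)
    · exact absurd h2 (by simp)
  · rcases h with ⟨v', w', h, h1, h2⟩ | ⟨v', h1, h2⟩ | ⟨v', i, h1, h2⟩
    · exact absurd h1 (by simp)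
    · exact absurd h1 (by simp)
    · exact absurd h2 (by simp)

theorem st_cr (v : W) (p : W × Fin D) :
    (starred F D).Adj (Sum.inr (Sum.inl v)) (Sum.inr (Sum.inr p)) ↔ v = p.1 := by
  unfold starred
  rw [fromRel_adj]
  constructor
  · rintro ⟨-, h | h⟩
    · rcases h with ⟨v', w', h, h1, h2⟩ | ⟨v', h1, h2⟩ | ⟨v', i, h1, h2⟩
      · exact absurd h1 (by simp)
      · exact absurd h1 (by simp)
      · rw [Sum.inl_injective (Sum.inr_injective h1), Sum.inr_injective (Sum.inr_injective h2)]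
    · rcases h with ⟨v', w', h, h1, h2⟩ | ⟨v', h1, h2⟩ | ⟨v', i, h1, h2⟩
      · exact absurd h1 (by simp)
      · exact absurd h1 (by simp)
      · exact absurd h1 (by simp)
  · rintro rfl
    exact ⟨by simp, Or.inl (Or.inr (Or.inr ⟨p.1, p.2, rfl, rfl⟩))⟩

theorem st_rr (p p' : W × Fin D) :
    ¬ (starred F D).Adj (Sum.inr (Sum.inr p)) (Sum.inr (Sum.inr p')) := by
  unfold starred
  rw [fromRel_adj]
  rintro ⟨-, h | h⟩
  · rcases h with ⟨v', w', h, h1, h2⟩ | ⟨v', h1, h2⟩ | ⟨v', i, h1, h2⟩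
    · exact absurd h2 (by simp)
    · exact absurd h1 (by simp)
    · exact absurd h1 (by simp)
  · rcases h with ⟨v', w', h, h1, h2⟩ | ⟨v', h1, h2⟩ | ⟨v', i, h1, h2⟩
    · exact absurd h1 (by simp)
    · exact absurd h1 (by simp)
    · exact absurd h1 (by simp)

end adj

/-- the centres of the stars belong to every set of small cost -/
theorem st_centre {W : Type} [Fintype W] (D : ℕ)
    (I : Finset (W ⊕ (W ⊕ (W × Fin D)))) (T : Finset (Sym2 (W ⊕ (W ⊕ (W × Fin D)))))
    (v : W)
    (hT : ∀ i : Fin D, Sum.inr (Sum.inr (v, i)) ∉ I →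
      s(Sum.inr (Sum.inl v), Sum.inr (Sum.inr (v, i))) ∈ T) : D ≤ I.card + T.card := by
  have h1 : (univ : Finset (Fin D)).image (fun i : Fin D =>
      (if Sum.inr (Sum.inr (v, i)) ∈ I then Sum.inl (Sum.inr (Sum.inr (v, i)))
        else Sum.inr s(Sum.inr (Sum.inl v), Sum.inr (Sum.inr (v, i))) :
        (W ⊕ (W ⊕ (W × Fin D))) ⊕ Sym2 (W ⊕ (W ⊕ (W × Fin D))))) ⊆ I.disjSum T := by
    intro z hz
    obtain ⟨i, -, rfl⟩ := mem_image.1 hz
    split_ifs with h
    · exact Finset.inl_mem_disjSum.2 h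
    · exact Finset.inr_mem_disjSum.2 (hT i h)
  have h2 := card_le_card h1
  rw [Finset.card_disjSum, card_image_of_injective, card_univ, Fintype.card_fin] at h2
  · exact h2
  · intro i j hij
    simp only at hij
    split_ifs at hij with h h' h'
    · simpa using hij
    · rw [Sum.inr.injEq, Sym2.congr_right] at hij
      simpa using hij

theorem cost_le_of {U : Type} [Fintype U] (G : SimpleGraph U) (I : Finset U)
    (B : Finset (Sym2 U)) (h : ∀ u v, G.Adj u v → u ∉ I → v ∉ I → s(u, v) ∈ B) :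
    cost G I ≤ I.card + B.card := by
  unfold cost
  refine Nat.add_le_add_left (card_le_card ?_) _
  intro e he
  obtain ⟨he1, he2⟩ := mem_filter.1 he
  induction e with
  | _ x y =>
    rw [SimpleGraph.mem_edgeFinset, SimpleGraph.mem_edgeSet] at he1
    exact h x y he1 (fun hx => he2 x hx (Sym2.mem_mk_left _ _))
      (fun hy => he2 y hy (Sym2.mem_mk_right _ _))

theorem st_cost {W : Type} [Fintype W] (F : SimpleGraph W) (D : ℕ) :
    cost (starred F D) (univ.image fun v => Sum.inr (Sum.inl v)) ≤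
      Fintype.card W + F.edgeFinset.card := by
  refine (cost_le_of (starred F D) _ (F.edgeFinset.image
    (Sym2.map (Sum.inl : W → W ⊕ (W ⊕ (W × Fin D))))) ?_).trans
    (Nat.add_le_add (card_image_le.trans (by rw [card_univ])) card_image_le)
  intro x y he1 hx hy
  have hc : ∀ w, x ≠ Sum.inr (Sum.inl w) ∧ y ≠ Sum.inr (Sum.inl w) := by
    intro w
    exact ⟨fun h => hx (mem_image.2 ⟨w, mem_univ _, h.symm⟩),
      fun h => hy (mem_image.2 ⟨w, mem_univ _, h.symm⟩)⟩
  rcases x with v | w | p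
  · rcases y with v' | w' | p'
    · rw [st_ll] at he1
      refine mem_image.2 ⟨s(v, v'), ?_, rfl⟩
      rw [SimpleGraph.mem_edgeFinset]; exact he1
    · exact absurd rfl (hc w').2
    · exact absurd he1 (st_lr F D v p')
  · exact absurd rfl (hc w).1
  · rcases y with v' | w' | p'
    · exact absurd he1.symm (st_lr F D v' p)
    · exact absurd rfl (hc w').2
    · exact absurd he1 (st_rr F D p p')

theorem st_indep {W : Type} [Fintype W] (F : SimpleGraph W) (D : ℕ) :
    ∀ u ∈ (univ.image fun v : W => (Sum.inr (Sum.inl v) : W ⊕ (W ⊕ (W × Fin D)))),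
    ∀ v ∈ (univ.image fun v : W => (Sum.inr (Sum.inl v) : W ⊕ (W ⊕ (W × Fin D)))),
      ¬ (starred F D).Adj u v := by
  intro u hu v hv
  obtain ⟨x, -, rfl⟩ := mem_image.1 hu
  obtain ⟨y, -, rfl⟩ := mem_image.1 hv
  exact st_cc F D x y

theorem st_sigma {W : Type} [Fintype W] (F : SimpleGraph W) (D r : ℕ) (hr : 3 ≤ r) :
    crosscutNumber (expansion r (starred F D)) ≤ Fintype.card W + F.edgeFinset.card :=
  (crosscut_le_cost r hr _ _ (st_indep F D)).trans (st_cost F D)

theorem cost_ge {U : Type} [Fintype U] (G : SimpleGraph U) (I : Finset U) :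
    ∃ T : Finset (Sym2 U), cost G I = I.card + T.card ∧
      ∀ u v, G.Adj u v → u ∉ I → v ∉ I → s(u, v) ∈ T := by
  refine ⟨_, rfl, ?_⟩
  intro u v huv hu hv
  refine mem_filter.2 ⟨?_, ?_⟩
  · rw [SimpleGraph.mem_edgeFinset]; exact huv
  · intro w hw hw'
    rcases Sym2.mem_iff.1 hw' with rfl | rfl
    · exact hu hw
    · exact hv hw

/-- every independent set of small cost contains all centres -/
theorem st_all {W : Type} [Fintype W] (F : SimpleGraph W) (D : ℕ)
    (I : Finset (W ⊕ (W ⊕ (W × Fin D)))) (hI : cost (starred F D) I < D) (v : W) :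
    Sum.inr (Sum.inl v) ∈ I := by
  by_contra hv
  obtain ⟨T, h1, h2⟩ := cost_ge (starred F D) I
  have h3 := st_centre D I T v (fun i hi => h2 _ _ ((st_cr F D v (v, i)).2 rfl) hv hi)
  omega

theorem st_sigma_ge {W : Type} [Fintype W] (F : SimpleGraph W) (D r : ℕ) (hr : 3 ≤ r)
    (hW : 2 ≤ Fintype.card W) (hD : Fintype.card W + F.edgeFinset.card < D) :
    2 ≤ crosscutNumber (expansion r (starred F D)) := by
  obtain ⟨I, hI, hc⟩ := exists_opt r hr (starred F D)
  have h1 := st_all F D I (by rw [hc]; exact lt_of_le_of_lt (st_sigma F D r hr) hD)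
  have h2 : (univ.image fun v : W => (Sum.inr (Sum.inl v) : W ⊕ (W ⊕ (W × Fin D)))) ⊆ I := by
    intro x hx
    obtain ⟨v, -, rfl⟩ := mem_image.1 hx
    exact h1 v
  have h3 := card_le_card h2
  rw [card_image_of_injective, card_univ] at h3
  · rw [← hc]
    obtain ⟨T, h4, -⟩ := cost_ge (starred F D) I
    omega
  · intro v w h
    simpa using h

theorem st_not_splits {W : Type} [Fintype W] (F : SimpleGraph W) (D r a : ℕ) (ha : a < D)
    (hF : ¬ F.Colorable (r - 1)) : ¬ Splits r a 0 (starred F D) := by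
  rintro ⟨I, T, ψ, c, h1, h2, h3, h4, h5, h6, h7⟩
  have hall : ∀ v : W, Sum.inr (Sum.inl v) ∈ I := by
    intro v
    by_contra hv
    have := st_centre D I T v (fun i hi => h7 rfl _ _ ((st_cr F D v (v, i)).2 rfl) hv hi)
    omega
  have hl : ∀ v : W, Sum.inl v ∉ I := fun v hv =>
    h1 _ hv _ (hall v) ((st_lc F D v v).2 rfl)
  refine hF ⟨⟨fun v => ψ (Sum.inl v), ?_⟩⟩
  intro v w hvw heq
  have hadj := (st_ll F D v w).2 hvw
  exact (h4 _ _ hadj (hl v) (hl w) heq).2 (h7 rfl _ _ hadj (hl v) (hl w))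

theorem st_not_splits3 {W : Type} [Fintype W] (F : SimpleGraph W) (D : ℕ)
    (hF : ¬ F.IsAcyclic) : ¬ Splits 3 0 D (starred F D) := by
  rintro ⟨I, T, ψ, c, h1, h2, h3, h4, h5, h6, h7⟩
  have hI : I = ∅ := by rw [← Finset.card_eq_zero]; omega
  have hT : T = ∅ := by rw [← Finset.card_eq_zero]; omega
  subst hI hT
  have hc : ∀ v : W, ψ (Sum.inr (Sum.inl v)) ≠ c := by
    intro v hv
    have h8 := h6 _ (by simp) hv
    have h9 : insert (Sum.inl v) ((univ : Finset (Fin D)).image fun i =>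
        (Sum.inr (Sum.inr (v, i)) : W ⊕ (W ⊕ (W × Fin D)))) ⊆ univ.filter (fun w =>
        (starred F D).Adj (Sum.inr (Sum.inl v)) w ∧ w ∉ (∅ : Finset (W ⊕ (W ⊕ (W × Fin D)))) ∧
        s(Sum.inr (Sum.inl v), w) ∉ (∅ : Finset (Sym2 (W ⊕ (W ⊕ (W × Fin D)))))) := by
      intro x hx
      rw [Finset.mem_insert] at hx
      rcases hx with rfl | hx
      · exact mem_filter.2 ⟨mem_univ _, ((st_lc F D v v).2 rfl).symm, by simp, by simp⟩
      · obtain ⟨i, -, rfl⟩ := mem_image.1 hx
        exact mem_filter.2 ⟨mem_univ _, (st_cr F D v (v, i)).2 rfl, by simp, by simp⟩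
    have h10 := card_le_card h9
    rw [card_insert_of_notMem (by simp), card_image_of_injective, card_univ,
      Fintype.card_fin] at h10
    · have h11 := h10.trans h8
      omega
    · intro i j hij
      simpa using hij
  have hv : ∀ v : W, ψ (Sum.inl v) = c := by
    intro v
    by_contra hne
    have h8 : ψ (Sum.inl v) = ψ (Sum.inr (Sum.inl v)) := by
      have h9 := hc v
      have h10 : ∀ x y z : Fin (3 - 1), x ≠ z → y ≠ z → x = y := by decide
      exact h10 _ _ _ hne h9
    exact hne (h4 _ _ ((st_lc F D v v).2 rfl) (by simp) (by simp) h8).1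
  apply hF
  intro v w hw
  let φ : F →g (starred F D).induce {u | u ∉ (∅ : Finset (W ⊕ (W ⊕ (W × Fin D)))) ∧ ψ u = c} :=
    ⟨fun v => ⟨Sum.inl v, by simp, hv v⟩, fun {u v} huv => (st_ll F D u v).2 huv⟩
  refine h5 _ (hw.map (f := φ) ?_)
  intro u v huv
  have := congrArg Subtype.val huv
  exact Sum.inl_injective this

/-- the condition on the crosscut -/
theorem st_avoids {W : Type} [Fintype W] (F : SimpleGraph W) (D r : ℕ) (hr : 4 ≤ r)
    (hD : Fintype.card W + F.edgeFinset.card < D) (hF : F.Colorable (r - 1)) :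
    AvoidsClass r (starred F D) := by
  obtain ⟨X, hX, hXc⟩ := exists_min r (by omega) (starred F D)
  obtain ⟨I, hI, hIX, hc⟩ := exists_I r (by omega) (starred F D) X hX hXc
  have h1 := st_all F D I (by rw [hc]; exact lt_of_le_of_lt (st_sigma F D r (by omega)) hD)
  obtain ⟨φ⟩ := hF
  have h2 : ∀ v : W, ∃ x : Fin (r - 1), x ≠ φ v ∧ x ≠ ⟨0, by omega⟩ := by
    intro v
    by_contra hcon
    push Not at hcon
    have h3 : (univ : Finset (Fin (r - 1))) ⊆ {φ v, ⟨0, by omega⟩} := by
      intro x _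
      rw [Finset.mem_insert, Finset.mem_singleton]
      by_cases h : x = φ v
      · exact Or.inl h
      · exact Or.inr (hcon x h)
    have h4 := (card_le_card h3).trans Finset.card_le_two
    rw [card_univ, Fintype.card_fin] at h4
    omega
  choose g hg1 hg2 using h2
  refine ⟨X, hX, hXc, ⟨fun x => Sum.elim (fun v => φ v) (fun z => Sum.elim (fun v => g v)
    (fun _ => ⟨0, by omega⟩) z) x, ?_⟩, ⟨0, by omega⟩, ?_⟩
  · intro x y hxy
    rcases x with v | v | p <;> rcases y with w | w | q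
    · rw [st_ll] at hxy
      exact φ.valid hxy
    · rw [st_lc] at hxy
      subst hxy
      exact (hg1 v).symm
    · exact absurd hxy (st_lr F D v q)
    · have := (st_lc F D w v).1 hxy.symm
      subst this
      exact hg1 w
    · exact absurd hxy (st_cc F D v w)
    · exact hg2 v
    · exact absurd hxy.symm (st_lr F D w p)
    · exact (hg2 w).symm
    · exact absurd hxy (st_rr F D p q)
  · intro x hx
    rw [← hIX]
    rcases x with v | v | p
    · exact fun h => hI _ h _ (h1 v) ((st_lc F D v v).2 rfl)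
    · exact absurd hx (hg2 v)
    · exact fun h => hI _ (h1 p.1) _ h ((st_cr F D p.1 p).2 rfl)

theorem enc_inj (N a b x y : ℕ) (hx : x < N) (hy : y < N) (h : a * N + x = b * N + y) :
    a = b ∧ x = y := by
  rcases lt_trichotomy a b with hab | hab | hab
  · have : (a + 1) * N ≤ b * N := Nat.mul_le_mul_right _ hab
    rw [Nat.add_mul, Nat.one_mul] at this
    omega
  · subst hab
    exact ⟨rfl, by omega⟩
  · have : (b + 1) * N ≤ a * N := Nat.mul_le_mul_right _ hab
    rw [Nat.add_mul, Nat.one_mul] at this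
    omega

/-- the new order -/
def stO {W : Type} (D : ℕ) (o : W → ℕ) (x : W ⊕ (W ⊕ (W × Fin D))) : ℕ :=
  Sum.elim (fun v => o v * (D + 2) + 0)
    (fun z => Sum.elim (fun v => o v * (D + 2) + 1)
      (fun p => o p.1 * (D + 2) + (2 + (p.2 : ℕ))) z) x

theorem stO_1 {W : Type} (D : ℕ) (o : W → ℕ) (v : W) :
    stO D o (Sum.inl v) = o v * (D + 2) + 0 := rfl

theorem stO_2 {W : Type} (D : ℕ) (o : W → ℕ) (v : W) :
    stO D o (Sum.inr (Sum.inl v)) = o v * (D + 2) + 1 := rfl

theorem stO_3 {W : Type} (D : ℕ) (o : W → ℕ) (p : W × Fin D) :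
    stO D o (Sum.inr (Sum.inr p)) = o p.1 * (D + 2) + (2 + (p.2 : ℕ)) := rfl

theorem stO_inj {W : Type} (D : ℕ) (o : W → ℕ) (ho : Function.Injective o) :
    Function.Injective (stO D o) := by
  intro x y h
  rcases x with v | v | p <;> rcases y with w | w | q <;>
    simp only [stO_1, stO_2, stO_3] at h
  · rw [ho (enc_inj (D + 2) _ _ _ _ (by omega) (by omega) h).1]
  · exact absurd (enc_inj (D + 2) _ _ _ _ (by omega) (by omega) h).2 (by omega)
  · have := q.2.2
    exact absurd (enc_inj (D + 2) _ _ _ _ (by omega) (by omega) h).2 (by omega)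
  · exact absurd (enc_inj (D + 2) _ _ _ _ (by omega) (by omega) h).2 (by omega)
  · rw [ho (enc_inj (D + 2) _ _ _ _ (by omega) (by omega) h).1]
  · have := q.2.2
    exact absurd (enc_inj (D + 2) _ _ _ _ (by omega) (by omega) h).2 (by omega)
  · have := p.2.2
    exact absurd (enc_inj (D + 2) _ _ _ _ (by omega) (by omega) h).2 (by omega)
  · have := p.2.2
    exact absurd (enc_inj (D + 2) _ _ _ _ (by omega) (by omega) h).2 (by omega)
  · have := p.2.2
    have := q.2.2
    have h1 := enc_inj (D + 2) _ _ _ _ (by omega) (by omega) h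
    rw [Prod.ext (ho h1.1) (Fin.ext (by omega) : p.2 = q.2)]

/-- the earlier neighbours -/
theorem st_earlier {W : Type} (K : SimpleGraph W) (D : ℕ) (o : W → ℕ)
    (u z : W ⊕ (W ⊕ (W × Fin D))) (h : (starred K D).Adj u z) (hlt : stO D o u < stO D o z) :
    (∃ x v, u = Sum.inl x ∧ z = Sum.inl v ∧ K.Adj x v ∧ o x < o v) ∨
    (∃ v, u = Sum.inl v ∧ z = Sum.inr (Sum.inl v)) ∨
    (∃ p : W × Fin D, u = Sum.inr (Sum.inl p.1) ∧ z = Sum.inr (Sum.inr p)) := by
  rcases u with v | v | p <;> rcases z with w | w | q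
  · refine Or.inl ⟨v, w, rfl, rfl, (st_ll K D v w).1 h, ?_⟩
    simp only [stO_1] at hlt
    by_contra hcon
    push Not at hcon
    have := Nat.mul_le_mul_right (D + 2) hcon
    omega
  · have := (st_lc K D v w).1 h
    subst this
    exact Or.inr (Or.inl ⟨v, rfl, rfl⟩)
  · exact absurd h (st_lr K D v q)
  · have := (st_lc K D w v).1 h.symm
    subst this
    simp only [stO_1, stO_2] at hlt
    omega
  · exact absurd h (st_cc K D v w)
  · have := (st_cr K D v q).1 h
    subst this
    exact Or.inr (Or.inr ⟨q, rfl, rfl⟩)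
  · exact absurd h.symm (st_lr K D w p)
  · have := (st_cr K D w p).1 h.symm
    subst this
    simp only [stO_3, stO_2] at hlt
    omega
  · exact absurd h (st_rr K D p q)

theorem st_tw {W : Type} [Fintype W] (F : SimpleGraph W) (D w : ℕ) (hw : 1 ≤ w)
    (hF : TreewidthLE F w) : TreewidthLE (starred F D) w := by
  obtain ⟨K, o, ho, hFK, h1, h2⟩ := hF
  refine ⟨starred K D, stO D o, stO_inj D o ho, ?_, ?_, ?_⟩
  · intro x y hxy
    rcases x with v | v | p <;> rcases y with w | w | q
    · rw [st_ll] at hxy ⊢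
      exact hFK hxy
    · rw [st_lc] at hxy ⊢
      exact hxy
    · exact absurd hxy (st_lr F D v q)
    · exact ((st_lc K D w v).2 ((st_lc F D w v).1 hxy.symm)).symm
    · exact absurd hxy (st_cc F D v w)
    · rw [st_cr] at hxy ⊢
      exact hxy
    · exact absurd hxy.symm (st_lr F D w p)
    · exact ((st_cr K D w p).2 ((st_cr F D w p).1 hxy.symm)).symm
    · exact absurd hxy (st_rr F D p q)
  · intro z u u' hu hu' hlt hlt' hne
    rcases st_earlier K D o u z hu hlt with ⟨x, v, e1, e2, e3, e4⟩ | ⟨v, e1, e2⟩ | ⟨p, e1, e2⟩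
    · rcases st_earlier K D o u' z hu' hlt' with
        ⟨x', v', f1, f2, f3, f4⟩ | ⟨v', f1, f2⟩ | ⟨p', f1, f2⟩
      · rw [e2] at f2
        have := Sum.inl_injective f2
        subst this
        rw [e1, f1, st_ll]
        exact h1 v x x' e3 f3 e4 f4 (fun h => hne (by rw [e1, f1, h]))
      · rw [e2] at f2; exact absurd f2 (by simp)
      · rw [e2] at f2; exact absurd f2 (by simp)
    · rcases st_earlier K D o u' z hu' hlt' with
        ⟨x', v', f1, f2, f3, f4⟩ | ⟨v', f1, f2⟩ | ⟨p', f1, f2⟩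
      · rw [e2] at f2; exact absurd f2 (by simp)
      · rw [e2] at f2
        have : v = v' := by simpa using f2
        exact absurd (by rw [e1, f1, this]) hne
      · rw [e2] at f2; exact absurd f2 (by simp)
    · rcases st_earlier K D o u' z hu' hlt' with
        ⟨x', v', f1, f2, f3, f4⟩ | ⟨v', f1, f2⟩ | ⟨p', f1, f2⟩
      · rw [e2] at f2; exact absurd f2 (by simp)
      · rw [e2] at f2; exact absurd f2 (by simp)
      · rw [e2] at f2
        have : p = p' := by simpa using f2
        exact absurd (by rw [e1, f1, this]) hne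
  · intro z
    rcases z with v | v | p
    · refine le_trans ?_ (h2 v)
      refine (card_le_card (t := (univ.filter fun u => K.Adj u v ∧ o u < o v).image Sum.inl)
        ?_).trans card_image_le
      intro u hu
      obtain ⟨-, hu1, hu2⟩ := mem_filter.1 hu
      rcases st_earlier K D o u _ hu1 hu2 with ⟨x, v', e1, e2, e3, e4⟩ | ⟨v', e1, e2⟩ | ⟨p, e1, e2⟩
      · have := Sum.inl_injective e2
        subst this
        exact mem_image.2 ⟨x, mem_filter.2 ⟨mem_univ _, e3, e4⟩, e1.symm⟩
      · exact absurd e2 (by simp)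
      · exact absurd e2 (by simp)
    · refine le_trans ?_ hw
      refine (card_le_card (t := {Sum.inl v}) ?_).trans (card_singleton _).le
      intro u hu
      obtain ⟨-, hu1, hu2⟩ := mem_filter.1 hu
      rcases st_earlier K D o u _ hu1 hu2 with ⟨x, v', e1, e2, e3, e4⟩ | ⟨v', e1, e2⟩ | ⟨p, e1, e2⟩
      · exact absurd e2 (by simp)
      · have : v = v' := by simpa using e2
        rw [mem_singleton, e1, this]
      · exact absurd e2 (by simp)
    · refine le_trans ?_ hw
      refine (card_le_card (t := {Sum.inr (Sum.inl p.1)}) ?_).trans (card_singleton _).le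
      intro u hu
      obtain ⟨-, hu1, hu2⟩ := mem_filter.1 hu
      rcases st_earlier K D o u _ hu1 hu2 with ⟨x, v', e1, e2, e3, e4⟩ | ⟨v', e1, e2⟩ | ⟨p', e1, e2⟩
      · exact absurd e2 (by simp)
      · exact absurd e2 (by simp)
      · have : p = p' := by simpa using e2
        rw [mem_singleton, e1, this]

end

end EX
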