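import Pool.Agent.Helper89.EX.Defs
import Pool.Agent.Helper52.EX.AS

/-!
# MP_5176ab_co, module DG: bipartite graphs with one side of bounded degree, Turán exponents,
and deletion of vertices
-/

set_option autoImplicit false

namespace EX

open Finset SimpleGraph Filter Topology

open scoped Classical

noncomputable section

/-- number of `j`-cliques inside `S` -/
def kc {V : Type} (K : SimpleGraph V) (j : ℕ) (S : Finset V) : ℕ :=
  ((powersetCard j S).filter fun T : Finset V => K.IsClique (T : Set V)).card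

theorem kc_zero {V : Type} (K : SimpleGraph V) (S : Finset V) : kc K 0 S = 1 := by
  unfold kc
  rw [powersetCard_zero, Finset.card_eq_one]
  refine ⟨∅, ?_⟩
  ext T
  simp only [mem_filter, mem_singleton]
  constructor
  · rintro ⟨h, -⟩; exact h
  · rintro rfl; simp

theorem kc_one_le {V : Type} (K : SimpleGraph V) (S : Finset V) : kc K 1 S ≤ S.card := by
  unfold kc
  refine (Finset.card_filter_le _ _).trans ?_
  rw [Finset.card_powersetCard, Nat.choose_one_right]

theorem kc_succ {V : Type} (K : SimpleGraph V) (j : ℕ) (S : Finset V) :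
    kc K (j + 1) S ≤ ∑ v ∈ S, kc K j (S.filter (K.Adj v)) := by
  unfold kc
  have hsub : ((powersetCard (j + 1) S).filter fun T : Finset V => K.IsClique (T : Set V)) ⊆
      S.biUnion fun v => ((powersetCard j (S.filter (K.Adj v))).filter
        fun T : Finset V => K.IsClique (T : Set V)).image (insert v) := by
    intro T hT
    obtain ⟨hT1, hT2⟩ := mem_filter.1 hT
    obtain ⟨hT3, hT4⟩ := mem_powersetCard.1 hT1
    obtain ⟨v, hv⟩ : T.Nonempty := by
      rw [← Finset.card_pos]; omega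
    refine mem_biUnion.2 ⟨v, hT3 hv, mem_image.2 ⟨T.erase v, mem_filter.2 ⟨mem_powersetCard.2
      ⟨?_, by rw [card_erase_of_mem hv]; omega⟩, ?_⟩, insert_erase hv⟩⟩
    · intro x hx
      obtain ⟨hx1, hx2⟩ := mem_erase.1 hx
      exact mem_filter.2 ⟨hT3 hx2, hT2 (mem_coe.2 hv) (mem_coe.2 hx2) (Ne.symm hx1)⟩
    · exact hT2.subset (by exact_mod_cast erase_subset v T)
  refine (card_le_card hsub).trans (card_biUnion_le.trans (sum_le_sum fun v _ => card_image_le))

theorem clique_eq_kc {V : Type} [Fintype V] (K : SimpleGraph V) (r : ℕ) :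
    (K.cliqueFinset r).card = kc K r univ := by
  unfold kc
  congr 1
  ext T
  rw [mem_cliqueFinset_iff, mem_filter, mem_powersetCard, isNClique_iff]
  simp only [subset_univ, true_and]
  tauto

/-- a `G`-free graph: every `m` vertices contain `d` vertices with few common neighbours -/
theorem DG_embed {U V : Type} [Fintype U] (G : SimpleGraph U) (A : Finset U)
    (hA : ∀ u v, G.Adj u v → (u ∈ A ↔ v ∉ A)) (d : ℕ)
    (hdeg : ∀ u, u ∉ A → (univ.filter (G.Adj u)).card ≤ d) (K : SimpleGraph V) (hK : G.Free K)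
    (S M : Finset V) (hM1 : A.card ≤ M.card) (hM2 : d ≤ M.card) :
    ∃ D ∈ powersetCard d M, (S.filter fun x => ∀ y ∈ D, K.Adj y x).card < Fintype.card U := by
  by_contra hcon
  push Not at hcon
  apply hK
  obtain ⟨S', hS', hS'c⟩ := Finset.exists_subset_card_eq hM1
  let e1 : A ≃ S' := Finset.equivOfCardEq hS'c.symm
  -- the neighbours of `b`
  set P : U → Finset V := fun b => (univ.filter fun a : A => G.Adj b a).image
    (fun a => (e1 a : V)) with hP
  have hPM : ∀ b, P b ⊆ M := by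
    intro b x hx
    obtain ⟨a, -, rfl⟩ := mem_image.1 hx
    exact hS' (e1 a).2
  have hPd : ∀ b, b ∉ A → (P b).card ≤ d := by
    intro b hb
    refine card_image_le.trans (le_trans ?_ (hdeg b hb))
    refine card_le_card_of_injOn (fun a => (a : U)) ?_ ?_
    · intro a ha
      exact mem_coe.2 (mem_filter.2 ⟨mem_univ _, (mem_filter.1 ha).2⟩)
    · intro a _ a' _ h
      exact Subtype.ext h
  have hD : ∀ b : {u : U // u ∉ A}, ∃ D ∈ powersetCard d M, P b ⊆ D := by
    intro b
    obtain ⟨D, h1, h2, h3⟩ := exists_subsuperset_card_eq (hPM b) (hPd b b.2) hM2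
    exact ⟨D, mem_powersetCard.2 ⟨h2, h3⟩, h1⟩
  choose D hD1 hD2 using hD
  -- choose the images of the vertices outside `A`
  obtain ⟨g, hg1, hg2⟩ := (Finset.all_card_le_biUnion_card_iff_exists_injective
    (fun b : {u : U // u ∉ A} => (S.filter fun x => ∀ y ∈ D b, K.Adj y x) \ S')).1 (by
    intro s
    rcases s.eq_empty_or_nonempty with rfl | ⟨b, hb⟩
    · simp
    · have h1 : s.card ≤ Fintype.card {u : U // u ∉ A} := card_le_univ s
      have h2 : Fintype.card {u : U // u ∉ A} = Fintype.card U - A.card := by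
        rw [Fintype.card_subtype_compl, Fintype.card_coe]
      have h3 := hcon (D b) (hD1 b)
      have h4 : Fintype.card U - A.card ≤
          ((S.filter fun x => ∀ y ∈ D b, K.Adj y x) \ S').card := by
        have := Finset.le_card_sdiff S' (S.filter fun x => ∀ y ∈ D b, K.Adj y x)
        omega
      refine (h1.trans (h2.le.trans h4)).trans (card_le_card ?_)
      exact Finset.subset_biUnion_of_mem
        (fun b : {u : U // u ∉ A} => (S.filter fun x => ∀ y ∈ D b, K.Adj y x) \ S') hb)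
  let f : U → V := fun u => if hu : u ∈ A then (e1 ⟨u, hu⟩ : V) else g ⟨u, hu⟩
  have f1 : ∀ u (hu : u ∈ A), f u = (e1 ⟨u, hu⟩ : V) := fun u hu => dif_pos hu
  have f2 : ∀ u (hu : u ∉ A), f u = g ⟨u, hu⟩ := fun u hu => dif_neg hu
  have g1 : ∀ u, u ∈ A → f u ∈ S' := by
    intro u hu; rw [f1 u hu]; exact (e1 ⟨u, hu⟩).2
  have g2 : ∀ u, u ∉ A → f u ∉ S' := by
    intro u hu; rw [f2 u hu]; exact (mem_sdiff.1 (hg2 ⟨u, hu⟩)).2
  have g3 : ∀ u v, u ∉ A → v ∈ A → G.Adj u v → K.Adj (f v) (f u) := by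
    intro u v hu hv huv
    rw [f1 v hv, f2 u hu]
    refine (mem_filter.1 (mem_sdiff.1 (hg2 ⟨u, hu⟩)).1).2 _ (hD2 ⟨u, hu⟩ ?_)
    exact mem_image.2 ⟨⟨v, hv⟩, mem_filter.2 ⟨mem_univ _, huv⟩, rfl⟩
  refine ⟨⟨⟨f, ?_⟩, ?_⟩⟩
  · intro u v huv
    have := hA u v huv
    by_cases hu : u ∈ A
    · exact g3 v u (this.1 hu) hu huv.symm
    · have hv : v ∈ A := by
        by_contra hv
        exact hu (this.2 hv)
      exact (g3 u v hu hv huv).symm
  · intro u v huv
    by_cases hu : u ∈ A <;> by_cases hv : v ∈ A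
    · have huv' : f u = f v := huv
      rw [f1 u hu, f1 v hv] at huv'
      have := e1.injective (Subtype.ext huv')
      exact congrArg Subtype.val this
    · exact absurd (g1 u hu) ((show f u = f v from huv) ▸ g2 v hv)
    · exact absurd (g1 v hv) ((show f u = f v from huv) ▸ g2 u hu)
    · have huv' : f u = f v := huv
      rw [f2 u hu, f2 v hv] at huv'
      exact congrArg Subtype.val (hg1 huv')

/-- many `d`-subsets of a neighbourhood have few common neighbours -/
theorem DG_poor {V : Type} (K : SimpleGraph V) (S N : Finset V) (m d t : ℕ) (hdm : d ≤ m)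
    (hmN : m ≤ N.card)
    (h : ∀ M ⊆ N, M.card = m →
      ∃ D ∈ powersetCard d M, (S.filter fun x => ∀ y ∈ D, K.Adj y x).card < t) :
    N.card.choose d ≤ m.choose d * ((powersetCard d N).filter fun D : Finset V =>
      (S.filter fun x => ∀ y ∈ D, K.Adj y x).card < t).card := by
  set P := (powersetCard d N).filter fun D : Finset V =>
      (S.filter fun x => ∀ y ∈ D, K.Adj y x).card < t with hP
  -- the `m`-subsets of `N`
  have h1 : (powersetCard m N).card ≤ P.card * (N.card - d).choose (m - d) := by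
    have hsub : powersetCard m N ⊆ P.biUnion fun D =>
        (powersetCard (m - d) (N \ D)).image fun E => D ∪ E := by
      intro M hM
      obtain ⟨hM1, hM2⟩ := mem_powersetCard.1 hM
      obtain ⟨D, hD, hDt⟩ := h M hM1 hM2
      obtain ⟨hD1, hD2⟩ := mem_powersetCard.1 hD
      refine mem_biUnion.2 ⟨D, mem_filter.2 ⟨mem_powersetCard.2 ⟨hD1.trans hM1, hD2⟩, hDt⟩,
        mem_image.2 ⟨M \ D, mem_powersetCard.2 ⟨sdiff_subset_sdiff hM1 subset_rfl, ?_⟩,
          union_sdiff_of_subset hD1⟩⟩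
      rw [card_sdiff_of_subset hD1, hM2, hD2]
    refine (card_le_card hsub).trans (card_biUnion_le.trans ?_)
    refine (sum_le_card_nsmul _ _ ((N.card - d).choose (m - d)) ?_).trans (by simp)
    intro D hD
    obtain ⟨hD1, hD2⟩ := mem_powersetCard.1 (mem_filter.1 hD).1
    refine card_image_le.trans ?_
    rw [card_powersetCard, card_sdiff_of_subset hD1, hD2]
  rw [card_powersetCard] at h1
  have h2 : N.card.choose m * m.choose d = N.card.choose d * (N.card - d).choose (m - d) :=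
    Nat.choose_mul hdm
  have h3 : 0 < (N.card - d).choose (m - d) := Nat.choose_pos (by omega)
  refine Nat.le_of_mul_le_mul_right ?_ h3
  calc N.card.choose d * (N.card - d).choose (m - d) = N.card.choose m * m.choose d := h2.symm
    _ ≤ (P.card * (N.card - d).choose (m - d)) * m.choose d := Nat.mul_le_mul_right _ h1
    _ = m.choose d * P.card * (N.card - d).choose (m - d) := by ring

/-- the sum of the `d`-th powers of the degrees -/
theorem DG_power {U : Type} [Fintype U] (G : SimpleGraph U) (A : Finset U)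
    (hA : ∀ u v, G.Adj u v → (u ∈ A ↔ v ∉ A)) (d : ℕ) (hd : 1 ≤ d)
    (hdeg : ∀ u, u ∉ A → (univ.filter (G.Adj u)).card ≤ d) :
    ∃ C : ℝ, 1 ≤ C ∧ ∀ (V : Type) (K : SimpleGraph V), G.Free K → ∀ S : Finset V,
      ∑ v ∈ S, ((S.filter (K.Adj v)).card : ℝ) ^ d ≤ C * (S.card : ℝ) ^ d := by
  obtain ⟨m, hm⟩ : ∃ m : ℕ, m = max A.card d := ⟨_, rfl⟩
  obtain ⟨t, ht⟩ : ∃ t : ℕ, t = Fintype.card U := ⟨_, rfl⟩
  obtain ⟨c, hc, hpow⟩ := AS_pow d hd
  have hm1 : A.card ≤ m := by omega
  have hm2 : d ≤ m := by omega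
  set B : ℝ := (m.choose d : ℝ) * t with hB
  have hB0 : 0 ≤ B := by positivity
  refine ⟨c * (1 + (m.choose d : ℝ) + B), ?_, ?_⟩
  · have h0 : (0 : ℝ) ≤ (m.choose d : ℝ) := by positivity
    nlinarith [mul_nonneg (show (0 : ℝ) ≤ c by linarith) (add_nonneg h0 hB0)]
  · intro V K hK S
    -- poor `d`-subsets of `S`
    set Q : Finset (Finset V) := (powersetCard d S).filter fun D : Finset V =>
      (S.filter fun x => ∀ y ∈ D, K.Adj y x).card < t with hQ
    have h1 : ∀ v ∈ S, ((S.filter (K.Adj v)).card.choose d : ℝ) ≤ (m.choose d : ℝ) +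
        (m.choose d : ℝ) * ((Q.filter fun D => D ⊆ S.filter (K.Adj v)).card : ℝ) := by
      intro v hv
      rcases lt_or_ge (S.filter (K.Adj v)).card m with hlt | hge
      · have : ((S.filter (K.Adj v)).card.choose d : ℝ) ≤ (m.choose d : ℝ) := by
          exact_mod_cast Nat.choose_le_choose d hlt.le
        have h0 : (0 : ℝ) ≤ (m.choose d : ℝ) *
          ((Q.filter fun D => D ⊆ S.filter (K.Adj v)).card : ℝ) := by positivity
        linarith
      · have h2 := DG_poor K S (S.filter (K.Adj v)) m d t hm2 hge (by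
          intro M hM1 hM2
          rw [ht]
          exact DG_embed G A hA d hdeg K hK S M (by omega) (by omega))
        have h3 : ((powersetCard d (S.filter (K.Adj v))).filter fun D : Finset V =>
            (S.filter fun x => ∀ y ∈ D, K.Adj y x).card < t) ⊆
            Q.filter fun D => D ⊆ S.filter (K.Adj v) := by
          intro D hD
          obtain ⟨hD1, hD2⟩ := mem_filter.1 hD
          obtain ⟨hD3, hD4⟩ := mem_powersetCard.1 hD1
          exact mem_filter.2 ⟨mem_filter.2 ⟨mem_powersetCard.2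
            ⟨hD3.trans (filter_subset _ _), hD4⟩, hD2⟩, hD3⟩
        have h4 : (S.filter (K.Adj v)).card.choose d ≤ m.choose d *
            (Q.filter fun D => D ⊆ S.filter (K.Adj v)).card :=
          h2.trans (Nat.mul_le_mul_left _ (card_le_card h3))
        have h5 : ((S.filter (K.Adj v)).card.choose d : ℝ) ≤ (m.choose d : ℝ) *
            ((Q.filter fun D => D ⊆ S.filter (K.Adj v)).card : ℝ) := by exact_mod_cast h4
        have h0 : (0 : ℝ) ≤ (m.choose d : ℝ) := by positivity
        linarith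
    -- double counting
    have h2 : ∑ v ∈ S, (Q.filter fun D => D ⊆ S.filter (K.Adj v)).card ≤ t * Q.card := by
      have e1 : ∑ v ∈ S, (Q.filter fun D => D ⊆ S.filter (K.Adj v)).card =
          ∑ D ∈ Q, (S.filter fun v => D ⊆ S.filter (K.Adj v)).card := by
        simp_rw [card_filter]
        exact sum_comm
      rw [e1, mul_comm]
      refine (sum_le_card_nsmul Q _ t ?_).trans (by simp)
      intro D hD
      refine le_trans (card_le_card ?_) (mem_filter.1 hD).2.le
      intro x hx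
      obtain ⟨hx1, hx2⟩ := mem_filter.1 hx
      refine mem_filter.2 ⟨hx1, fun y hy => ?_⟩
      exact ((mem_filter.1 (hx2 hy)).2).symm
    have h3 : Q.card ≤ S.card ^ d := by
      refine (card_filter_le _ _).trans ?_
      rw [card_powersetCard]
      exact Nat.choose_le_pow _ _
    have h4 : ∑ v ∈ S, ((Q.filter fun D => D ⊆ S.filter (K.Adj v)).card : ℝ) ≤
        t * (S.card : ℝ) ^ d := by
      have : ∑ v ∈ S, (Q.filter fun D => D ⊆ S.filter (K.Adj v)).card ≤ t * S.card ^ d :=
        h2.trans (Nat.mul_le_mul_left _ h3)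
      exact_mod_cast this
    have h5 : (S.card : ℝ) ≤ (S.card : ℝ) ^ d := by
      rcases Nat.eq_zero_or_pos S.card with h0 | h0
      · rw [h0]; simp
      · have : (1 : ℝ) ≤ S.card := by exact_mod_cast h0
        exact le_self_pow₀ this (by omega)
    have h6 : ∑ v ∈ S, ((S.filter (K.Adj v)).card.choose d : ℝ) ≤
        ((m.choose d : ℝ) + B) * (S.card : ℝ) ^ d := by
      refine (sum_le_sum h1).trans ?_
      rw [sum_add_distrib, sum_const, nsmul_eq_mul, ← mul_sum]
      have h0 : (0 : ℝ) ≤ (m.choose d : ℝ) := by positivity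
      have h7 := mul_le_mul_of_nonneg_left h4 h0
      have h8 := mul_le_mul_of_nonneg_right h5 h0
      rw [hB]
      nlinarith
    calc ∑ v ∈ S, ((S.filter (K.Adj v)).card : ℝ) ^ d
        ≤ ∑ v ∈ S, c * (1 + ((S.filter (K.Adj v)).card.choose d : ℝ)) :=
          sum_le_sum fun v _ => hpow _
      _ = c * (S.card + ∑ v ∈ S, ((S.filter (K.Adj v)).card.choose d : ℝ)) := by
          rw [← mul_sum, sum_add_distrib, sum_const, nsmul_eq_mul, mul_one]
      _ ≤ c * ((S.card : ℝ) ^ d + ((m.choose d : ℝ) + B) * (S.card : ℝ) ^ d) := by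
          refine mul_le_mul_of_nonneg_left (add_le_add h5 h6) (by linarith)
      _ = c * (1 + (m.choose d : ℝ) + B) * (S.card : ℝ) ^ d := by ring

/-- the exponents -/
def DG_b (d j : ℕ) : ℝ := (d : ℝ) * (1 - (1 - 1 / (d : ℝ)) ^ j)

theorem DG_b_one (d : ℕ) (hd : 1 ≤ d) : DG_b d 1 = 1 := by
  have : (d : ℝ) ≠ 0 := by positivity
  unfold DG_b
  field_simp
  ring

theorem DG_b_succ (d j : ℕ) (hd : 1 ≤ d) :
    DG_b d (j + 1) = 1 + DG_b d j * (1 - 1 / (d : ℝ)) := by
  have : (d : ℝ) ≠ 0 := by positivity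
  unfold DG_b
  rw [pow_succ]
  field_simp
  ring

theorem DG_b_le (d j : ℕ) (hd : 1 ≤ d) : DG_b d j ≤ d := by
  unfold DG_b
  have h1 : (0 : ℝ) ≤ 1 - 1 / (d : ℝ) := by
    have : (1 : ℝ) ≤ d := by exact_mod_cast hd
    rw [sub_nonneg, div_le_one (by linarith)]
    exact this
  have h2 : (0 : ℝ) ≤ (1 - 1 / (d : ℝ)) ^ j := by positivity
  have h3 : (0 : ℝ) ≤ d := by positivity
  nlinarith

theorem DG_b_ge (d j : ℕ) (hd : 1 ≤ d) (hj : 1 ≤ j) : 1 ≤ DG_b d j := by
  have h1 : (0 : ℝ) ≤ 1 - 1 / (d : ℝ) := by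
    have : (1 : ℝ) ≤ d := by exact_mod_cast hd
    rw [sub_nonneg, div_le_one (by linarith)]
    exact this
  induction j, hj using Nat.le_induction with
  | base => rw [DG_b_one d hd]
  | succ j hj ih =>
    rw [DG_b_succ d j hd]
    nlinarith

/-- number of cliques in a graph without a bipartite graph one side of which has degrees `≤ d` -/
theorem DG_rec {U : Type} [Fintype U] (G : SimpleGraph U) (A : Finset U)
    (hA : ∀ u v, G.Adj u v → (u ∈ A ↔ v ∉ A)) (d : ℕ) (hd : 1 ≤ d)
    (hdeg : ∀ u, u ∉ A → (univ.filter (G.Adj u)).card ≤ d) (j : ℕ) (hj : 1 ≤ j) :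
    ∃ C : ℝ, 0 ≤ C ∧ ∀ (V : Type) (K : SimpleGraph V), G.Free K → ∀ S : Finset V,
      (kc K j S : ℝ) ≤ C * (S.card : ℝ) ^ DG_b d j := by
  obtain ⟨c, hc, hpow⟩ := DG_power G A hA d hd hdeg
  induction j, hj using Nat.le_induction with
  | base =>
    refine ⟨1, zero_le_one, fun V K _ S => ?_⟩
    rw [DG_b_one d hd, Real.rpow_one, one_mul]
    exact_mod_cast kc_one_le K S
  | succ j hj ih =>
    obtain ⟨C, hC, hih⟩ := ih
    refine ⟨C * c, by positivity, fun V K hK S => ?_⟩
    have h1 : (kc K (j + 1) S : ℝ) ≤ ∑ v ∈ S, (kc K j (S.filter (K.Adj v)) : ℝ) := by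
      exact_mod_cast kc_succ K j S
    refine h1.trans ?_
    calc ∑ v ∈ S, (kc K j (S.filter (K.Adj v)) : ℝ)
        ≤ ∑ v ∈ S, C * ((S.filter (K.Adj v)).card : ℝ) ^ DG_b d j :=
          sum_le_sum fun v _ => hih V K hK _
      _ = C * ∑ v ∈ S, ((S.filter (K.Adj v)).card : ℝ) ^ DG_b d j := by rw [mul_sum]
      _ ≤ C * (c * (S.card : ℝ) ^ (1 + DG_b d j * (1 - 1 / (d : ℝ)))) := by
          refine mul_le_mul_of_nonneg_left ?_ hC
          exact AS_mean S (fun v => ((S.filter (K.Adj v)).card : ℝ)) (fun v _ => by positivity)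
            d hd (DG_b d j) (by linarith [DG_b_ge d j hd hj]) (DG_b_le d j hd) c hc
            (hpow V K hK S)
      _ = C * c * (S.card : ℝ) ^ DG_b d (j + 1) := by rw [DG_b_succ d j hd]; ring

theorem clique_le_kc {V : Type} [Fintype V] (K : SimpleGraph V) (r m : ℕ)
    (hm : m = (K.cliqueFinset r).card) : m = kc K r univ := by
  rw [hm]
  exact clique_eq_kc K r

theorem exK_le_of_kc {U : Type} (n r : ℕ) (G : SimpleGraph U) (B : ℝ) (hB : 0 ≤ B)
    (h : ∀ K : SimpleGraph (Fin n), G.Free K → ((kc K r univ : ℕ) : ℝ) ≤ B) :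
    (exK n r G : ℝ) ≤ B := by
  have h1 : exK n r G ≤ ⌊B⌋₊ := by
    unfold exK
    refine csSup_le' ?_
    rintro m ⟨K, hK, hm⟩
    refine Nat.le_floor ?_
    have h2 : m = kc K r univ := by
      rw [← hm]
      exact (ic_clique K r _ _ _ _).trans (clique_eq_kc K r)
    rw [h2]
    exact h K hK
  calc (exK n r G : ℝ) ≤ (⌊B⌋₊ : ℝ) := by exact_mod_cast h1
    _ ≤ B := Nat.floor_le hB

/-- a polynomial bound with a small exponent -/
theorem small_of_exponent {U : Type} (r : ℕ) (hr : 1 ≤ r) (G : SimpleGraph U)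
    (C b : ℝ) (hC : 0 ≤ C) (hb : b < (r : ℝ) - 1)
    (h : ∀ (V : Type) (K : SimpleGraph V), G.Free K → ∀ S : Finset V,
      (kc K r S : ℝ) ≤ C * (S.card : ℝ) ^ b) :
    Tendsto (fun n : ℕ => (exK n r G : ℝ) / (n : ℝ) ^ (r - 1)) atTop (𝓝 0) := by
  have hr1 : ((r - 1 : ℕ) : ℝ) = (r : ℝ) - 1 := by
    rw [Nat.cast_sub (by omega), Nat.cast_one]
  have hbound : ∀ n : ℕ, (exK n r G : ℝ) ≤ C * (n : ℝ) ^ b := by
    intro n
    refine exK_le_of_kc n r G _ (by positivity) fun K hK => ?_
    have := h (Fin n) K hK univ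
    rwa [card_univ, Fintype.card_fin] at this
  have hlim : Tendsto (fun n : ℕ => C * (n : ℝ) ^ (-((r : ℝ) - 1 - b))) atTop (𝓝 0) := by
    have h1 : Tendsto (fun n : ℕ => (n : ℝ) ^ (-((r : ℝ) - 1 - b))) atTop (𝓝 0) :=
      (tendsto_rpow_neg_atTop (by linarith)).comp tendsto_natCast_atTop_atTop
    simpa using h1.const_mul C
  refine tendsto_of_tendsto_of_tendsto_of_le_of_le' tendsto_const_nhds hlim ?_ ?_
  · exact Eventually.of_forall (fun n => by positivity)
  · filter_upwards [eventually_ge_atTop 1] with n hn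
    have hn0 : (0 : ℝ) < n := by exact_mod_cast hn
    rw [div_le_iff₀ (by positivity)]
    refine (hbound n).trans (le_of_eq ?_)
    rw [mul_assoc, ← Real.rpow_natCast, ← Real.rpow_add hn0]
    congr 2
    rw [hr1]
    ring

theorem exK_small_of_deg {U : Type} [Fintype U] (r : ℕ) (hr : 1 ≤ r) (G : SimpleGraph U)
    (A : Finset U) (hA : ∀ u v, G.Adj u v → (u ∈ A ↔ v ∉ A)) (d : ℕ) (hd : 1 ≤ d)
    (hdeg : ∀ u, u ∉ A → (univ.filter (G.Adj u)).card ≤ d)
    (hdr : (d + 1 - r) * d ^ (r - 1) < (d - 1) ^ r) :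
    Tendsto (fun n : ℕ => (exK n r G : ℝ) / (n : ℝ) ^ (r - 1)) atTop (𝓝 0) := by
  obtain ⟨C, hC, h⟩ := DG_rec G A hA d hd hdeg r hr
  refine small_of_exponent r hr G C (DG_b d r) hC ?_ h
  have hd0 : (0 : ℝ) < d := by exact_mod_cast hd
  have h1 : ((d + 1 - r : ℕ) : ℝ) * (d : ℝ) ^ (r - 1) < ((d - 1 : ℕ) : ℝ) ^ r := by
    exact_mod_cast hdr
  have h2 : ((d - 1 : ℕ) : ℝ) = (d : ℝ) - 1 := by rw [Nat.cast_sub hd, Nat.cast_one]
  have h3 : (d : ℝ) + 1 - r ≤ ((d + 1 - r : ℕ) : ℝ) := by
    rcases le_or_gt r (d + 1) with h | h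
    · rw [Nat.cast_sub h]; push_cast; rfl
    · have : d + 1 - r = 0 := by omega
      rw [this]
      have : ((d + 1 : ℕ) : ℝ) < r := by exact_mod_cast h
      push_cast at this ⊢
      linarith
  have h4 : ((d : ℝ) + 1 - r) * (d : ℝ) ^ (r - 1) < ((d : ℝ) - 1) ^ r := by
    rw [h2] at h1
    exact lt_of_le_of_lt (mul_le_mul_of_nonneg_right h3 (by positivity)) h1
  have h5 : (1 - 1 / (d : ℝ)) ^ r * (d : ℝ) ^ r = ((d : ℝ) - 1) ^ r := by
    rw [← mul_pow]
    congr 1
    field_simp
  have h6 : (d : ℝ) ^ r = (d : ℝ) ^ (r - 1) * d := by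
    rw [← pow_succ, Nat.sub_add_cancel hr]
  have h7 : ((d : ℝ) + 1 - r) < (1 - 1 / (d : ℝ)) ^ r * d := by
    have h8 : (0 : ℝ) < (d : ℝ) ^ (r - 1) := by positivity
    refine lt_of_mul_lt_mul_right ?_ h8.le
    calc ((d : ℝ) + 1 - r) * (d : ℝ) ^ (r - 1) < ((d : ℝ) - 1) ^ r := h4
      _ = (1 - 1 / (d : ℝ)) ^ r * d * (d : ℝ) ^ (r - 1) := by rw [← h5, h6]; ring
  unfold DG_b
  linarith

/-- the sum of the degrees inside `S` -/
theorem sum_deg_le {U V : Type} (G : SimpleGraph U) (K : SimpleGraph V) (hK : G.Free K)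
    (S : Finset V) : ∑ v ∈ S, (S.filter (K.Adj v)).card ≤ 2 * extremalNumber S.card G := by
  have hfree : G.Free (K.induce (S : Set V)) := by
    rintro ⟨f⟩
    exact hK ⟨(SimpleGraph.Embedding.induce (S : Set V)).toCopy.comp f⟩
  have h1 : (K.induce (S : Set V)).edgeFinset.card ≤ extremalNumber S.card G := by
    have h0 := card_edgeFinset_le_extremalNumber hfree
    have e0 : Fintype.card ((S : Set V) : Type) = S.card := by simp
    rwa [e0] at h0
  have h2 := (K.induce (S : Set V)).sum_degrees_eq_twice_card_edges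
  have h3 : ∑ v ∈ S, (S.filter (K.Adj v)).card = ∑ v : S, (K.induce (S : Set V)).degree v := by
    rw [← Finset.sum_coe_sort S]
    refine Finset.sum_congr rfl fun v _ => ?_
    rw [← card_neighborFinset_eq_degree]
    refine Finset.card_bij' (fun x hx => ⟨x, (mem_filter.1 hx).1⟩) (fun x _ => (x : V)) ?_ ?_ ?_ ?_
    · intro x hx
      rw [mem_neighborFinset]
      exact (mem_filter.1 hx).2
    · intro x hx
      rw [mem_neighborFinset] at hx
      exact mem_filter.2 ⟨x.2, hx⟩
    · intro x hx; rfl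
    · intro x hx; rfl
  have h4 : ∑ v : S, (K.induce (S : Set V)).degree v =
      2 * (K.induce (S : Set V)).edgeFinset.card := by convert h2
  rw [h3, h4]
  exact Nat.mul_le_mul_left _ h1

/-- number of cliques from the Turán exponent -/
theorem TE_rec {U : Type} [Fintype U] (G : SimpleGraph U) (c a : ℝ) (hc : 0 ≤ c) (ha : 1 ≤ a)
    (hG : ∀ n : ℕ, (extremalNumber n G : ℝ) ≤ c * (n : ℝ) ^ a) (j : ℕ) (hj : 1 ≤ j) :
    ∃ C : ℝ, 0 ≤ C ∧ ∀ (V : Type) (K : SimpleGraph V), G.Free K → ∀ S : Finset V,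
      (kc K j S : ℝ) ≤ C * (S.card : ℝ) ^ (1 + ((j : ℝ) - 1) * (a - 1)) := by
  induction j, hj using Nat.le_induction with
  | base =>
    refine ⟨1, zero_le_one, fun V K _ S => ?_⟩
    rw [Nat.cast_one, sub_self, zero_mul, add_zero, Real.rpow_one, one_mul]
    exact_mod_cast kc_one_le K S
  | succ j hj ih =>
    obtain ⟨C, hC, hih⟩ := ih
    refine ⟨C * (2 * c), by positivity, fun V K hK S => ?_⟩
    have hj1 : (1 : ℝ) ≤ j := by exact_mod_cast hj
    set b : ℝ := 1 + ((j : ℝ) - 1) * (a - 1) with hb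
    have hb1 : 0 ≤ b - 1 := by
      rw [hb, add_sub_cancel_left]
      exact mul_nonneg (by linarith) (by linarith)
    have h1 : (kc K (j + 1) S : ℝ) ≤ ∑ v ∈ S, (kc K j (S.filter (K.Adj v)) : ℝ) := by
      exact_mod_cast kc_succ K j S
    have h2 : ∑ v ∈ S, ((S.filter (K.Adj v)).card : ℝ) ≤ 2 * (c * (S.card : ℝ) ^ a) := by
      have h3 : ∑ v ∈ S, ((S.filter (K.Adj v)).card : ℝ) ≤
          2 * (extremalNumber S.card G : ℝ) := by exact_mod_cast sum_deg_le G K hK S
      linarith [hG S.card]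
    refine h1.trans ?_
    calc ∑ v ∈ S, (kc K j (S.filter (K.Adj v)) : ℝ)
        ≤ ∑ v ∈ S, C * ((S.filter (K.Adj v)).card : ℝ) ^ b :=
          sum_le_sum fun v _ => hih V K hK _
      _ ≤ ∑ v ∈ S, C * ((S.card : ℝ) ^ (b - 1) * ((S.filter (K.Adj v)).card : ℝ)) := by
          refine sum_le_sum fun v _ => mul_le_mul_of_nonneg_left ?_ hC
          rcases Nat.eq_zero_or_pos (S.filter (K.Adj v)).card with h0 | h0
          · rw [h0, Nat.cast_zero, Real.zero_rpow (by linarith), mul_zero]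
          · have h4 : (0 : ℝ) < ((S.filter (K.Adj v)).card : ℝ) := by exact_mod_cast h0
            have h5 : ((S.filter (K.Adj v)).card : ℝ) ≤ S.card := by
              exact_mod_cast card_filter_le _ _
            calc ((S.filter (K.Adj v)).card : ℝ) ^ b
                = ((S.filter (K.Adj v)).card : ℝ) ^ (b - 1) *
                    ((S.filter (K.Adj v)).card : ℝ) := by
                  rw [Real.rpow_sub_one h4.ne', div_mul_cancel₀ _ h4.ne']
              _ ≤ _ := mul_le_mul_of_nonneg_right (Real.rpow_le_rpow h4.le h5 hb1) h4.le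
      _ = C * ((S.card : ℝ) ^ (b - 1) * ∑ v ∈ S, ((S.filter (K.Adj v)).card : ℝ)) := by
          rw [← mul_sum, ← mul_sum]
      _ ≤ C * ((S.card : ℝ) ^ (b - 1) * (2 * (c * (S.card : ℝ) ^ a))) := by
          refine mul_le_mul_of_nonneg_left (mul_le_mul_of_nonneg_left h2 (by positivity)) hC
      _ = C * (2 * c) * (S.card : ℝ) ^ (1 + (((j + 1 : ℕ) : ℝ) - 1) * (a - 1)) := by
          have h6 : 1 + (((j + 1 : ℕ) : ℝ) - 1) * (a - 1) = (b - 1) + a := by
            rw [hb]; push_cast; ring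
          rw [h6]
          rcases Nat.eq_zero_or_pos S.card with h0 | h0
          · rw [h0, Nat.cast_zero, Real.zero_rpow (by linarith : a ≠ 0),
              Real.zero_rpow (by linarith : (b - 1) + a ≠ 0)]
            ring
          · rw [Real.rpow_add (by exact_mod_cast h0)]
            ring

theorem exK_small_of_exponent {U : Type} [Fintype U] (r : ℕ) (hr : 3 ≤ r) (G : SimpleGraph U)
    (c a : ℝ) (ha : a < 2 - 1 / ((r : ℝ) - 1))
    (hG : ∀ n : ℕ, (extremalNumber n G : ℝ) ≤ c * (n : ℝ) ^ a) :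
    Tendsto (fun n : ℕ => (exK n r G : ℝ) / (n : ℝ) ^ (r - 1)) atTop (𝓝 0) := by
  have hr3 : (3 : ℝ) ≤ r := by exact_mod_cast hr
  -- we may assume `1 ≤ a` and `0 ≤ c`
  obtain ⟨C, hC, h⟩ := TE_rec G (max c 0) (max a 1) (le_max_right _ _) (le_max_right _ _) (by
    intro n
    rcases Nat.eq_zero_or_pos n with rfl | hn
    · have : extremalNumber 0 G = 0 := by
        rw [extremalNumber_of_fintypeCard_eq (V := Fin 0) (by simp)]
        refine Nat.le_zero.1 (Finset.sup_le fun K _ => ?_)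
        have : K.edgeFinset = ∅ := by
          ext e
          induction e with
          | _ x y => exact x.elim0
        rw [this, Finset.card_empty]
      rw [this]
      have h0 : (0 : ℝ) ≤ ((0 : ℕ) : ℝ) ^ max a 1 := by positivity
      simpa using mul_nonneg (le_max_right c 0) h0
    · have hn1 : (1 : ℝ) ≤ n := by exact_mod_cast hn
      refine (hG n).trans ?_
      calc c * (n : ℝ) ^ a ≤ max c 0 * (n : ℝ) ^ a :=
            mul_le_mul_of_nonneg_right (le_max_left _ _) (by positivity)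
        _ ≤ max c 0 * (n : ℝ) ^ max a 1 :=
            mul_le_mul_of_nonneg_left (Real.rpow_le_rpow_of_exponent_le hn1 (le_max_left _ _))
              (le_max_right _ _)) r (by omega)
  refine small_of_exponent r (by omega) G C _ hC ?_ h
  have h1 : max a 1 < 2 - 1 / ((r : ℝ) - 1) := by
    refine max_lt ha ?_
    have : 1 / ((r : ℝ) - 1) < 1 := by
      rw [div_lt_one (by linarith)]; linarith
    linarith
  have h2 : ((r : ℝ) - 1) * (max a 1 - 1) < ((r : ℝ) - 1) * ((2 - 1 / ((r : ℝ) - 1)) - 1) :=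
    mul_lt_mul_of_pos_left (by linarith) (by linarith)
  have h3 : ((r : ℝ) - 1) * ((2 - 1 / ((r : ℝ) - 1)) - 1) = (r : ℝ) - 2 := by
    have : (r : ℝ) - 1 ≠ 0 := by linarith
    field_simp
    ring
  linarith

end

end EX
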