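import Pool.Agent.Helper89.EX.DG

/-!
# MP_5176ab_co, module DV: deletion of vertices
-/

set_option autoImplicit false

namespace EX

open Finset SimpleGraph Filter Topology

open scoped Classical

noncomputable section

theorem kc_add {V : Type} [Fintype V] (K : SimpleGraph V) (r a : ℕ) :
    kc K (r + a) univ ≤ ∑ Q ∈ ((powersetCard a univ).filter fun T : Finset V =>
      K.IsClique (T : Set V)), kc K r (AS_N K Q) := by
  unfold kc
  have hsub : ((powersetCard (r + a) univ).filter fun T : Finset V => K.IsClique (T : Set V)) ⊆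
      ((powersetCard a univ).filter fun T : Finset V => K.IsClique (T : Set V)).biUnion
        fun Q => ((powersetCard r (AS_N K Q)).filter
        fun T : Finset V => K.IsClique (T : Set V)).image (fun E => Q ∪ E) := by
    intro T hT
    obtain ⟨hT1, hT2⟩ := mem_filter.1 hT
    obtain ⟨hT3, hT4⟩ := mem_powersetCard.1 hT1
    obtain ⟨Q, hQ1, hQ2⟩ := Finset.exists_subset_card_eq (show a ≤ T.card by omega)
    refine mem_biUnion.2 ⟨Q, mem_filter.2 ⟨mem_powersetCard.2 ⟨subset_univ _, hQ2⟩,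
      hT2.subset (by exact_mod_cast hQ1)⟩, mem_image.2 ⟨T \ Q, mem_filter.2
      ⟨mem_powersetCard.2 ⟨?_, ?_⟩, ?_⟩, union_sdiff_of_subset hQ1⟩⟩
    · intro x hx
      obtain ⟨hx1, hx2⟩ := mem_sdiff.1 hx
      refine AS_mem_N.2 fun y hy => hT2 (mem_coe.2 (hQ1 hy)) (mem_coe.2 hx1) ?_
      rintro rfl
      exact hx2 hy
    · rw [card_sdiff_of_subset hQ1]; omega
    · exact hT2.subset (by exact_mod_cast sdiff_subset)
  refine (card_le_card hsub).trans (card_biUnion_le.trans (sum_le_sum fun v _ => card_image_le))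

theorem kc_add_bound {V : Type} [Fintype V] (K : SimpleGraph V) (r a : ℕ) (B : ℝ) (hB : 0 ≤ B)
    (h : ∀ Q : Finset V, Q.card = a → K.IsClique (Q : Set V) → (kc K r (AS_N K Q) : ℝ) ≤ B) :
    (kc K (r + a) univ : ℝ) ≤ (Fintype.card V : ℝ) ^ a * B := by
  have h1 : ((kc K (r + a) univ : ℕ) : ℝ) ≤
      ∑ Q ∈ ((powersetCard a univ).filter fun T : Finset V =>
        K.IsClique (T : Set V)), (kc K r (AS_N K Q) : ℝ) := by
    exact_mod_cast kc_add K r a
  refine h1.trans ((sum_le_card_nsmul _ _ B fun Q hQ => ?_).trans ?_)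
  · obtain ⟨hQ1, hQ2⟩ := mem_filter.1 hQ
    exact h Q (mem_powersetCard.1 hQ1).2 hQ2
  · rw [nsmul_eq_mul]
    refine mul_le_mul_of_nonneg_right ?_ hB
    have h8 : ((powersetCard a univ).filter fun T : Finset V =>
          K.IsClique (T : Set V)).card ≤ Fintype.card V ^ a := by
      refine (card_filter_le _ _).trans ?_
      rw [card_powersetCard, card_univ]
      exact Nat.choose_le_pow _ _
    exact_mod_cast h8

theorem kc_le_exK {U V : Type} (G : SimpleGraph U) (K : SimpleGraph V) (r : ℕ) (S : Finset V)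
    (hfree : G.Free (K.induce (S : Set V))) : kc K r S ≤ exK S.card r G := by
  let e : (S : Set V) ≃ Fin S.card := S.equivFin
  obtain ⟨K', hK'⟩ : ∃ K' : SimpleGraph (Fin S.card), ∀ i j, K'.Adj i j ↔
      (K.induce (S : Set V)).Adj (e.symm i) (e.symm j) :=
    ⟨(K.induce (S : Set V)).comap e.symm, fun _ _ => Iff.rfl⟩
  have hfree' : G.Free K' := by
    rintro ⟨f⟩
    apply hfree
    refine ⟨⟨⟨fun u => e.symm (f u), ?_⟩, ?_⟩⟩
    · intro u v huv
      exact (hK' _ _).1 (f.toHom.map_adj huv)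
    · intro u v huv
      exact f.injective (e.symm.injective huv)
  have h1 : (K'.cliqueFinset r).card ≤ exK S.card r G := by
    unfold exK
    refine le_csSup ?_ ⟨K', hfree', ?_⟩
    · refine ⟨Fintype.card (Finset (Fin S.card)), ?_⟩
      rintro m ⟨K, -, rfl⟩
      exact Finset.card_le_univ _
    · congr!
  refine le_trans ?_ h1
  unfold kc
  refine Finset.card_le_card_of_injOn (fun T => univ.filter fun i : Fin S.card =>
    ((e.symm i : (S : Set V)) : V) ∈ T) ?_ ?_
  · intro T hT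
    obtain ⟨hT1, hT2⟩ := mem_filter.1 hT
    obtain ⟨hT3, hT4⟩ := mem_powersetCard.1 hT1
    rw [mem_coe, mem_cliqueFinset_iff, isNClique_iff]
    refine ⟨?_, ?_⟩
    · intro i hi j hj hij
      have hi' := (mem_filter.1 (mem_coe.1 hi)).2
      have hj' := (mem_filter.1 (mem_coe.1 hj)).2
      rw [hK']
      refine hT2 (mem_coe.2 hi') (mem_coe.2 hj') fun h => hij ?_
      exact e.symm.injective (Subtype.ext h)
    · rw [← hT4]
      refine Finset.card_bij' (fun i _ => ((e.symm i : (S : Set V)) : V))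
        (fun x hx => e ⟨x, hT3 hx⟩) ?_ ?_ ?_ ?_
      · intro i hi
        exact (mem_filter.1 hi).2
      · intro x hx
        refine mem_filter.2 ⟨mem_univ _, ?_⟩
        rw [Equiv.symm_apply_apply]
        exact hx
      · intro i hi
        simp
      · intro x hx
        simp
  · intro T hT T' hT' h
    obtain ⟨hT3, -⟩ := mem_powersetCard.1 (mem_filter.1 hT).1
    obtain ⟨hT3', -⟩ := mem_powersetCard.1 (mem_filter.1 hT').1
    ext x
    constructor
    · intro hx
      have h1 : e ⟨x, hT3 hx⟩ ∈ univ.filter fun i : Fin S.card =>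
          ((e.symm i : (S : Set V)) : V) ∈ T := by
        refine mem_filter.2 ⟨mem_univ _, ?_⟩
        rw [Equiv.symm_apply_apply]; exact hx
      have h2 := (Finset.ext_iff.1 h (e ⟨x, hT3 hx⟩)).1 h1
      have h3 := (mem_filter.1 h2).2
      rwa [Equiv.symm_apply_apply] at h3
    · intro hx
      have h1 : e ⟨x, hT3' hx⟩ ∈ univ.filter fun i : Fin S.card =>
          ((e.symm i : (S : Set V)) : V) ∈ T' := by
        refine mem_filter.2 ⟨mem_univ _, ?_⟩
        rw [Equiv.symm_apply_apply]; exact hx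
      have h2 := (Finset.ext_iff.1 h (e ⟨x, hT3' hx⟩)).2 h1
      have h3 := (mem_filter.1 h2).2
      rwa [Equiv.symm_apply_apply] at h3

theorem exK_small_of_delete {U : Type} [Fintype U] (r a : ℕ) (hr : 2 ≤ r) (G : SimpleGraph U)
    (S : Finset U) (hS : S.card = a)
    (h : Tendsto (fun n : ℕ => (exK n r (G.induce {u | u ∉ S}) : ℝ) / (n : ℝ) ^ (r - 1)) atTop
      (𝓝 0)) :
    Tendsto (fun n : ℕ => (exK n (r + a) G : ℝ) / (n : ℝ) ^ (r + a - 1)) atTop (𝓝 0) := by
  -- the graphs on the common neighbourhoods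
  have hfree : ∀ (V : Type) [Fintype V] (K : SimpleGraph V), G.Free K →
      ∀ Q : Finset V, Q.card = a → K.IsClique (Q : Set V) →
      (G.induce {u | u ∉ S}).Free
        (K.induce (AS_N K Q : Set V)) := by
    intro V _ K hK Q hQ hQc
    rintro ⟨f⟩
    apply hK
    let e1 : S ≃ Q := Finset.equivOfCardEq (hS.trans hQ.symm)
    let g : U → V := fun u => if hu : u ∈ S then (e1 ⟨u, hu⟩ : V)
      else ((f ⟨u, hu⟩ : _) : V)
    have g1 : ∀ u (hu : u ∈ S), g u = (e1 ⟨u, hu⟩ : V) := fun u hu => dif_pos hu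
    have g2 : ∀ u (hu : u ∉ S), g u = ((f ⟨u, hu⟩ : _) : V) := fun u hu => dif_neg hu
    have g3 : ∀ u v, u ∈ S → v ∉ S → K.Adj (g u) (g v) := by
      intro u v hu hv
      rw [g1 u hu, g2 v hv]
      have := (f ⟨v, hv⟩).2
      rw [mem_coe, AS_mem_N] at this
      exact this _ (e1 ⟨u, hu⟩).2
    refine ⟨⟨⟨g, ?_⟩, ?_⟩⟩
    · intro u v huv
      by_cases hu : u ∈ S <;> by_cases hv : v ∈ S
      · rw [g1 u hu, g1 v hv]
        refine hQc (mem_coe.2 (e1 ⟨u, hu⟩).2) (mem_coe.2 (e1 ⟨v, hv⟩).2) fun heq => huv.ne ?_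
        have := e1.injective (Subtype.ext heq)
        exact congrArg Subtype.val this
      · exact g3 u v hu hv
      · exact (g3 v u hv hu).symm
      · rw [g2 u hu, g2 v hv]
        have h1 : (G.induce {u | u ∉ S}).Adj ⟨u, hu⟩ ⟨v, hv⟩ := huv
        exact f.toHom.map_adj h1
    · intro u v huv
      have huv' : g u = g v := huv
      by_cases hu : u ∈ S <;> by_cases hv : v ∈ S
      · rw [g1 u hu, g1 v hv] at huv'
        have := e1.injective (Subtype.ext huv')
        exact congrArg Subtype.val this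
      · exact absurd huv' (g3 u v hu hv).ne
      · exact absurd huv'.symm (g3 v u hv hu).ne
      · rw [g2 u hu, g2 v hv] at huv'
        have := f.injective (Subtype.ext huv')
        exact congrArg Subtype.val this
  rw [Metric.tendsto_atTop']
  intro ε hε
  rw [Metric.tendsto_atTop'] at h
  obtain ⟨m0, hm0⟩ := h (ε / 2) (by positivity)
  -- bound for the number of `r`-cliques in a set
  have hk : ∀ m : ℕ, (exK m r (G.induce {u | u ∉ S}) : ℝ) ≤
      ε / 2 * (m : ℝ) ^ (r - 1) + ((m0 : ℝ) + 1) ^ r := by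
    intro m
    rcases lt_or_ge m0 m with hm | hm
    · have h1 := hm0 m hm
      have hm1 : (0 : ℝ) < (m : ℝ) ^ (r - 1) := by
        have : (0 : ℝ) < m := by exact_mod_cast (show 0 < m by omega)
        positivity
      rw [Real.dist_eq, sub_zero, abs_of_nonneg (by positivity), div_lt_iff₀ hm1] at h1
      have h2 : (0 : ℝ) ≤ ((m0 : ℝ) + 1) ^ r := by positivity
      linarith
    · have h1 : exK m r (G.induce {u | u ∉ S}) ≤ m ^ r := by
        unfold exK
        refine csSup_le' ?_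
        rintro x ⟨K, -, rfl⟩
        have h2 : (K.cliqueFinset r).card ≤ (powersetCard r (univ : Finset (Fin m))).card := by
          refine card_le_card fun T hT => ?_
          rw [mem_cliqueFinset_iff] at hT
          exact mem_powersetCard.2 ⟨subset_univ _, hT.card_eq⟩
        rw [card_powersetCard, card_univ, Fintype.card_fin] at h2
        exact h2.trans (Nat.choose_le_pow _ _)
      have h2 : (exK m r (G.induce {u | u ∉ S}) : ℝ) ≤ (m : ℝ) ^ r := by exact_mod_cast h1
      have h3 : (m : ℝ) ^ r ≤ ((m0 : ℝ) + 1) ^ r := by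
        refine pow_le_pow_left₀ (by positivity) ?_ _
        have : (m : ℝ) ≤ m0 := by exact_mod_cast hm
        linarith
      have h4 : (0 : ℝ) ≤ ε / 2 * (m : ℝ) ^ (r - 1) := by positivity
      linarith
  -- the bound
  have hbound : ∀ n : ℕ, (exK n (r + a) G : ℝ) ≤
      (n : ℝ) ^ a * (ε / 2 * (n : ℝ) ^ (r - 1) + ((m0 : ℝ) + 1) ^ r) := by
    intro n
    have key : ∀ K : SimpleGraph (Fin n), G.Free K → ((kc K (r + a) univ : ℕ) : ℝ) ≤
        (n : ℝ) ^ a * (ε / 2 * (n : ℝ) ^ (r - 1) + ((m0 : ℝ) + 1) ^ r) := by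
      intro K hK
      have h9 := kc_add_bound K r a (ε / 2 * (n : ℝ) ^ (r - 1) + ((m0 : ℝ) + 1) ^ r)
        (by positivity) (by
        intro Q hQ1 hQ2
        have h3 := kc_le_exK (G.induce {u | u ∉ S}) K r (AS_N K Q) (hfree (Fin n) K hK Q hQ1 hQ2)
        have h4 : (kc K r (AS_N K Q) : ℝ) ≤
            exK (AS_N K Q).card r (G.induce {u | u ∉ S}) := by
          exact_mod_cast h3
        refine h4.trans ((hk _).trans ?_)
        have h5 : (((AS_N K Q).card : ℕ) : ℝ) ≤ n := by
          have := card_le_univ (AS_N K Q)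
          rw [Fintype.card_fin] at this
          exact_mod_cast this
        have h6 := pow_le_pow_left₀ (Nat.cast_nonneg _) h5 (r - 1)
        have h7 := mul_le_mul_of_nonneg_left h6 (show (0 : ℝ) ≤ ε / 2 by positivity)
        linarith)
      rwa [Fintype.card_fin] at h9
    exact exK_le_of_kc n (r + a) G _ (by positivity) key
  -- conclusion
  obtain ⟨N1, hN1⟩ := exists_nat_gt (4 * ((m0 : ℝ) + 1) ^ r / ε)
  refine ⟨max N1 1, fun n hn => ?_⟩
  have hn1 : N1 < n := lt_of_le_of_lt (le_max_left _ _) hn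
  have hn2 : 1 < n := lt_of_le_of_lt (le_max_right _ _) hn
  have hn0 : (0 : ℝ) < n := by exact_mod_cast (show 0 < n by omega)
  have hpos : (0 : ℝ) < (n : ℝ) ^ (r + a - 1) := by positivity
  rw [Real.dist_eq, sub_zero, abs_of_nonneg (by positivity), div_lt_iff₀ hpos]
  refine lt_of_le_of_lt (hbound n) ?_
  have h1 : 4 * ((m0 : ℝ) + 1) ^ r < ε * n := by
    have h2 : 4 * ((m0 : ℝ) + 1) ^ r / ε < n := hN1.trans (by exact_mod_cast hn1)
    rw [div_lt_iff₀ hε] at h2
    linarith
  have h2 : (n : ℝ) ≤ (n : ℝ) ^ (r - 1) := by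
    have : (1 : ℝ) ≤ n := by exact_mod_cast (show 1 ≤ n by omega)
    exact le_self_pow₀ this (by omega)
  have h3 : ((m0 : ℝ) + 1) ^ r < ε / 4 * (n : ℝ) ^ (r - 1) := by nlinarith
  have h4 : (n : ℝ) ^ (r + a - 1) = (n : ℝ) ^ a * (n : ℝ) ^ (r - 1) := by
    rw [← pow_add]; congr 1; omega
  rw [h4]
  have h5 : (0 : ℝ) < (n : ℝ) ^ a := by positivity
  have h6 : (0 : ℝ) < (n : ℝ) ^ (r - 1) := by positivity
  have h7 : ε / 2 * (n : ℝ) ^ (r - 1) + ((m0 : ℝ) + 1) ^ r < ε * (n : ℝ) ^ (r - 1) := by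
    nlinarith
  calc (n : ℝ) ^ a * (ε / 2 * (n : ℝ) ^ (r - 1) + ((m0 : ℝ) + 1) ^ r)
      < (n : ℝ) ^ a * (ε * (n : ℝ) ^ (r - 1)) := mul_lt_mul_of_pos_left h7 h5
    _ = ε * ((n : ℝ) ^ a * (n : ℝ) ^ (r - 1)) := by ring

end

end EX
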