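import Mathlib

/-!
# MP_5176ab_co, module CG: regular graphs without short cycles
-/

set_option autoImplicit false

namespace EX

open Finset SimpleGraph

open scoped Classical

noncomputable section

/-- reduced words of length at most `R` over an alphabet with `k` letters -/
abbrev CGT (k R : ℕ) : Type := {l : List (Fin k) // l.length ≤ R ∧ l.IsChain (· ≠ ·)}

instance CGT_finite (k R : ℕ) : Finite (CGT k R) := by
  have h : {l : List (Fin k) | l.length ≤ R}.Finite := List.finite_length_le _ _
  have h2 : {l : List (Fin k) | l.length ≤ R ∧ l.IsChain (· ≠ ·)}.Finite :=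
    h.subset fun l hl => hl.1
  exact h2.to_subtype

instance CGT_fintype (k R : ℕ) : Fintype (CGT k R) := Fintype.ofFinite _

/-- the letter `i` acts on reduced words -/
def CGf {k R : ℕ} (i : Fin k) (l : CGT k R) : CGT k R :=
  if h : l.1.head? = some i then ⟨l.1.tail, by
      refine ⟨?_, l.2.2.tail⟩
      rw [List.length_tail]
      have := l.2.1
      omega⟩
  else if h2 : l.1.length < R then ⟨i :: l.1, by
      refine ⟨by rw [List.length_cons]; omega, ?_⟩
      rw [List.isChain_cons]
      refine ⟨?_, l.2.2⟩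
      intro y hy heq
      exact h (by rw [heq]; exact hy)⟩
  else l

theorem CGf_invol {k R : ℕ} (i : Fin k) (l : CGT k R) : CGf i (CGf i l) = l := by
  obtain ⟨l, hl1, hl2⟩ := l
  rcases l with _ | ⟨a, t⟩
  · unfold CGf
    simp only [List.head?_nil, reduceCtorEq, ↓reduceDIte, List.length_nil]
    by_cases hR : 0 < R
    · simp [hR]
    · simp [hR]
  · by_cases ha : a = i
    · subst ha
      have h1 : CGf a (⟨a :: t, hl1, hl2⟩ : CGT k R) = ⟨t, by
          rw [List.length_cons] at hl1; exact ⟨by omega, hl2.tail⟩⟩ := by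
        unfold CGf
        simp
      rw [h1]
      unfold CGf
      have h2 : ¬ t.head? = some a := by
        intro h
        rw [List.isChain_cons] at hl2
        exact hl2.1 a h rfl
      have h3 : t.length < R := by rw [List.length_cons] at hl1; omega
      simp [h2, h3]
    · have h0 : ¬ (a :: t).head? = some i := by simpa using ha
      by_cases h2 : (a :: t).length < R
      · have h1 : CGf i (⟨a :: t, hl1, hl2⟩ : CGT k R) = ⟨i :: a :: t, by
            refine ⟨by rw [List.length_cons]; omega, ?_⟩
            rw [List.isChain_cons]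
            refine ⟨?_, hl2⟩
            intro y hy heq
            exact h0 (by rw [heq]; exact hy)⟩ := by
          unfold CGf
          rw [dif_neg h0, dif_pos h2]
        rw [h1]
        unfold CGf
        simp
      · have h1 : CGf i (⟨a :: t, hl1, hl2⟩ : CGT k R) = ⟨a :: t, hl1, hl2⟩ := by
          unfold CGf
          rw [dif_neg h0, dif_neg h2]
        rw [h1, h1]

/-- the permutation given by the letter `i` -/
def CGp {k R : ℕ} (i : Fin k) : Equiv.Perm (CGT k R) :=
  ⟨CGf i, CGf i, CGf_invol i, CGf_invol i⟩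

theorem CGp_sq {k R : ℕ} (i : Fin k) : (CGp i : Equiv.Perm (CGT k R)) * CGp i = 1 := by
  ext1 x
  exact CGf_invol i x

/-- a reduced word moves the empty word to itself -/
theorem CGp_prod {k R : ℕ} (l : List (Fin k)) (hl : l.length ≤ R) (hc : l.IsChain (· ≠ ·)) :
    (l.map (CGp (R := R))).prod ⟨[], by simp⟩ = ⟨l, hl, hc⟩ := by
  induction l with
  | nil => simp
  | cons a t ih =>
    rw [List.map_cons, List.prod_cons, Equiv.Perm.mul_apply,
      ih (by rw [List.length_cons] at hl; omega) hc.tail]
    show CGf a _ = _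
    unfold CGf
    have h2 : ¬ t.head? = some a := by
      intro h
      rw [List.isChain_cons] at hc
      exact hc.1 a h rfl
    have h3 : t.length < R := by rw [List.length_cons] at hl; omega
    simp [h2, h3]

theorem CGp_ne {k R : ℕ} (l : List (Fin k)) (hl : l.length ≤ R) (hc : l.IsChain (· ≠ ·))
    (hne : l ≠ []) : (l.map (CGp (R := R))).prod ≠ 1 := by
  intro h
  have h1 := CGp_prod l hl hc
  rw [h] at h1
  exact hne (congrArg Subtype.val h1).symm

theorem CGp_inj (k R : ℕ) : Function.Injective (CGp : Fin k → Equiv.Perm (CGT k (R + 2))) := by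
  intro a b h
  by_contra hne
  refine CGp_ne (R := R + 2) [a, b] (by simp) ?_ (by simp) ?_
  · simp [hne]
  · rw [List.map_cons, List.map_cons, List.map_nil, List.prod_cons, List.prod_cons, List.prod_nil,
      mul_one, ← h]
    exact CGp_sq a

/-- the vertices of `s` copies of a Cayley graph, and `m` further vertices -/
abbrev CGV (s m k R : ℕ) : Type := (Fin s × Equiv.Perm (CGT k (R + 2))) ⊕ Fin m

/-- `s` copies of a Cayley graph, `k`-regular and without cycles of length at most `R`, and `m`
isolated vertices -/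
def CGM (s m k R : ℕ) : SimpleGraph (CGV s m k R) where
  Adj y z := ∃ (y0 : Fin s × Equiv.Perm (CGT k (R + 2))) (a : Fin k), y = Sum.inl y0 ∧
    z = Sum.inl (y0.1, y0.2 * CGp a)
  symm := ⟨by
    rintro y z ⟨y0, a, h1, h2⟩
    refine ⟨(y0.1, y0.2 * CGp a), a, h2, ?_⟩
    rw [h1, mul_assoc, CGp_sq, mul_one]⟩
  loopless := ⟨by
    rintro y ⟨y0, a, h, h'⟩
    have h1 : (CGp a : Equiv.Perm (CGT k (R + 2))) = 1 := by
      have h2 : y0.2 * 1 = y0.2 * CGp a := by
        rw [mul_one]
        rw [h] at h'
        exact congrArg Prod.snd (Sum.inl_injective h')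
      exact (mul_left_cancel h2).symm
    refine CGp_ne (R := R + 2) [a] (by simp) (by simp) (by simp) ?_
    simpa using h1⟩

theorem CGM_adj (s m k R : ℕ) (y z : CGV s m k R) :
    (CGM s m k R).Adj y z ↔ ∃ (y0 : Fin s × Equiv.Perm (CGT k (R + 2))) (a : Fin k),
      y = Sum.inl y0 ∧ z = Sum.inl (y0.1, y0.2 * CGp a) := Iff.rfl

theorem CGM_nbr_inl (s m k R : ℕ) (y : Fin s × Equiv.Perm (CGT k (R + 2))) :
    (univ.filter ((CGM s m k R).Adj (Sum.inl y))).card = k := by
  have h1 : univ.filter ((CGM s m k R).Adj (Sum.inl y)) =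
      (univ : Finset (Fin k)).image fun a => Sum.inl (y.1, y.2 * CGp a) := by
    ext z
    rw [mem_filter, mem_image, CGM_adj]
    constructor
    · rintro ⟨-, y0, a, h1, h2⟩
      have := Sum.inl_injective h1
      subst this
      exact ⟨a, mem_univ _, h2.symm⟩
    · rintro ⟨a, -, rfl⟩
      exact ⟨mem_univ _, y, a, rfl, rfl⟩
  rw [h1, card_image_of_injective, card_univ, Fintype.card_fin]
  intro a b h
  exact CGp_inj k R (mul_left_cancel (Prod.mk.inj (Sum.inl_injective h)).2)

theorem CGM_nbr_inr (s m k R : ℕ) (y : Fin m) :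
    univ.filter ((CGM s m k R).Adj (Sum.inr y)) = ∅ := by
  rw [Finset.eq_empty_iff_forall_notMem]
  intro z hz
  obtain ⟨y0, a, h1, -⟩ := (mem_filter.1 hz).2
  exact absurd h1 (by simp)

theorem CGM_nbr (s m k R : ℕ) (y : CGV s m k R) :
    (univ.filter ((CGM s m k R).Adj y)).card ≤ k := by
  rcases y with y | y
  · exact (CGM_nbr_inl s m k R y).le
  · rw [CGM_nbr_inr, card_empty]; omega

theorem CGM_edges (s m k R : ℕ) : 2 * (CGM s m k R).edgeFinset.card =
    k * Fintype.card (Fin s × Equiv.Perm (CGT k (R + 2))) := by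
  rw [← sum_degrees_eq_twice_card_edges]
  have h0 : ∀ y, (CGM s m k R).degree y = (univ.filter ((CGM s m k R).Adj y)).card := by
    intro y
    rw [← card_neighborFinset_eq_degree]
    congr 1
    ext z
    rw [mem_neighborFinset, mem_filter]
    simp
  have h1 : ∀ y, (CGM s m k R).degree (Sum.inl y) = k := by
    intro y
    rw [h0, CGM_nbr_inl]
  have h2 : ∀ y, (CGM s m k R).degree (Sum.inr y) = 0 := by
    intro y
    rw [h0, CGM_nbr_inr, card_empty]
  rw [Fintype.sum_sum_type, Finset.sum_congr rfl fun y _ => h1 y,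
    Finset.sum_congr rfl fun y _ => h2 y, sum_const, sum_const, card_univ, smul_eq_mul,
    smul_zero, mul_comm, add_zero]

theorem CGM_word (s m k R : ℕ) {y z : CGV s m k R}
    (w : (CGM s m k R).Walk y z) (hw : w.IsTrail) :
    ∀ y0, y = Sum.inl y0 → ∃ l : List (Fin k), l.length = w.length ∧ l.IsChain (· ≠ ·) ∧
      z = Sum.inl (y0.1, y0.2 * (l.map (CGp (R := R + 2))).prod) ∧
      ∀ a, l.head? = some a → s(Sum.inl y0, Sum.inl (y0.1, y0.2 * CGp a)) ∈ w.edges := by
  induction w with
  | nil => exact fun y0 hy => ⟨[], by simp, by simp, by simp [hy], by simp⟩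
  | @cons y y' z h p ih =>
    intro y0 hy
    rw [Walk.isTrail_cons] at hw
    have h' : ∃ (y0 : Fin s × Equiv.Perm (CGT k (R + 2))) (a : Fin k), y = Sum.inl y0 ∧
      y' = Sum.inl (y0.1, y0.2 * CGp a) := h
    obtain ⟨y1, a, h5, h6⟩ := h'
    have h7 : y0 = y1 := Sum.inl_injective (hy.symm.trans h5)
    subst h7
    obtain ⟨l, h1, h2, h3, h4⟩ := ih hw.1 _ h6
    refine ⟨a :: l, by simp [h1], ?_, ?_, ?_⟩
    · rw [List.isChain_cons]
      refine ⟨?_, h2⟩
      intro b hb heq
      subst heq
      have h7 := h4 a hb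
      apply hw.2
      have h8 : (Sum.inl (y0.1, y0.2 * CGp a * CGp a) : CGV s m k R) = y := by
        rw [hy, mul_assoc, CGp_sq, mul_one]
      simp only at h7
      rw [h8, Sym2.eq_swap, ← h6] at h7
      exact h7
    · rw [h3, List.map_cons, List.prod_cons, ← mul_assoc]
    · intro b hb
      rw [List.head?_cons, Option.some.injEq] at hb
      subst hb
      rw [Walk.edges_cons, ← h6, ← hy]
      exact List.mem_cons_self

theorem CGM_girth (s m k R : ℕ) {y : CGV s m k R}
    (w : (CGM s m k R).Walk y y) (hw : w.IsCycle) : R < w.length := by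
  by_contra hcon
  push Not at hcon
  have h0 : ∃ y0, y = Sum.inl y0 := by
    cases w with
    | nil => exact absurd hw (by simp)
    | cons h p =>
      obtain ⟨y0, a, h1, h2⟩ := h
      exact ⟨y0, h1⟩
  obtain ⟨y0, hy0⟩ := h0
  obtain ⟨l, h1, h2, h3, -⟩ := CGM_word s m k R w hw.isCircuit.isTrail y0 hy0
  refine CGp_ne (R := R + 2) l (by omega) h2 ?_ ?_
  · rintro rfl
    have : w.length = 0 := by simpa using h1.symm
    have h4 := hw.three_le_length
    omega
  · have h5 : y0.2 * 1 = y0.2 * (l.map (CGp (R := R + 2))).prod := by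
      rw [mul_one]
      rw [hy0] at h3
      exact congrArg Prod.snd (Sum.inl_injective h3)
    exact (mul_left_cancel h5).symm

end

end EX
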