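import Mathlib

/-!
# MP_5176ab_co: definitions

`r`-graphs on a type `V` are finite families `Finset (Finset V)`.
-/

set_option autoImplicit false

namespace EX

open Finset SimpleGraph

open scoped Classical

noncomputable section

/-! ## Definitions used in the final statements -/

/-- the vertices of the `r`-uniform expansion of `G`: the vertices of `G` and, for every edge of
`G`, `r - 2` new vertices -/
abbrev XV {U : Type} (r : ℕ) (G : SimpleGraph U) : Type := U ⊕ (G.edgeSet × Fin (r - 2))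

/-- the edge `e ∪ S_e` of the expansion -/
def xEdge {U : Type} [Fintype U] (r : ℕ) (G : SimpleGraph U) (e : G.edgeSet) :
    Finset (XV r G) :=
  univ.filter fun x => Sum.elim (fun u => u ∈ (e : Sym2 U)) (fun q => q.1 = e) x

/-- the `r`-uniform expansion `G⁺` of the graph `G` -/
def expansion {U : Type} [Fintype U] (r : ℕ) (G : SimpleGraph U) : Finset (Finset (XV r G)) :=
  univ.image (xEdge r G)

/-- `H` contains a copy of `F` -/
def Contains {V W : Type} (H : Finset (Finset V)) (F : Finset (Finset W)) : Prop :=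
  ∃ f : W ↪ V, ∀ E ∈ F, E.map f ∈ H

/-- the Turán number `ex_r(n, F)` -/
def exr {W : Type} (r n : ℕ) (F : Finset (Finset W)) : ℕ :=
  sSup {m | ∃ H : Finset (Finset (Fin n)), (∀ E ∈ H, E.card = r) ∧ ¬ Contains H F ∧ H.card = m}

/-- `X` is a crosscut of `F`: every edge of `F` contains exactly one vertex of `X` -/
def IsCrosscut {W : Type} (F : Finset (Finset W)) (X : Finset W) : Prop :=
  ∀ E ∈ F, (E ∩ X).card = 1

/-- the crosscut number `σ(F)` -/
def crosscutNumber {W : Type} (F : Finset (Finset W)) : ℕ :=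
  sInf {m | ∃ X : Finset W, IsCrosscut F X ∧ X.card = m}

/-- the generalized Turán number `ex(n, K_r, G)`: the maximum number of `r`-cliques in a graph on
`n` vertices without a copy of `G` -/
def exK {U : Type} (n r : ℕ) (G : SimpleGraph U) : ℕ :=
  sSup {m | ∃ K : SimpleGraph (Fin n), G.Free K ∧ (K.cliqueFinset r).card = m}

/-- `|I| + e(G - I)` -/
def cost {U : Type} [Fintype U] (G : SimpleGraph U) (I : Finset U) : ℕ :=
  I.card + (G.edgeFinset.filter fun e => ∀ u ∈ I, u ∉ e).card

/-- the treewidth of `G` is at most `w`: `G` is contained in a graph `K` on the same vertex set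
that has a perfect elimination ordering (every vertex has at most `w` earlier neighbours in `K`,
and these are pairwise adjacent in `K`) -/
def TreewidthLE {U : Type} [Fintype U] (G : SimpleGraph U) (w : ℕ) : Prop :=
  ∃ (K : SimpleGraph U) (o : U → ℕ), Function.Injective o ∧ G ≤ K ∧
    (∀ v u u', K.Adj u v → K.Adj u' v → o u < o v → o u' < o v → u ≠ u' → K.Adj u u') ∧
    ∀ v, (univ.filter fun u => K.Adj u v ∧ o u < o v).card ≤ w

/-! ## Definitions used in the proof -/

/-- `{u, v}` is the kernel of a sunflower with `s` petals in `H` -/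
def Rich {V : Type} (s : ℕ) (H : Finset (Finset V)) (u v : V) : Prop :=
  ∃ T ⊆ H, s ≤ T.card ∧ (∀ E ∈ T, u ∈ E ∧ v ∈ E) ∧
    ∀ E ∈ T, ∀ E' ∈ T, E ≠ E' → E ∩ E' = {u, v}

/-- the number of petals that is needed -/
def sN {U : Type} [Fintype U] (k : ℕ) (G : SimpleGraph U) : ℕ :=
  Fintype.card U + (k + 1) * G.edgeFinset.card + 2 * (k + 1) + 1

/-- `x` lies in the box with sides `Y` -/
def Box {k : ℕ} {V : Type} (Y : Fin k → Finset V) (x : Fin k → V) : Prop := ∀ l, x l ∈ Y l

/-- the data on a box: `ι` is a set of families of edges; for a point `x` of the box,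
`insert (c j x) (range x)` is the edge of the family `j` that contains `range x` -/
structure BoxData {k : ℕ} {V ι : Type} (s : ℕ) (H : Finset (Finset V)) (Y : Fin k → Finset V)
    (W : Set V) (c : ι → (Fin k → V) → V) (Λ : ι → Finset (Fin k)) : Prop where
  disj : ∀ l l', l ≠ l' → Disjoint (Y l) (Y l')
  out : ∀ l, ∀ y ∈ Y l, y ∉ W
  inW : ∀ j x, Box Y x → c j x ∈ W
  mem : ∀ j x, Box Y x → insert (c j x) (univ.image x) ∈ H
  dist : ∀ i j x, Box Y x → i ≠ j → c i x ≠ c j x
  dep : ∀ j l l', l ≠ l' → (∀ y ∈ Y l, ∀ y' ∈ Y l', Rich s H y y') ∨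
    ∀ x x', Box Y x → Box Y x' → x l = x' l → x l' = x' l' → c j x = c j x'
  rich : ∀ j, Λ j = ∅ → ∀ x, Box Y x → ∀ l, Rich s H (c j x) (x l)
  inj : ∀ j, ∀ l ∈ Λ j, ∀ x x', Box Y x → Box Y x' → (∀ l', l' ≠ l → x l' = x' l') →
    c j x = c j x' → x l = x' l

/-- the four canonical behaviours of a function of two variables on `Z × Z'` -/
def Canon {V C : Type} (f : V → V → C) (Z Z' : Finset V) : Prop :=
  (∃ γ, ∀ y ∈ Z, ∀ y' ∈ Z', f y y' = γ) ∨
  (∃ g : V → C, Set.InjOn g Z ∧ ∀ y ∈ Z, ∀ y' ∈ Z', f y y' = g y) ∨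
  (∃ g : V → C, Set.InjOn g Z' ∧ ∀ y ∈ Z, ∀ y' ∈ Z', f y y' = g y') ∨
  (∀ y ∈ Z, ∀ y' ∈ Z', ∀ z ∈ Z, ∀ z' ∈ Z', f y y' = f z z' → y = z ∧ y' = z')

/-! ### tuples -/

/-- the set of the positions where two tuples agree -/
def agr {r : ℕ} {V : Type} (e e' : Fin r → V) : Finset (Fin r) := univ.filter fun i => e i = e' i

/-- the restriction of `e` to `A` is the kernel of a sunflower with `s` petals in `F` -/
def Ker {r : ℕ} {V : Type} (s : ℕ) (F : Finset (Fin r → V)) (A : Finset (Fin r))
    (e : Fin r → V) : Prop :=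
  ∃ T ⊆ F, s ≤ T.card ∧ (∀ t ∈ T, ∀ i ∈ A, t i = e i) ∧
    ∀ t ∈ T, ∀ t' ∈ T, t ≠ t' → agr t t' = A

/-- homogeneous families -/
structure Hom {r : ℕ} {V : Type} (s : ℕ) (F : Finset (Fin r → V)) (J : Finset (Finset (Fin r))) :
    Prop where
  inter : ∀ e ∈ F, ∀ e' ∈ F, e ≠ e' → agr e e' ∈ J
  ker : ∀ e ∈ F, ∀ A ∈ J, Ker s F A e
  proper : univ ∉ J

/-- the positions `b` such that the set of all other positions is not in `J` -/
def own {r : ℕ} (J : Finset (Finset (Fin r))) : Finset (Fin r) :=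
  univ.filter fun b => univ.erase b ∉ J

/-- every set of `r - 2` positions is contained in a member of `J` -/
def Cov {r : ℕ} (J : Finset (Finset (Fin r))) : Prop :=
  ∀ A : Finset (Fin r), A.card + 2 = r → ∃ A' ∈ J, A ⊆ A'

end

end EX
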