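import Pool.Agent.Helper89.EX.Defs

/-!
# MP_5176ab_co: the crosscut formula and the condition on the crosscut
-/

set_option autoImplicit false

namespace EX

open Finset SimpleGraph Filter Topology

open scoped Classical

noncomputable section

/-- some minimum crosscut of the expansion `G⁺` and some proper colouring of `G` with `r - 1`
colours are such that one of the `r - 1` colour classes contains no vertex of the crosscut -/
def AvoidsClass {U : Type} [Fintype U] (r : ℕ) (G : SimpleGraph U) : Prop :=
  ∃ X : Finset (XV r G), IsCrosscut (expansion r G) X ∧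
    X.card = crosscutNumber (expansion r G) ∧
    ∃ (ψ : G.Coloring (Fin (r - 1))) (c : Fin (r - 1)), ∀ u, ψ u = c → Sum.inl u ∉ X

/-- the crosscut formula `ex_r(n, G⁺) ~ (σ(G⁺) - 1) * (n choose (r - 1))` -/
def CrosscutFormula {U : Type} [Fintype U] (r : ℕ) (G : SimpleGraph U) : Prop :=
  Tendsto (fun n : ℕ => (exr r n (expansion r G) : ℝ) /
    (((crosscutNumber (expansion r G) : ℝ) - 1) * (n.choose (r - 1) : ℝ))) atTop (𝓝 1)

end

end EX
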