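import Pool.Agent.Helper89.EX.Defs2

/-!
# MP_5176ab_co: the decompositions of `G` that embed `G⁺` into the mixed construction
-/

set_option autoImplicit false

namespace EX

open Finset SimpleGraph

open scoped Classical

noncomputable section

/-- `G` splits with parameters `(a, k)`: an independent set `I` and a set `F` of edges, at most `a`
vertices and edges in total, are removed; the other vertices are coloured with `r - 1` colours such
that two adjacent vertices (outside `I`) of the same colour have colour `c`, and no edge of `F`
joins two such vertices; the vertices of colour `c` outside `I` span a forest in `G`; and each of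
them lies on at most `k` edges that are not in `F` and do not meet `I`; if `k = 0`, then in
addition every edge that does not meet `I` is in `F` -/
def Splits {U : Type} [Fintype U] (r a k : ℕ) (G : SimpleGraph U) : Prop :=
  ∃ (I : Finset U) (F : Finset (Sym2 U)) (ψ : U → Fin (r - 1)) (c : Fin (r - 1)),
    (∀ u ∈ I, ∀ v ∈ I, ¬ G.Adj u v) ∧ F ⊆ G.edgeFinset ∧ I.card + F.card ≤ a ∧
    (∀ u v, G.Adj u v → u ∉ I → v ∉ I → ψ u = ψ v → ψ u = c ∧ s(u, v) ∉ F) ∧
    (G.induce {u | u ∉ I ∧ ψ u = c}).IsAcyclic ∧
    (∀ u, u ∉ I → ψ u = c → (univ.filter fun v => G.Adj u v ∧ v ∉ I ∧ s(u, v) ∉ F).card ≤ k) ∧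
    (k = 0 → ∀ u v, G.Adj u v → u ∉ I → v ∉ I → s(u, v) ∈ F)

end

end EX
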