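import Mathlib

/-!
# MP_5176ab_co: graphs with pendant stars
-/

set_option autoImplicit false

namespace EX

open SimpleGraph

/-- for every vertex `v` of `F` add a new vertex `c_v` adjacent to `v` and `D` further new vertices
adjacent only to `c_v`; here `inl v` is the vertex `v`, `inr (inl v)` is `c_v`, and
`inr (inr (v, i))` are the other new vertices -/
def starred {W : Type} (F : SimpleGraph W) (D : ℕ) : SimpleGraph (W ⊕ (W ⊕ (W × Fin D))) :=
  SimpleGraph.fromRel fun x y =>
    (∃ v w, F.Adj v w ∧ x = Sum.inl v ∧ y = Sum.inl w) ∨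
    (∃ v, x = Sum.inl v ∧ y = Sum.inr (Sum.inl v)) ∨
    (∃ v i, x = Sum.inr (Sum.inl v) ∧ y = Sum.inr (Sum.inr (v, i)))

end EX
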