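import Pool.Agent.Helper8.EX.EM
import Pool.Agent.Helper41.EX.EB
import Pool.Agent.Helper66.EX.CRBR

/-!
# MP_5176ab_co: the expansion is found in a box (module FB)
-/

set_option autoImplicit false

namespace EX

open Finset SimpleGraph Filter Topology

open scoped Classical

noncomputable section

namespace FB

theorem Rich.symm {V : Type} {s : ℕ} {H : Finset (Finset V)} {u v : V} (h : Rich s H u v) :
    Rich s H v u := by
  obtain ⟨T, h1, h2, h3, h4⟩ := h
  refine ⟨T, h1, h2, fun E hE => ⟨(h3 E hE).2, (h3 E hE).1⟩, fun E hE E' hE' hne => ?_⟩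
  rw [h4 E hE E' hE' hne, Finset.pair_comm]

/-- greedy choice of an independent set -/
theorem indep {V : Type} (R : V → V → Prop) (hR : ∀ y y', R y y' → R y' y) (d : ℕ) :
    ∀ (w : ℕ) (Z : Finset V), (∀ y ∈ Z, ∃ D : Finset V, D.card ≤ d ∧
        ∀ y' ∈ Z, y' ≠ y → R y y' → y' ∈ D) →
      w * (d + 1) ≤ Z.card →
      ∃ Z' ⊆ Z, Z'.card = w ∧ ∀ y ∈ Z', ∀ y' ∈ Z', y ≠ y' → ¬ R y y' := by
  intro w
  induction w with
  | zero =>
    intro Z _ _
    exact ⟨∅, empty_subset _, rfl, by simp⟩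
  | succ w ih =>
    intro Z h hZ
    have hne : Z.Nonempty := by
      rw [← card_pos]
      have : 0 < (w + 1) * (d + 1) := by positivity
      omega
    obtain ⟨y0, hy0⟩ := hne
    obtain ⟨D, hD1, hD2⟩ := h y0 hy0
    set Z1 : Finset V := Z \ insert y0 D with hZ1
    have h1 : Z.card ≤ Z1.card + (d + 1) := by
      have h2 := card_insert_le y0 D
      have h3 := card_le_card_sdiff_add_card (s := Z) (t := insert y0 D)
      rw [← hZ1] at h3
      omega
    have h5 : w * (d + 1) ≤ Z1.card := by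
      have : (w + 1) * (d + 1) = w * (d + 1) + (d + 1) := by ring
      omega
    obtain ⟨Z2, hZ2, hc, hi⟩ := ih Z1 (by
      intro y hy
      obtain ⟨D', h6, h7⟩ := h y (mem_sdiff.1 hy).1
      exact ⟨D', h6, fun y' hy' => h7 y' (mem_sdiff.1 hy').1⟩) h5
    have hZ2' : ∀ y ∈ Z2, y ∈ Z ∧ y ≠ y0 ∧ ¬ R y0 y := by
      intro y hy
      have h6 := mem_sdiff.1 (hZ2 hy)
      rw [mem_insert, not_or] at h6
      exact ⟨h6.1, h6.2.1, fun h7 => h6.2.2 (hD2 y h6.1 h6.2.1 h7)⟩
    have hy0' : y0 ∉ Z2 := fun h6 => (hZ2' y0 h6).2.1 rfl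
    refine ⟨insert y0 Z2, ?_, ?_, ?_⟩
    · intro y hy
      rcases mem_insert.1 hy with rfl | hy
      · exact hy0
      · exact (hZ2' y hy).1
    · rw [card_insert_of_notMem hy0', hc]
    · intro y hy y' hy' hne
      rcases mem_insert.1 hy with rfl | hy1
      · rcases mem_insert.1 hy' with rfl | hy2
        · exact absurd rfl hne
        · exact (hZ2' y' hy2).2.2
      · rcases mem_insert.1 hy' with rfl | hy2
        · intro h7
          exact (hZ2' y hy1).2.2 (hR _ _ h7)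
        · exact hi y hy1 y' hy2 hne

/-- a point of the box with a prescribed coordinate -/
theorem box_point {k : ℕ} {V : Type} (Z : Fin k → Finset V) (hZ : ∀ l, (Z l).Nonempty)
    (p : Fin k) {y : V} (hy : y ∈ Z p) : ∃ x, Box Z x ∧ x p = y := by
  choose z hz using hZ
  refine ⟨Function.update z p y, fun l => ?_, by simp⟩
  by_cases h : l = p
  · subst h; simpa using hy
  · simpa [Function.update_of_ne h] using hz l

theorem box_update {k : ℕ} {V : Type} {Z : Fin k → Finset V} {x : Fin k → V} (hx : Box Z x)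
    (p : Fin k) {y : V} (hy : y ∈ Z p) : Box Z (Function.update x p y) := by
  intro l
  by_cases h : l = p
  · subst h; simpa using hy
  · simpa [Function.update_of_ne h] using hx l

theorem box_point2 {k : ℕ} {V : Type} (Z : Fin k → Finset V) (hZ : ∀ l, (Z l).Nonempty)
    (p q : Fin k) (hpq : p ≠ q) {y y' : V} (hy : y ∈ Z p) (hy' : y' ∈ Z q) :
    ∃ x, Box Z x ∧ x p = y ∧ x q = y' := by
  obtain ⟨x, hx, h1⟩ := box_point Z hZ p hy
  refine ⟨Function.update x q y', box_update hx q hy', ?_, by simp⟩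
  rw [Function.update_of_ne hpq, h1]

/-- if all pairs of elements of different parts are rich then the expansion is contained -/
theorem emb_rich {U V : Type} [Fintype U] (k : ℕ) (hk : 1 ≤ k) (H : Finset (Finset V))
    (hH : ∀ E ∈ H, E.card = k + 1) (G : SimpleGraph U) (Y : Fin k → Finset V)
    (hd : ∀ l l', l ≠ l' → Disjoint (Y l) (Y l')) (hY : ∀ l, Fintype.card U ≤ (Y l).card)
    (ψ : U → Fin k) (hψ : ∀ u v, G.Adj u v → ψ u ≠ ψ v)
    (hr : ∀ l l', l ≠ l' → ∀ y ∈ Y l, ∀ y' ∈ Y l', Rich (sN k G) H y y') :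
    Contains H (expansion (k + 1) G) := by
  have h1 : ∀ l, ∃ z : U → V, Function.Injective z ∧ ∀ u, z u ∈ Y l := by
    intro l
    have h2 : Fintype.card U ≤ Fintype.card (Y l) := by simpa using hY l
    obtain ⟨f⟩ := Function.Embedding.nonempty_of_card_le h2
    exact ⟨fun u => (f u : V), fun a b hab => f.injective (Subtype.ext hab), fun u => (f u).2⟩
  choose z hz1 hz2 using h1
  refine embed k hk H hH G (fun u => z (ψ u) u) ?_ ∅ (by simp) (fun _ => ∅) (by simp) (by simp)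
    (by simp) ?_
  · intro u v huv
    by_cases h : ψ u = ψ v
    · simp only [h] at huv
      exact hz1 _ huv
    · exfalso
      have h3 := hz2 (ψ u) u
      simp only at huv
      rw [huv] at h3
      exact Finset.disjoint_left.1 (hd _ _ h) h3 (hz2 _ _)
  · intro u v huv _
    exact hr _ _ (hψ u v huv) _ (hz2 _ _) _ (hz2 _ _)

theorem exists_inj {α β : Type} (A : Finset α) (B : Finset β) (h : A.card ≤ B.card)
    (hne : Nonempty β) : ∃ f : α → β, (∀ a ∈ A, f a ∈ B) ∧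
      ∀ a ∈ A, ∀ a' ∈ A, f a = f a' → a = a' := by
  obtain ⟨b0⟩ := hne
  have h2 : Fintype.card A ≤ Fintype.card B := by simpa using h
  obtain ⟨f⟩ := Function.Embedding.nonempty_of_card_le h2
  refine ⟨fun a => if ha : a ∈ A then (f ⟨a, ha⟩ : β) else b0, ?_, ?_⟩
  · intro a ha
    simp [ha]
  · intro a ha a' ha' h3
    simp only [ha, ha', dite_true] at h3
    have := f.injective (Subtype.ext h3)
    simpa using this

theorem BoxData.mono {k s : ℕ} {V ι : Type} {H : Finset (Finset V)} {Y Z : Fin k → Finset V}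
    {W : Set V} {c : ι → (Fin k → V) → V} {Λ : ι → Finset (Fin k)} (h : BoxData s H Y W c Λ)
    (hZ : ∀ l, Z l ⊆ Y l) : BoxData s H Z W c Λ := by
  have hb : ∀ x, Box Z x → Box Y x := fun x hx l => hZ l (hx l)
  refine ⟨fun l l' hl => ?_, fun l y hy => h.out l y (hZ l hy), fun j x hx => h.inW j x (hb x hx),
    fun j x hx => h.mem j x (hb x hx), fun i j x hx => h.dist i j x (hb x hx), ?_,
    fun j hj x hx => h.rich j hj x (hb x hx), ?_⟩
  · exact Finset.disjoint_of_subset_left (hZ l) (Finset.disjoint_of_subset_right (hZ l')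
      (h.disj l l' hl))
  · intro j l l' hl
    rcases h.dep j l l' hl with h1 | h1
    · exact Or.inl fun y hy y' hy' => h1 y (hZ l hy) y' (hZ l' hy')
    · exact Or.inr fun x x' hx hx' => h1 x x' (hb x hx) (hb x' hx')
  · intro j l hl x x' hx hx'
    exact h.inj j l hl x x' (hb x hx) (hb x' hx')

/-- the final embedding -/
theorem final_embed {U V ι : Type} [Fintype U] (k : ℕ) (hk : 2 ≤ k) (G : SimpleGraph U)
    (I : Finset U) (hI : ∀ u ∈ I, ∀ v ∈ I, ¬ G.Adj u v) (ψ : U → Fin k)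
    (hψ : ∀ u v, G.Adj u v → ψ u ≠ ψ v) (p : Fin k) (hp : ∀ u ∈ I, ψ u ≠ p)
    (H : Finset (Finset V)) (hH : ∀ E ∈ H, E.card = k + 1)
    (Z : Fin k → Finset V) (W : Set V) (c : ι → (Fin k → V) → V) (Λ : ι → Finset (Fin k))
    (hD : BoxData (sN k G) H Z W c Λ) (Kc Kp : Finset ι) (hdisj : Disjoint Kc Kp)
    (val : ι → V → V) (hval : ∀ j ∈ Kc ∪ Kp, ∀ x, Box Z x → c j x = val j (x p))
    (hKc : ∀ j ∈ Kc, ∀ y ∈ Z p, ∀ y' ∈ Z p, val j y = val j y') (hΛ : ∀ j ∈ Kc, Λ j = ∅)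
    (hKp : ∀ j ∈ Kp, ∀ y ∈ Z p, ∀ y' ∈ Z p, val j y = val j y' → y = y')
    (hrich : Kp.Nonempty → ∀ l l', l ≠ l' → l ≠ p → l' ≠ p → ∀ y ∈ Z l, ∀ y' ∈ Z l',
      Rich (sN k G) H y y')
    (hcard : cost G I ≤ Kc.card + Kp.card) (hcost : 1 ≤ cost G I)
    (hZ : ∀ l, (Fintype.card U + G.edgeFinset.card + 1) * (Kp.card * Kp.card + 1) ≤ (Z l).card) :
    Contains H (expansion (k + 1) G) := by
  have hZne : ∀ l, (Z l).Nonempty := by
    intro l
    rw [← card_pos]
    exact lt_of_lt_of_le (by positivity) (hZ l)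
  have hιne : Nonempty ι := by
    have : 0 < (Kc.card + Kp.card) := by omega
    rcases Nat.pos_of_ne_zero (by omega : Kc.card + Kp.card ≠ 0) with _
    by_contra hcon
    rw [not_nonempty_iff] at hcon
    have h1 : Kc = ∅ := Finset.eq_empty_of_isEmpty _
    have h2 : Kp = ∅ := Finset.eq_empty_of_isEmpty _
    rw [h1, h2] at this
    simp at this
  -- the conflict free part
  obtain ⟨Z1, hZ1, hZ1c, hZ1i⟩ := indep (fun y y' => ∃ j ∈ Kp, ∃ j' ∈ Kp, val j y = val j' y')
    (by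
      rintro y y' ⟨j, hj, j', hj', h⟩
      exact ⟨j', hj', j, hj, h.symm⟩) (Kp.card * Kp.card)
    (Fintype.card U + G.edgeFinset.card + 1) (Z p) (by
      intro y hy
      refine ⟨(Kp ×ˢ Kp).biUnion fun q =>
        (Z p).filter fun y' => val q.1 y = val q.2 y', card_biUnion_le.trans ?_, ?_⟩
      swap
      · rintro y' hy' _ ⟨j, hj, j', hj', h2⟩
        exact mem_biUnion.2 ⟨(j, j'), mem_product.2 ⟨hj, hj'⟩, mem_filter.2 ⟨hy', h2⟩⟩
      calc ∑ q ∈ Kp ×ˢ Kp, ((Z p).filter fun y' => val q.1 y = val q.2 y').card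
          ≤ ∑ q ∈ Kp ×ˢ Kp, 1 := by
            refine Finset.sum_le_sum fun q hq => ?_
            rw [card_le_one]
            intro a ha b hb
            obtain ⟨ha1, ha2⟩ := mem_filter.1 ha
            obtain ⟨hb1, hb2⟩ := mem_filter.1 hb
            exact hKp q.2 (mem_product.1 hq).2 a ha1 b hb1 (ha2.symm.trans hb2)
        _ = Kp.card * Kp.card := by simp [card_product]) (hZ p)
  set Z' : Fin k → Finset V := Function.update Z p Z1 with hZ'
  have hZ'p : Z' p = Z1 := by simp [hZ']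
  have hZ'l : ∀ l, l ≠ p → Z' l = Z l := fun l hl => by simp [hZ', hl]
  have hsub : ∀ l, Z' l ⊆ Z l := by
    intro l
    by_cases h : l = p
    · subst h; rw [hZ'p]; exact hZ1
    · rw [hZ'l l h]
  have hcardZ' : ∀ l, Fintype.card U + G.edgeFinset.card + 1 ≤ (Z' l).card := by
    intro l
    by_cases h : l = p
    · subst h; rw [hZ'p, hZ1c]
    · rw [hZ'l l h]
      refine le_trans ?_ (hZ l)
      nlinarith [Nat.zero_le ((Fintype.card U + G.edgeFinset.card + 1) * (Kp.card * Kp.card))]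
  have hZ'ne : ∀ l, (Z' l).Nonempty := fun l => by
    rw [← card_pos]
    have := hcardZ' l
    omega
  have hD' := BoxData.mono hD hsub
  have hboxZ : ∀ x, Box Z' x → Box Z x := fun x hx l => hsub l (hx l)
  obtain ⟨y0, hy0⟩ := hZ'ne p
  -- value facts
  have hval' : ∀ j ∈ Kc ∪ Kp, ∀ x, Box Z' x → c j x = val j (x p) :=
    fun j hj x hx => hval j hj x (hboxZ x hx)
  have hvalW : ∀ j ∈ Kc ∪ Kp, ∀ y ∈ Z' p, val j y ∈ W := by
    intro j hj y hy
    obtain ⟨x, hx, hxp⟩ := box_point Z' hZ'ne p hy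
    rw [← hxp, ← hval' j hj x hx]
    exact hD'.inW j x hx
  have hvald : ∀ i ∈ Kc ∪ Kp, ∀ j ∈ Kc ∪ Kp, i ≠ j → ∀ y ∈ Z' p, val i y ≠ val j y := by
    intro i hi j hj hij y hy
    obtain ⟨x, hx, hxp⟩ := box_point Z' hZ'ne p hy
    rw [← hxp, ← hval' i hi x hx, ← hval' j hj x hx]
    exact hD'.dist i j x hx hij
  have hvalc : ∀ j ∈ Kc, ∀ y ∈ Z' p, ∀ y' ∈ Z' p, val j y = val j y' :=
    fun j hj y hy y' hy' => hKc j hj y (hsub p hy) y' (hsub p hy')
  -- if the values of two families coincide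
  have hvali : ∀ i ∈ Kc ∪ Kp, ∀ j ∈ Kc ∪ Kp, ∀ y ∈ Z' p, ∀ y' ∈ Z' p, val i y = val j y' →
      i = j ∧ (i ∈ Kp → y = y') := by
    intro i hi j hj y hy y' hy' h
    by_cases hic : i ∈ Kc
    · have h1 : val i y' = val j y' := by rw [← h]; exact hvalc i hic y' hy' y hy
      have h2 : i = j := by
        by_contra hne
        exact hvald i hi j hj hne y' hy' h1
      exact ⟨h2, fun h3 => absurd h3 (Finset.disjoint_left.1 hdisj hic)⟩
    · by_cases hjc : j ∈ Kc
      · have h1 : val i y = val j y := by rw [h]; exact hvalc j hjc y' hy' y hy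
        have h2 : i = j := by
          by_contra hne
          exact hvald i hi j hj hne y hy h1
        exact absurd (h2 ▸ hjc) hic
      · have hip : i ∈ Kp := by
          rcases mem_union.1 hi with h1 | h1
          · exact absurd h1 hic
          · exact h1
        have hjp : j ∈ Kp := by
          rcases mem_union.1 hj with h1 | h1
          · exact absurd h1 hjc
          · exact h1
        have hyy : y = y' := by
          by_contra hne
          rw [hZ'p] at hy hy'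
          exact hZ1i y hy y' hy' hne ⟨i, hip, j, hjp, h⟩
        subst hyy
        refine ⟨?_, fun _ => rfl⟩
        by_contra hne
        exact hvald i hi j hj hne y hy h
  -- the vertices of `I` that go to constant centres
  obtain ⟨I1, hI1, hI1c⟩ : ∃ I1 ⊆ I, I1.card = min Kc.card I.card :=
    Finset.exists_subset_card_eq (min_le_right _ _)
  obtain ⟨θ, hθ1, hθ2⟩ := exists_inj I1 Kc (by rw [hI1c]; exact min_le_left _ _) hιne
  set Kc' : Finset ι := Kc \ I1.image θ with hKc'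
  have himg : I1.image θ ⊆ Kc := by
    intro j hj
    obtain ⟨u, hu, rfl⟩ := mem_image.1 hj
    exact hθ1 u hu
  have hKc'c : Kc'.card = Kc.card - I1.card := by
    rw [hKc', card_sdiff_of_subset himg, card_image_of_injOn]
    intro a ha b hb hab
    exact hθ2 a ha b hb hab
  -- injections into the sides
  have h1 : ∀ l, ∃ z : U → V, Function.Injective z ∧ ∀ u, z u ∈ Z' l := by
    intro l
    have h2 : Fintype.card U ≤ Fintype.card (Z' l) := by
      have := hcardZ' l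
      simp only [Fintype.card_coe]
      omega
    obtain ⟨f⟩ := Function.Embedding.nonempty_of_card_le h2
    exact ⟨fun u => (f u : V), fun a b hab => f.injective (Subtype.ext hab), fun u => (f u).2⟩
  choose z hz1 hz2 using h1
  set φ : U → V := fun u => if u ∈ I1 then val (θ u) y0 else z (ψ u) u with hφdef
  have hφI : ∀ u ∈ I1, φ u = val (θ u) y0 := fun u hu => by simp [hφdef, hu]
  have hφn : ∀ u, u ∉ I1 → φ u = z (ψ u) u := fun u hu => by simp [hφdef, hu]
  have hφW : ∀ u ∈ I1, φ u ∈ W := fun u hu => by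
    rw [hφI u hu]
    exact hvalW _ (mem_union_left _ (hθ1 u hu)) _ hy0
  have hφZ : ∀ u, u ∉ I1 → φ u ∈ Z' (ψ u) := fun u hu => by
    rw [hφn u hu]; exact hz2 _ _
  have hφinj : Function.Injective φ := by
    intro u v huv
    by_cases hu : u ∈ I1
    · by_cases hv : v ∈ I1
      · rw [hφI u hu, hφI v hv] at huv
        have := (hvali _ (mem_union_left _ (hθ1 u hu)) _ (mem_union_left _ (hθ1 v hv)) _ hy0 _
          hy0 huv).1
        exact hθ2 u hu v hv this
      · exfalso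
        exact hD'.out _ _ (hφZ v hv) (huv ▸ hφW u hu)
    · by_cases hv : v ∈ I1
      · exfalso
        exact hD'.out _ _ (hφZ u hu) (huv ▸ hφW v hv)
      · by_cases h : ψ u = ψ v
        · rw [hφn u hu, hφn v hv, h] at huv
          exact hz1 _ huv
        · exfalso
          have h3 := hφZ u hu
          rw [huv] at h3
          exact Finset.disjoint_left.1 (hD'.disj _ _ h) h3 (hφZ v hv)
  -- the edges that are treated separately
  set Q : Finset (Sym2 U) := G.edgeFinset.filter fun e => (∀ u ∈ e, u ∉ I1) ∧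
    (Kp = ∅ ∨ ∃ v ∈ e, ψ v = p) with hQdef
  have hQ : ∀ e ∈ Q, e ∈ G.edgeSet ∧ (∀ u ∈ e, u ∉ I1) ∧ (Kp = ∅ ∨ ∃ v ∈ e, ψ v = p) := by
    intro e he
    obtain ⟨h1, h2, h3⟩ := mem_filter.1 he
    exact ⟨SimpleGraph.mem_edgeFinset.1 h1, h2, h3⟩
  -- the end of an edge with label `p`
  obtain ⟨vtx, hvtx⟩ : ∃ vtx : Sym2 U → U, ∀ e, (∃ v ∈ e, ψ v = p) → vtx e ∈ e ∧ ψ (vtx e) = p := by
    have : ∀ e : Sym2 U, ∃ v, (∃ v ∈ e, ψ v = p) → v ∈ e ∧ ψ v = p := by
      intro e
      by_cases h : ∃ v ∈ e, ψ v = p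
      · obtain ⟨v, hv⟩ := h
        exact ⟨v, fun _ => hv⟩
      · induction e using Sym2.ind with
        | _ a b => exact ⟨a, fun h' => absurd h' h⟩
    choose f hf using this
    exact ⟨f, hf⟩
  have hvtx' : ∀ e ∈ Q, ∀ v ∈ e, ψ v = p → v = vtx e := by
    intro e he v hv hvp
    obtain ⟨h2, h3⟩ := hvtx e ⟨v, hv, hvp⟩
    by_contra hne
    have h4 : e = s(v, vtx e) := ((Sym2.mem_and_mem_iff hne).1 ⟨hv, h2⟩)
    have h5 : G.Adj v (vtx e) := by
      have := (hQ e he).1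
      rw [h4] at this
      exact this
    exact hψ _ _ h5 (by rw [hvp, h3])
  set yv : Sym2 U → V := fun e => if φ (vtx e) ∈ Z' p then φ (vtx e) else y0 with hyv
  have hyvZ : ∀ e, yv e ∈ Z' p := by
    intro e
    simp only [hyv]
    split_ifs with h
    · exact h
    · exact hy0
  have hyv1 : ∀ e ∈ Q, ∀ v ∈ e, ψ v = p → yv e = φ v := by
    intro e he v hv hvp
    have h2 := hvtx' e he v hv hvp
    have h3 : φ v ∈ Z' p := by
      rw [← hvp]
      exact hφZ v ((hQ e he).2.1 v hv)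
    simp only [hyv, ← h2, if_pos h3]
  -- the choice of the families for the edges of `Q`
  obtain ⟨jj, hj1, hj2⟩ : ∃ jj : Sym2 U → ι, (∀ e ∈ Q, jj e ∈ Kc' ∪ Kp ∧ (jj e ∈ Kp →
      ∃ v ∈ e, ψ v = p)) ∧ ∀ e ∈ Q, ∀ e' ∈ Q, jj e = jj e' → (jj e ∈ Kp → yv e = yv e') →
        e = e' := by
    have hcost' : cost G I = I.card + (G.edgeFinset.filter fun e => ∀ u ∈ I, u ∉ e).card := rfl
    rcases le_or_gt I.card Kc.card with hle | hlt
    · have hI1eq : I1 = I := by
        apply Finset.eq_of_subset_of_card_le hI1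
        rw [hI1c, min_eq_right hle]
      have hQc : Q.card ≤ (G.edgeFinset.filter fun e => ∀ u ∈ I, u ∉ e).card := by
        apply card_le_card
        intro e he
        obtain ⟨h2, h3, _⟩ := mem_filter.1 he
        refine mem_filter.2 ⟨h2, fun u hu hue => h3 u hue ?_⟩
        rw [hI1eq]
        exact hu
      have hd2 : Disjoint Kc' Kp := Finset.disjoint_of_subset_left sdiff_subset hdisj
      obtain ⟨f, hf1, hf2⟩ := exists_inj Q (Kc' ∪ Kp) (by
        rw [card_union_of_disjoint hd2, hKc'c, hI1eq]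
        omega) hιne
      refine ⟨f, fun e he => ⟨hf1 e he, fun h2 => ?_⟩, fun e he e' he' h2 _ => hf2 e he e' he' h2⟩
      rcases (hQ e he).2.2 with h3 | h3
      · rw [h3] at h2
        simp at h2
      · exact h3
    · have hKpne : Kp.Nonempty := by
        rw [← card_pos]
        omega
      have hends : ∀ e ∈ Q, ∃ v ∈ e, ψ v = p := by
        intro e he
        rcases (hQ e he).2.2 with h3 | h3
        · rw [h3] at hKpne
          simp at hKpne
        · exact h3
      have hQv : ∀ v, ψ v = p → (Q.filter fun e => v ∈ e).card ≤ Kp.card := by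
        intro v hv
        have h2 : (Q.filter fun e => v ∈ e) ⊆ ((I \ I1).image fun w => s(v, w)) ∪
            (G.edgeFinset.filter fun e => ∀ u ∈ I, u ∉ e) := by
          intro e he
          obtain ⟨heQ, hve⟩ := mem_filter.1 he
          obtain ⟨w, rfl⟩ := Sym2.mem_iff_exists.1 hve
          by_cases hw : w ∈ I
          · apply mem_union_left
            refine mem_image.2 ⟨w, mem_sdiff.2 ⟨hw, ?_⟩, rfl⟩
            exact (hQ _ heQ).2.1 w (Sym2.mem_mk_right _ _)
          · apply mem_union_right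
            refine mem_filter.2 ⟨(mem_filter.1 heQ).1, fun u hu hue => ?_⟩
            rcases Sym2.mem_iff.1 hue with rfl | rfl
            · exact hp u hu hv
            · exact hw hu
        have h3 := (card_le_card h2).trans (card_union_le _ _)
        have h4 : ((I \ I1).image fun w => s(v, w)).card ≤ I.card - I1.card := by
          refine card_image_le.trans ?_
          rw [card_sdiff_of_subset hI1]
        have h5 : I1.card = Kc.card := by
          rw [hI1c, min_eq_left hlt.le]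
        omega
      have h2 : ∀ v, ∃ f : Sym2 U → ι, ψ v = p → (∀ e ∈ Q.filter (fun e => v ∈ e), f e ∈ Kp) ∧
          ∀ e ∈ Q.filter (fun e => v ∈ e), ∀ e' ∈ Q.filter (fun e => v ∈ e), f e = f e' →
            e = e' := by
        intro v
        by_cases hv : ψ v = p
        · obtain ⟨f, hf⟩ := exists_inj (Q.filter fun e => v ∈ e) Kp (hQv v hv) hιne
          exact ⟨f, fun _ => hf⟩
        · obtain ⟨i0⟩ := hιne
          exact ⟨fun _ => i0, fun h => absurd h hv⟩
      choose f hf using h2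
      refine ⟨fun e => f (vtx e) e, fun e he => ?_, fun e he e' he' h2 h3 => ?_⟩
      · obtain ⟨h4, h5⟩ := hvtx e (hends e he)
        exact ⟨mem_union_right _ ((hf _ h5).1 e (mem_filter.2 ⟨he, h4⟩)), fun _ => hends e he⟩
      · obtain ⟨h4, h5⟩ := hvtx e (hends e he)
        obtain ⟨h4', h5'⟩ := hvtx e' (hends e' he')
        have h6 := h3 ((hf _ h5).1 e (mem_filter.2 ⟨he, h4⟩))
        rw [hyv1 e he _ h4 h5, hyv1 e' he' _ h4' h5'] at h6
        have h7 := hφinj h6
        simp only at h2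
        rw [← h7] at h2 h4'
        exact (hf _ h5).2 e (mem_filter.2 ⟨he, h4⟩) e' (mem_filter.2 ⟨he', h4'⟩) h2
  -- conclusion
  have hKc'sub : ∀ j ∈ Kc' ∪ Kp, j ∈ Kc ∪ Kp := by
    intro j hj
    rcases mem_union.1 hj with h | h
    · exact mem_union_left _ (mem_sdiff.1 h).1
    · exact mem_union_right _ h
  refine embed_box k hk H hH G Z' (fun l l' hl => hD'.disj l l' hl) (fun l => by
    have := hcardZ' l
    omega) W (fun l y hy => hD'.out l y hy) I1 ψ (fun u v _ _ huv => hψ u v huv) φ hφinj hφW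
    hφZ Q (fun e he => ⟨(hQ e he).1, (hQ e he).2.1⟩) (fun e => val (jj e) (yv e)) ?_ ?_ ?_ ?_ ?_
  · intro e he
    exact hvalW _ (hKc'sub _ (hj1 e he).1) _ (hyvZ e)
  · intro e he e' he' h
    have h2 := hvali _ (hKc'sub _ (hj1 e he).1) _ (hKc'sub _ (hj1 e' he').1) _ (hyvZ e) _
      (hyvZ e') h
    exact hj2 e he e' he' h2.1 h2.2
  · intro e he u h
    by_cases hu : u ∈ I1
    · simp only [hφI u hu] at h
      have h2 := (hvali _ (hKc'sub _ (hj1 e he).1) _ (mem_union_left _ (hθ1 u hu)) _ (hyvZ e) _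
        hy0 h).1
      rcases mem_union.1 (hj1 e he).1 with h3 | h3
      · apply (mem_sdiff.1 h3).2
        rw [h2]
        exact mem_image_of_mem _ hu
      · rw [h2] at h3
        exact Finset.disjoint_left.1 hdisj (hθ1 u hu) h3
    · exact hD'.out _ _ (hφZ u hu) (h ▸ hvalW _ (hKc'sub _ (hj1 e he).1) _ (hyvZ e))
  · intro e he x hx hxe
    have h2 := hD'.mem (jj e) x hx
    have h3 : c (jj e) x = val (jj e) (yv e) := by
      rw [hval' _ (hKc'sub _ (hj1 e he).1) x hx]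
      rcases mem_union.1 (hj1 e he).1 with h3 | h3
      · exact hvalc _ (mem_sdiff.1 h3).1 _ (hx p) _ (hyvZ e)
      · obtain ⟨v, hv, hvp⟩ := (hj1 e he).2 h3
        rw [hyv1 e he v hv hvp, ← hxe v hv, hvp]
    rw [← h3]
    exact h2
  · intro u v huv hnQ
    by_cases hu : u ∈ I1
    · by_cases hv : v ∈ I1
      · exact absurd huv (hI u (hI1 hu) v (hI1 hv))
      · obtain ⟨x, hx, hxp⟩ := box_point Z' hZ'ne (ψ v) (hφZ v hv)
        have h2 := hD'.rich (θ u) (hΛ _ (hθ1 u hu)) x hx (ψ v)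
        rw [hxp, hval' _ (mem_union_left _ (hθ1 u hu)) x hx,
          hvalc _ (hθ1 u hu) _ (hx p) _ hy0, ← hφI u hu] at h2
        exact h2
    · by_cases hv : v ∈ I1
      · obtain ⟨x, hx, hxp⟩ := box_point Z' hZ'ne (ψ u) (hφZ u hu)
        have h2 := hD'.rich (θ v) (hΛ _ (hθ1 v hv)) x hx (ψ u)
        rw [hxp, hval' _ (mem_union_left _ (hθ1 v hv)) x hx,
          hvalc _ (hθ1 v hv) _ (hx p) _ hy0, ← hφI v hv] at h2
        exact Rich.symm h2
      · have h2 : ¬ ((∀ w ∈ s(u, v), w ∉ I1) ∧ (Kp = ∅ ∨ ∃ w ∈ s(u, v), ψ w = p)) := by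
          intro h2
          exact hnQ (mem_filter.2 ⟨SimpleGraph.mem_edgeFinset.2 huv, h2⟩)
        have h3 : ∀ w ∈ s(u, v), w ∉ I1 := by
          intro w hw
          rcases Sym2.mem_iff.1 hw with rfl | rfl
          · exact hu
          · exact hv
        have h4 : ¬ (Kp = ∅ ∨ ∃ w ∈ s(u, v), ψ w = p) := fun h4 => h2 ⟨h3, h4⟩
        push Not at h4
        have hup : ψ u ≠ p := h4.2 u (Sym2.mem_mk_left _ _)
        have hvp : ψ v ≠ p := h4.2 v (Sym2.mem_mk_right _ _)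
        exact hrich h4.1 _ _ (hψ u v huv) hup hvp _ (hsub _ (hφZ u hu)) _ (hsub _ (hφZ v hv))

/-- a family that depends only on the coordinate `p` -/
theorem rich_of_dep {k s : ℕ} {V ι : Type} {H : Finset (Finset V)} {Z : Fin k → Finset V}
    {W : Set V} {c : ι → (Fin k → V) → V} {Λ : ι → Finset (Fin k)} (hD : BoxData s H Z W c Λ)
    (hZ : ∀ l, 2 ≤ (Z l).card) (j : ι) (p : Fin k)
    (hinj : ∀ x x', Box Z x → Box Z x' → c j x = c j x' → x p = x' p) (l l' : Fin k)
    (hl : l ≠ l') (hlp : l ≠ p) (hlp' : l' ≠ p) : ∀ y ∈ Z l, ∀ y' ∈ Z l', Rich s H y y' := by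
  rcases hD.dep j l l' hl with h | h
  · exact h
  · exfalso
    have hZne : ∀ l, (Z l).Nonempty := fun l => by
      rw [← card_pos]
      have := hZ l
      omega
    obtain ⟨a, ha, b, hb, hab⟩ := one_lt_card.1 (by have := hZ p; omega : 1 < (Z p).card)
    obtain ⟨x, hx, hxp⟩ := box_point Z hZne p ha
    have hx' := box_update hx p hb
    have h1 := h x (Function.update x p b) hx hx' (by rw [Function.update_of_ne hlp])
      (by rw [Function.update_of_ne hlp'])
    have h2 := hinj _ _ hx hx' h1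
    rw [hxp] at h2
    simp at h2
    exact hab h2

theorem lam_of_dep {k s : ℕ} {V ι : Type} {H : Finset (Finset V)} {Z : Fin k → Finset V}
    {W : Set V} {c : ι → (Fin k → V) → V} {Λ : ι → Finset (Fin k)} (hD : BoxData s H Z W c Λ)
    (hZ : ∀ l, 2 ≤ (Z l).card) (j : ι) (l : Fin k)
    (hdep : ∀ x x', Box Z x → Box Z x' → (∀ l', l' ≠ l → x l' = x' l') → c j x = c j x') :
    l ∉ Λ j := by
  intro hl
  have hZne : ∀ l, (Z l).Nonempty := fun l => by
    rw [← card_pos]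
    have := hZ l
    omega
  obtain ⟨a, ha, b, hb, hab⟩ := one_lt_card.1 (by have := hZ l; omega : 1 < (Z l).card)
  obtain ⟨x, hx, hxp⟩ := box_point Z hZne l ha
  have hx' := box_update hx l hb
  have h0 : ∀ l', l' ≠ l → x l' = Function.update x l b l' := fun l' hl' => by
    rw [Function.update_of_ne hl']
  have h1 := hdep x _ hx hx' h0
  have h2 := hD.inj j l hl x _ hx hx' h0 h1
  rw [hxp] at h2
  simp at h2
  exact hab h2

/-- the case of a family of type 1 that depends only on `x p` -/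
theorem embed_type1 {U V ι : Type} [Fintype U] (k : ℕ) (hk : 2 ≤ k) (G : SimpleGraph U)
    (ψ : U → Fin k) (hψ : ∀ u v, G.Adj u v → ψ u ≠ ψ v)
    (H : Finset (Finset V)) (hH : ∀ E ∈ H, E.card = k + 1)
    (Z : Fin k → Finset V) (W : Set V) (c : ι → (Fin k → V) → V) (Λ : ι → Finset (Fin k))
    (hD : BoxData (sN k G) H Z W c Λ) (hZ : ∀ l, 2 ≤ (Z l).card)
    (hZU : ∀ l, Fintype.card U ≤ (Z l).card) (p : Fin k) (j : ι) (hΛ : Λ j = ∅) (g : V → V)
    (hg : Set.InjOn g (Z p)) (hc : ∀ x, Box Z x → c j x = g (x p)) :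
    Contains H (expansion (k + 1) G) := by
  have hZne : ∀ l, (Z l).Nonempty := fun l => by
    rw [← card_pos]
    have := hZ l
    omega
  have hgW : ∀ y ∈ Z p, g y ∈ W := by
    intro y hy
    obtain ⟨x, hx, hxp⟩ := box_point Z hZne p hy
    rw [← hxp, ← hc x hx]
    exact hD.inW j x hx
  set Y' : Fin k → Finset V := Function.update Z p ((Z p).image g) with hY'
  have hY'p : Y' p = (Z p).image g := by simp [hY']
  have hY'l : ∀ l, l ≠ p → Y' l = Z l := fun l hl => by simp [hY', hl]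
  have hdisj : ∀ l, l ≠ p → Disjoint (Y' l) (Y' p) := by
    intro l hl
    rw [hY'p, hY'l l hl, Finset.disjoint_left]
    intro y hy hy'
    obtain ⟨a, ha, rfl⟩ := mem_image.1 hy'
    exact hD.out l _ hy (hgW a ha)
  have hrp : ∀ l, l ≠ p → ∀ y ∈ Y' l, ∀ y' ∈ Y' p, Rich (sN k G) H y y' := by
    intro l hl y hy y' hy'
    rw [hY'l l hl] at hy
    rw [hY'p] at hy'
    obtain ⟨a, ha, rfl⟩ := mem_image.1 hy'
    obtain ⟨x, hx, hxp, hxl⟩ := box_point2 Z hZne p l (Ne.symm hl) ha hy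
    have h1 := hD.rich j hΛ x hx l
    rw [hc x hx, hxp, hxl] at h1
    exact Rich.symm h1
  refine emb_rich k (by omega) H hH G Y' ?_ ?_ ψ hψ ?_
  · intro l l' hl
    by_cases h1 : l = p
    · subst h1
      exact (hdisj l' (Ne.symm hl)).symm
    · by_cases h2 : l' = p
      · subst h2
        exact hdisj l h1
      · rw [hY'l l h1, hY'l l' h2]
        exact hD.disj l l' hl
  · intro l
    by_cases h1 : l = p
    · subst h1
      rw [hY'p, card_image_of_injOn hg]
      exact hZU l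
    · rw [hY'l l h1]
      exact hZU l
  · intro l l' hl y hy y' hy'
    by_cases h1 : l = p
    · subst h1
      exact Rich.symm (hrp l' (Ne.symm hl) y' hy' y hy)
    · by_cases h2 : l' = p
      · subst h2
        exact hrp l h1 y hy y' hy'
      · rw [hY'l l h1] at hy
        rw [hY'l l' h2] at hy'
        exact rich_of_dep hD hZ j p (fun x x' hx hx' h => by
          rw [hc x hx, hc x' hx'] at h
          exact hg (hx p) (hx' p) h) l l' hl h1 h2 y hy y' hy'

/-- the rainbow case -/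
theorem embed_rainbow {U V ι : Type} [Fintype U] (k : ℕ) (hk : 2 ≤ k) (G : SimpleGraph U)
    (ψ : U → Fin k) (hψ : ∀ u v, G.Adj u v → ψ u ≠ ψ v)
    (H : Finset (Finset V)) (hH : ∀ E ∈ H, E.card = k + 1)
    (Z : Fin k → Finset V) (W : Set V) (c : ι → (Fin k → V) → V) (Λ : ι → Finset (Fin k))
    (hD : BoxData (sN k G) H Z W c Λ) (hZ : ∀ l, 2 ≤ (Z l).card)
    (hZU : ∀ l, Fintype.card U + G.edgeFinset.card ≤ (Z l).card) (p q : Fin k) (hpq : p ≠ q)
    (j : ι) (f : V → V → V) (hc : ∀ x, Box Z x → c j x = f (x p) (x q))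
    (hf : ∀ y ∈ Z p, ∀ y' ∈ Z q, ∀ z ∈ Z p, ∀ z' ∈ Z q, f y y' = f z z' → y = z ∧ y' = z') :
    Contains H (expansion (k + 1) G) := by
  have hZne : ∀ l, (Z l).Nonempty := fun l => by
    rw [← card_pos]
    have := hZ l
    omega
  have hinj : ∀ x x', Box Z x → Box Z x' → c j x = c j x' → x p = x' p ∧ x q = x' q := by
    intro x x' hx hx' h
    rw [hc x hx, hc x' hx'] at h
    exact hf _ (hx p) _ (hx q) _ (hx' p) _ (hx' q) h
  have hrich : ∀ l l', l ≠ l' → ¬ (l = p ∧ l' = q) → ¬ (l = q ∧ l' = p) →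
      ∀ y ∈ Z l, ∀ y' ∈ Z l', Rich (sN k G) H y y' := by
    intro l l' hl h1 h2
    by_cases h3 : l ≠ p ∧ l' ≠ p
    · exact rich_of_dep hD hZ j p (fun x x' hx hx' h => (hinj x x' hx hx' h).1) l l' hl h3.1 h3.2
    · have h4 : l ≠ q ∧ l' ≠ q := by
        by_contra h5
        rw [not_and_or, not_not, not_not] at h3 h5
        rcases h3 with h3 | h3 <;> rcases h5 with h5 | h5
        · exact hpq (h3.symm.trans h5)
        · exact h1 ⟨h3, h5⟩
        · exact h2 ⟨h5, h3⟩
        · exact hpq (h3.symm.trans h5)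
      exact rich_of_dep hD hZ j q (fun x x' hx hx' h => (hinj x x' hx hx' h).2) l l' hl h4.1 h4.2
  have h1 : ∀ l, ∃ z : U → V, Function.Injective z ∧ ∀ u, z u ∈ Z l := by
    intro l
    have h2 : Fintype.card U ≤ Fintype.card (Z l) := by
      have := hZU l
      simp only [Fintype.card_coe]
      omega
    obtain ⟨f⟩ := Function.Embedding.nonempty_of_card_le h2
    exact ⟨fun u => (f u : V), fun a b hab => f.injective (Subtype.ext hab), fun u => (f u).2⟩
  choose z hz1 hz2 using h1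
  set φ : U → V := fun u => z (ψ u) u with hφdef
  have hφZ : ∀ u, φ u ∈ Z (ψ u) := fun u => hz2 _ _
  have hφinj : Function.Injective φ := by
    intro u v huv
    by_cases h : ψ u = ψ v
    · simp only [hφdef, h] at huv
      exact hz1 _ huv
    · exfalso
      have h3 := hφZ u
      rw [huv] at h3
      exact Finset.disjoint_left.1 (hD.disj _ _ h) h3 (hφZ v)
  set Q : Finset (Sym2 U) := G.edgeFinset.filter fun e => (∃ u ∈ e, ψ u = p) ∧ ∃ v ∈ e, ψ v = q
    with hQdef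
  have hex : ∀ e : Sym2 U, ∃ a : U × U, ((∃ u ∈ e, ψ u = p) ∧ ∃ v ∈ e, ψ v = q) →
      (a.1 ∈ e ∧ ψ a.1 = p) ∧ (a.2 ∈ e ∧ ψ a.2 = q) := by
    intro e
    by_cases h : (∃ u ∈ e, ψ u = p) ∧ ∃ v ∈ e, ψ v = q
    · obtain ⟨⟨u, hu⟩, v, hv⟩ := h
      exact ⟨(u, v), fun _ => ⟨hu, hv⟩⟩
    · induction e using Sym2.ind with
      | _ a b => exact ⟨(a, b), fun h' => absurd h' h⟩
  choose a ha using hex
  have haQ : ∀ e ∈ Q, ((a e).1 ∈ e ∧ ψ (a e).1 = p) ∧ ((a e).2 ∈ e ∧ ψ (a e).2 = q) :=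
    fun e he => ha e (mem_filter.1 he).2
  have haE : ∀ e ∈ Q, e = s((a e).1, (a e).2) := by
    intro e he
    obtain ⟨⟨h2, h3⟩, h4, h5⟩ := haQ e he
    have hne : (a e).1 ≠ (a e).2 := by
      intro h6
      rw [h6, h5] at h3
      exact hpq h3.symm
    exact (Sym2.mem_and_mem_iff hne).1 ⟨h2, h4⟩
  have hφp : ∀ e ∈ Q, φ (a e).1 ∈ Z p ∧ φ (a e).2 ∈ Z q := by
    intro e he
    obtain ⟨⟨_, h3⟩, _, h5⟩ := haQ e he
    have h6 := hφZ (a e).1
    have h7 := hφZ (a e).2
    rw [h3] at h6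
    rw [h5] at h7
    exact ⟨h6, h7⟩
  have hχW : ∀ e ∈ Q, f (φ (a e).1) (φ (a e).2) ∈ W := by
    intro e he
    obtain ⟨h6, h7⟩ := hφp e he
    obtain ⟨x, hx, hxp, hxq⟩ := box_point2 Z hZne p q hpq h6 h7
    rw [← hxp, ← hxq, ← hc x hx]
    exact hD.inW j x hx
  refine embed_box k hk H hH G Z (fun l l' hl => hD.disj l l' hl) hZU W
    (fun l y hy => hD.out l y hy) ∅ ψ (fun u v _ _ huv => hψ u v huv) φ hφinj (by simp)
    (fun u _ => hφZ u) Q (fun e he => ⟨SimpleGraph.mem_edgeFinset.1 (mem_filter.1 he).1, by simp⟩)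
    (fun e => f (φ (a e).1) (φ (a e).2)) hχW ?_ ?_ ?_ ?_
  · intro e he e' he' h
    obtain ⟨h6, h7⟩ := hφp e he
    obtain ⟨h6', h7'⟩ := hφp e' he'
    obtain ⟨h8, h9⟩ := hf _ h6 _ h7 _ h6' _ h7' h
    rw [haE e he, haE e' he', hφinj h8, hφinj h9]
  · intro e he u h
    exact hD.out _ _ (hφZ u) (h ▸ hχW e he)
  · intro e he x hx hxe
    have h2 := hD.mem j x hx
    obtain ⟨⟨h3, h4⟩, h5, h6⟩ := haQ e he
    have h7 : c j x = f (φ (a e).1) (φ (a e).2) := by
      rw [hc x hx, ← hxe _ h3, ← hxe _ h5, h4, h6]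
    rw [← h7]
    exact h2
  · intro u v huv hnQ
    have h2 : ¬ ((∃ w ∈ s(u, v), ψ w = p) ∧ ∃ w ∈ s(u, v), ψ w = q) := by
      intro h2
      exact hnQ (mem_filter.2 ⟨SimpleGraph.mem_edgeFinset.2 huv, h2⟩)
    refine hrich (ψ u) (ψ v) (hψ u v huv) ?_ ?_ _ (hφZ u) _ (hφZ v)
    · rintro ⟨h3, h4⟩
      exact h2 ⟨⟨u, Sym2.mem_mk_left _ _, h3⟩, ⟨v, Sym2.mem_mk_right _ _, h4⟩⟩
    · rintro ⟨h3, h4⟩
      exact h2 ⟨⟨v, Sym2.mem_mk_right _ _, h4⟩, ⟨u, Sym2.mem_mk_left _ _, h3⟩⟩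

/-- all cases except the rainbow one, when the coordinate `p` carries at least as many families
as the other coordinate -/
theorem embed_side {U V ι : Type} [Fintype U] [Fintype ι] (k m : ℕ) (hk : 2 ≤ k)
    (G : SimpleGraph U)
    (I : Finset U) (hI : ∀ u ∈ I, ∀ v ∈ I, ¬ G.Adj u v) (ψ : U → Fin k)
    (hψ : ∀ u v, G.Adj u v → ψ u ≠ ψ v) (c0 : Fin k) (hc0 : ∀ u ∈ I, ψ u ≠ c0)
    (hcost : 1 ≤ cost G I) (p q : Fin k)
    (H : Finset (Finset V)) (hH : ∀ E ∈ H, E.card = k + 1)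
    (Z : Fin k → Finset V) (W : Set V) (c : ι → (Fin k → V) → V) (Λ : ι → Finset (Fin k))
    (hD : BoxData (sN k G) H Z W c Λ) (hm : Fintype.card ι ≤ m)
    (hZ : ∀ l, (Fintype.card U + G.edgeFinset.card + 2) * (m * m + 1) ≤ (Z l).card)
    (Kc Kp Kq : Finset ι)
    (hcov : ∀ j, j ∈ Kc ∨ j ∈ Kp ∨ j ∈ Kq)
    (hKc : ∀ j ∈ Kc, ∃ γ, ∀ x, Box Z x → c j x = γ)
    (hKp : ∀ j ∈ Kp, ∃ g : V → V, Set.InjOn g (Z p) ∧ ∀ x, Box Z x → c j x = g (x p))
    (hKq : ∀ j ∈ Kq, ∃ g : V → V, Set.InjOn g (Z q) ∧ ∀ x, Box Z x → c j x = g (x q))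
    (hle : Kq.card ≤ Kp.card)
    (hsum : (cost G I : ℝ) - 1 < ∑ j, 1 / (((Λ j).card : ℝ) + 1)) :
    Contains H (expansion (k + 1) G) := by
  have hm1 : 1 ≤ m * m + 1 := by omega
  have hZU' : ∀ l, Fintype.card U + G.edgeFinset.card + 2 ≤ (Z l).card := fun l =>
    le_trans (Nat.le_mul_of_pos_right _ (by omega)) (hZ l)
  have hZ2 : ∀ l, 2 ≤ (Z l).card := fun l => by
    have := hZU' l
    omega
  have hZU : ∀ l, Fintype.card U ≤ (Z l).card := fun l => by
    have := hZU' l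
    omega
  have hZne : ∀ l, (Z l).Nonempty := fun l => by
    rw [← card_pos]
    have := hZ2 l
    omega
  -- the sets `Λ`
  have hΛc : ∀ j ∈ Kc, Λ j = ∅ := by
    intro j hj
    obtain ⟨γ, hγ⟩ := hKc j hj
    rw [Finset.eq_empty_iff_forall_notMem]
    intro l
    exact lam_of_dep hD hZ2 j l fun x x' hx hx' _ => by rw [hγ x hx, hγ x' hx']
  have hΛp : ∀ (p : Fin k) (j : ι), (∃ g : V → V, Set.InjOn g (Z p) ∧
      ∀ x, Box Z x → c j x = g (x p)) → Λ j ⊆ {p} := by
    rintro p j ⟨g, _, hg⟩ l hl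
    by_contra hne
    rw [mem_singleton] at hne
    refine lam_of_dep hD hZ2 j l (fun x x' hx hx' h => ?_) hl
    rw [hg x hx, hg x' hx', h p (Ne.symm hne)]
  by_cases h1 : ∃ j ∈ Kp, Λ j = ∅
  · obtain ⟨j, hj, hj0⟩ := h1
    obtain ⟨g, hg1, hg2⟩ := hKp j hj
    exact embed_type1 k hk G ψ hψ H hH Z W c Λ hD hZ2 hZU p j hj0 g hg1 hg2
  by_cases h2 : ∃ j ∈ Kq, Λ j = ∅
  · obtain ⟨j, hj, hj0⟩ := h2
    obtain ⟨g, hg1, hg2⟩ := hKq j hj
    exact embed_type1 k hk G ψ hψ H hH Z W c Λ hD hZ2 hZU q j hj0 g hg1 hg2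
  push Not at h1 h2
  have hdisj : Disjoint Kc Kp := by
    rw [Finset.disjoint_left]
    intro j hj hj'
    exact (h1 j hj').ne_empty (hΛc j hj)
  -- the weights
  have hw1 : ∀ j ∈ Kp, (1 : ℝ) / (((Λ j).card : ℝ) + 1) ≤ 1 / 2 := by
    intro j hj
    have h3 : 1 ≤ (Λ j).card := by
      rw [Nat.one_le_iff_ne_zero, Ne, Finset.card_eq_zero]
      exact (h1 j hj).ne_empty
    have h4 : (1 : ℝ) ≤ ((Λ j).card : ℝ) := by exact_mod_cast h3
    rw [div_le_div_iff₀ (by linarith) (by norm_num)]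
    linarith
  have hw2 : ∀ j ∈ Kq, (1 : ℝ) / (((Λ j).card : ℝ) + 1) ≤ 1 / 2 := by
    intro j hj
    have h3 : 1 ≤ (Λ j).card := by
      rw [Nat.one_le_iff_ne_zero, Ne, Finset.card_eq_zero]
      exact (h2 j hj).ne_empty
    have h4 : (1 : ℝ) ≤ ((Λ j).card : ℝ) := by exact_mod_cast h3
    rw [div_le_div_iff₀ (by linarith) (by norm_num)]
    linarith
  have hw0 : ∀ j, (0 : ℝ) ≤ 1 / (((Λ j).card : ℝ) + 1) := fun j => by positivity
  have hw3 : ∀ j, (1 : ℝ) / (((Λ j).card : ℝ) + 1) ≤ 1 := by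
    intro j
    rw [div_le_one (by positivity)]
    have : (0 : ℝ) ≤ ((Λ j).card : ℝ) := Nat.cast_nonneg _
    linarith
  have hsum2 : ∑ j, (1 : ℝ) / (((Λ j).card : ℝ) + 1) ≤
      Kc.card + ((Kp.card : ℝ) + Kq.card) / 2 := by
    have huniv : (univ : Finset ι) ⊆ Kc ∪ (Kp ∪ Kq) := by
      intro j _
      rcases hcov j with h | h | h
      · exact mem_union_left _ h
      · exact mem_union_right _ (mem_union_left _ h)
      · exact mem_union_right _ (mem_union_right _ h)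
    calc ∑ j, (1 : ℝ) / (((Λ j).card : ℝ) + 1)
        ≤ ∑ j ∈ Kc ∪ (Kp ∪ Kq), (1 : ℝ) / (((Λ j).card : ℝ) + 1) :=
          Finset.sum_le_sum_of_subset_of_nonneg huniv fun j _ _ => hw0 j
      _ ≤ ∑ j ∈ Kc, (1 : ℝ) / (((Λ j).card : ℝ) + 1) +
          (∑ j ∈ Kp, (1 : ℝ) / (((Λ j).card : ℝ) + 1) +
            ∑ j ∈ Kq, (1 : ℝ) / (((Λ j).card : ℝ) + 1)) := by
          have e1 := Finset.sum_union_inter (s₁ := Kc) (s₂ := Kp ∪ Kq)
            (f := fun j => (1 : ℝ) / (((Λ j).card : ℝ) + 1))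
          have e2 := Finset.sum_union_inter (s₁ := Kp) (s₂ := Kq)
            (f := fun j => (1 : ℝ) / (((Λ j).card : ℝ) + 1))
          have e3 : 0 ≤ ∑ j ∈ Kc ∩ (Kp ∪ Kq), (1 : ℝ) / (((Λ j).card : ℝ) + 1) :=
            Finset.sum_nonneg fun j _ => hw0 j
          have e4 : 0 ≤ ∑ j ∈ Kp ∩ Kq, (1 : ℝ) / (((Λ j).card : ℝ) + 1) :=
            Finset.sum_nonneg fun j _ => hw0 j
          linarith
      _ ≤ ∑ j ∈ Kc, (1 : ℝ) + (∑ j ∈ Kp, (1 / 2 : ℝ) + ∑ j ∈ Kq, (1 / 2 : ℝ)) := by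
          have e1 := Finset.sum_le_sum fun j (_ : j ∈ Kc) => hw3 j
          have e2 := Finset.sum_le_sum hw1
          have e3 := Finset.sum_le_sum hw2
          linarith
      _ = _ := by
          simp only [Finset.sum_const, nsmul_eq_mul]
          ring
  have hcard : cost G I ≤ Kc.card + Kp.card := by
    have h3 : (Kq.card : ℝ) ≤ Kp.card := by exact_mod_cast hle
    have h4 : (cost G I : ℝ) - 1 < Kc.card + Kp.card := by linarith
    have h5 : (cost G I : ℝ) < ((Kc.card + Kp.card + 1 : ℕ) : ℝ) := by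
      push_cast
      linarith
    have h6 : cost G I < Kc.card + Kp.card + 1 := by exact_mod_cast h5
    omega
  -- the values
  have hval : ∀ j, ∃ g : V → V, j ∈ Kc ∪ Kp → (∀ x, Box Z x → c j x = g (x p)) ∧
      (j ∈ Kc → ∀ y ∈ Z p, ∀ y' ∈ Z p, g y = g y') ∧
      (j ∈ Kp → ∀ y ∈ Z p, ∀ y' ∈ Z p, g y = g y' → y = y') := by
    intro j
    by_cases h3 : j ∈ Kc
    · obtain ⟨γ, hγ⟩ := hKc j h3
      exact ⟨fun _ => γ, fun _ => ⟨hγ, fun _ _ _ _ _ => rfl,
        fun h4 => absurd h4 (Finset.disjoint_left.1 hdisj h3)⟩⟩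
    · by_cases h4 : j ∈ Kp
      · obtain ⟨g, hg1, hg2⟩ := hKp j h4
        exact ⟨g, fun _ => ⟨hg2, fun h5 => absurd h5 h3, fun _ y hy y' hy' h => hg1 hy hy' h⟩⟩
      · obtain ⟨v, _⟩ := hZne p
        exact ⟨fun _ => v, fun h5 => by
          rcases mem_union.1 h5 with h5 | h5
          · exact absurd h5 h3
          · exact absurd h5 h4⟩
  choose val hval using hval
  have hKpm : Kp.card ≤ m := (card_le_univ _).trans hm
  refine final_embed k hk G I hI (fun u => Equiv.swap c0 p (ψ u))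
    (fun u v huv h => hψ u v huv ((Equiv.swap c0 p).injective h)) p ?_ H hH Z W c Λ hD Kc Kp
    hdisj val (fun j hj x hx => (hval j hj).1 x hx)
    (fun j hj => (hval j (mem_union_left _ hj)).2.1 hj) hΛc
    (fun j hj => (hval j (mem_union_right _ hj)).2.2 hj) ?_ hcard hcost ?_
  · intro u hu h
    apply hc0 u hu
    have : Equiv.swap c0 p c0 = p := Equiv.swap_apply_left _ _
    exact (Equiv.swap c0 p).injective (h.trans this.symm)
  · rintro ⟨j, hj⟩ l l' hl hlp hlp'
    obtain ⟨g, hg1, hg2⟩ := hKp j hj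
    exact rich_of_dep hD hZ2 j p (fun x x' hx hx' h => by
      rw [hg2 x hx, hg2 x' hx'] at h
      exact hg1 (hx p) (hx' p) h) l l' hl hlp hlp'
  · intro l
    refine le_trans ?_ (hZ l)
    have h3 : Kp.card * Kp.card ≤ m * m := Nat.mul_le_mul hKpm hKpm
    exact Nat.mul_le_mul (by omega) (by omega)

end FB

open FB

theorem box_embeds {U : Type} [Fintype U] (k m : ℕ) (hk : 2 ≤ k) (G : SimpleGraph U)
    (I : Finset U) (hI : ∀ u ∈ I, ∀ v ∈ I, ¬ G.Adj u v) (ψ : U → Fin k)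
    (hψ : ∀ u v, G.Adj u v → ψ u ≠ ψ v) (c0 : Fin k) (hc0 : ∀ u ∈ I, ψ u ≠ c0)
    (hcost : 1 ≤ cost G I) :
    ∃ T : ℕ, ∀ (V ι : Type) [Fintype ι] (H : Finset (Finset V)) (Y : Fin k → Finset V)
      (W : Set V) (c : ι → (Fin k → V) → V) (Λ : ι → Finset (Fin k)),
      Fintype.card ι ≤ m → (∀ E ∈ H, E.card = k + 1) → BoxData (sN k G) H Y W c Λ →
      (∀ l, T ≤ (Y l).card) →
      (cost G I : ℝ) - 1 < ∑ j, 1 / (((Λ j).card : ℝ) + 1) →
      Contains H (expansion (k + 1) G) := by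
  set t : ℕ := (Fintype.card U + G.edgeFinset.card + 2) * (m * m + 1) with ht
  obtain ⟨T0, hT0⟩ := box_canon k m t
  refine ⟨max T0 (Fintype.card U + 1), ?_⟩
  intro V ι _ H Y W c Λ hm hH hD hY hsum
  by_cases hall : ∀ l l', l ≠ l' → ∀ y ∈ Y l, ∀ y' ∈ Y l', Rich (sN k G) H y y'
  · exact emb_rich k (by omega) H hH G Y hD.disj (fun l => by
      have := hY l
      omega) ψ hψ hall
  push Not at hall
  obtain ⟨p, q, hpq, hnr⟩ := hall
  have hYne : ∀ l, (Y l).Nonempty := fun l => by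
    rw [← card_pos]
    have := hY l
    omega
  have hdep : ∀ j, ∀ x x', Box Y x → Box Y x' → x p = x' p → x q = x' q → c j x = c j x' := by
    intro j
    rcases hD.dep j p q hpq with h | h
    · obtain ⟨y, hy, y', hy', hn⟩ := hnr
      exact absurd (h y hy y' hy') hn
    · exact h
  obtain ⟨y0, hy0⟩ := hYne p
  obtain ⟨x0, hx0, _⟩ := box_point Y hYne p hy0
  set f : ι → V → V → V := fun j y y' => c j (Function.update (Function.update x0 p y) q y')
    with hf
  have hcf : ∀ j x, Box Y x → c j x = f j (x p) (x q) := by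
    intro j x hx
    refine hdep j _ _ hx (box_update (box_update hx0 p (hx p)) q (hx q)) ?_ (by simp)
    rw [Function.update_of_ne hpq]
    simp
  obtain ⟨Z, hZY, hZc, hcan⟩ := hT0 V V ι univ (by simpa using hm) Y (fun l => by
    have := hY l
    omega) f (fun _ => p) (fun _ => q) (fun _ _ => hpq)
  have hDZ := BoxData.mono hD hZY
  have hboxY : ∀ x, Box Z x → Box Y x := fun x hx l => hZY l (hx l)
  have hm1 : 1 ≤ m * m + 1 := by omega
  have ht2 : Fintype.card U + G.edgeFinset.card + 2 ≤ t := Nat.le_mul_of_pos_right _ (by omega)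
  -- rainbow case
  by_cases hrb : ∃ j, ∀ y ∈ Z p, ∀ y' ∈ Z q, ∀ z ∈ Z p, ∀ z' ∈ Z q, f j y y' = f j z z' →
      y = z ∧ y' = z'
  · obtain ⟨j, hj⟩ := hrb
    exact embed_rainbow k hk G ψ hψ H hH Z W c Λ hDZ (fun l => by rw [hZc l]; omega)
      (fun l => by rw [hZc l]; omega) p q hpq j (f j) (fun x hx => hcf j x (hboxY x hx)) hj
  set Kc : Finset ι := univ.filter fun j => ∃ γ, ∀ x, Box Z x → c j x = γ with hKc
  set Kp : Finset ι := univ.filter fun j => ∃ g : V → V, Set.InjOn g (Z p) ∧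
    ∀ x, Box Z x → c j x = g (x p) with hKp
  set Kq : Finset ι := univ.filter fun j => ∃ g : V → V, Set.InjOn g (Z q) ∧
    ∀ x, Box Z x → c j x = g (x q) with hKq
  have hcov : ∀ j, j ∈ Kc ∨ j ∈ Kp ∨ j ∈ Kq := by
    intro j
    rcases hcan j (mem_univ _) with ⟨γ, h⟩ | ⟨g, hg, h⟩ | ⟨g, hg, h⟩ | h
    · left
      refine mem_filter.2 ⟨mem_univ _, γ, fun x hx => ?_⟩
      rw [hcf j x (hboxY x hx)]
      exact h _ (hx p) _ (hx q)
    · right; left
      refine mem_filter.2 ⟨mem_univ _, g, hg, fun x hx => ?_⟩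
      rw [hcf j x (hboxY x hx)]
      exact h _ (hx p) _ (hx q)
    · right; right
      refine mem_filter.2 ⟨mem_univ _, g, hg, fun x hx => ?_⟩
      rw [hcf j x (hboxY x hx)]
      exact h _ (hx p) _ (hx q)
    · exact absurd ⟨j, h⟩ hrb
  rcases le_total Kq.card Kp.card with hle | hle
  · exact embed_side k m hk G I hI ψ hψ c0 hc0 hcost p q H hH Z W c Λ hDZ hm
      (fun l => by rw [hZc l]) Kc Kp Kq hcov (fun j hj => (mem_filter.1 hj).2)
      (fun j hj => (mem_filter.1 hj).2) (fun j hj => (mem_filter.1 hj).2) hle hsum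
  · exact embed_side k m hk G I hI ψ hψ c0 hc0 hcost q p H hH Z W c Λ hDZ hm
      (fun l => by rw [hZc l]) Kc Kq Kp (fun j => by
        rcases hcov j with h | h | h
        · exact Or.inl h
        · exact Or.inr (Or.inr h)
        · exact Or.inr (Or.inl h)) (fun j hj => (mem_filter.1 hj).2)
      (fun j hj => (mem_filter.1 hj).2) (fun j hj => (mem_filter.1 hj).2) hle hsum

end

end EX
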