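import Pool.Agent.Helper89.EX.IC
import Pool.Agent.Helper11.EX.HM
import Pool.Agent.Helper41.EX.JS
import Pool.Agent.Helper22.EX.DC
import Pool.Agent.Helper57.EX.CN
import Pool.Agent.Helper57.EX.WTBT

/-!
# MP_5176ab_co: box data from a large family (module UB)
-/

set_option autoImplicit false

namespace EX

open Finset SimpleGraph Filter Topology

open scoped Classical

noncomputable section

theorem decomp (r s : ℕ) (hr : 1 ≤ r) (δ : ℝ) (hδ : 0 < δ) : ∃ m : ℕ, ∀ (n : ℕ)
    (F : Finset (Fin r → Fin n)), (∀ e ∈ F, Function.Injective e) →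
    ∃ (F' : Fin m → Finset (Fin r → Fin n)) (P : Fin m → Fin n → Fin r)
      (J : Fin m → Finset (Finset (Fin r))),
      (∀ j, F' j ⊆ F) ∧ (∀ i j, i ≠ j → Disjoint (F' i) (F' j)) ∧
      (∀ j, Hom s (F' j) (J j)) ∧ (∀ j, ∀ e ∈ F' j, ∀ i, P j (e i) = i) ∧
      (F.card : ℝ) ≤ ∑ j, ((F' j).card : ℝ) + δ * F.card :=
  decomp_of r s (hom_exists r s) hr δ hδ

namespace UB

variable {n k : ℕ}

theorem mem_agr {r : ℕ} {V : Type} (e e' : Fin r → V) (i : Fin r) :
    i ∈ agr e e' ↔ e i = e' i := by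
  unfold agr
  simp

/-- increasing tuples are determined by their image -/
theorem strictMono_image {r : ℕ} {e e' : Fin r → Fin n} (he : StrictMono e)
    (he' : StrictMono e') (h : univ.image e = univ.image e') : e = e' := by
  have hc : (univ.image e).card = r := by
    rw [card_image_of_injective _ he.injective]
    simp
  have h1 := Finset.orderEmbOfFin_unique hc (f := e) (fun x => mem_image_of_mem _ (mem_univ _)) he
  have h2 := Finset.orderEmbOfFin_unique hc (f := e')
    (fun x => by rw [h]; exact mem_image_of_mem _ (mem_univ _)) he'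
  rw [h1, h2]

/-- the increasing tuples of the members of `H` -/
def tup (k : ℕ) (H : Finset (Finset (Fin n))) : Finset (Fin (k + 1) → Fin n) :=
  univ.filter fun e => StrictMono e ∧ univ.image e ∈ H

theorem tup_card (H : Finset (Finset (Fin n))) (hH : ∀ E ∈ H, E.card = k + 1) :
    (tup k H).card = H.card := by
  refine Finset.card_bij (fun e _ => univ.image e) ?_ ?_ ?_
  · intro e he
    exact (mem_filter.1 he).2.2
  · intro e he e' he' h
    exact strictMono_image (mem_filter.1 he).2.1 (mem_filter.1 he').2.1 h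
  · intro E hE
    refine ⟨E.orderEmbOfFin (hH E hE), ?_, ?_⟩
    · refine mem_filter.2 ⟨mem_univ _, (E.orderEmbOfFin (hH E hE)).strictMono, ?_⟩
      rw [Finset.image_orderEmbOfFin_univ]
      exact hE
    · rw [Finset.image_orderEmbOfFin_univ]

theorem rich_of_ker {s : ℕ} {H : Finset (Finset (Fin n))}
    {F : Finset (Fin (k + 1) → Fin n)} (hF : ∀ e ∈ F, StrictMono e ∧ univ.image e ∈ H)
    {P : Fin n → Fin (k + 1)} (hP : ∀ e ∈ F, ∀ i, P (e i) = i) {e : Fin (k + 1) → Fin n}
    {i i' : Fin (k + 1)} (h : Ker s F {i, i'} e) : Rich s H (e i) (e i') := by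
  obtain ⟨T, hT, hs, h1, h2⟩ := h
  refine ⟨T.image fun t => univ.image t, ?_, ?_, ?_, ?_⟩
  · intro E hE
    obtain ⟨t, ht, rfl⟩ := mem_image.1 hE
    exact (hF t (hT ht)).2
  · rw [card_image_of_injOn]
    · exact hs
    · intro t ht t' ht' h
      exact strictMono_image (hF t (hT ht)).1 (hF t' (hT ht')).1 h
  · intro E hE
    obtain ⟨t, ht, rfl⟩ := mem_image.1 hE
    rw [← h1 t ht i (by simp), ← h1 t ht i' (by simp)]
    exact ⟨mem_image_of_mem _ (mem_univ _), mem_image_of_mem _ (mem_univ _)⟩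
  · intro E hE E' hE' hne
    obtain ⟨t, ht, rfl⟩ := mem_image.1 hE
    obtain ⟨t', ht', rfl⟩ := mem_image.1 hE'
    have hne' : t ≠ t' := fun h => hne (by rw [h])
    have h3 := h2 t ht t' ht' hne'
    ext v
    simp only [mem_inter, mem_image, mem_univ, true_and, mem_insert, mem_singleton]
    constructor
    · rintro ⟨⟨a, rfl⟩, a', ha'⟩
      have h4 : a = a' := by
        rw [← hP t (hT ht) a, ← hP t' (hT ht') a', ha']
      subst h4
      have h5 : a ∈ agr t t' := (mem_agr _ _ _).2 ha'.symm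
      rw [h3, mem_insert, mem_singleton] at h5
      rcases h5 with h5 | h5
      · left; rw [h5]; exact h1 t ht i (by simp)
      · right; rw [h5]; exact h1 t ht i' (by simp)
    · rintro (rfl | rfl)
      · exact ⟨⟨i, h1 t ht i (by simp)⟩, ⟨i, h1 t' ht' i (by simp)⟩⟩
      · exact ⟨⟨i', h1 t ht i' (by simp)⟩, ⟨i', h1 t' ht' i' (by simp)⟩⟩

theorem image_succAbove (e : Fin (k + 1) → Fin n) (b : Fin (k + 1)) :
    insert (e b) (univ.image (e ∘ b.succAbove)) = univ.image e := by
  ext v
  simp only [mem_insert, mem_image, mem_univ, true_and, Function.comp_apply]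
  constructor
  · rintro (rfl | ⟨l, rfl⟩)
    · exact ⟨b, rfl⟩
    · exact ⟨_, rfl⟩
  · rintro ⟨i, rfl⟩
    by_cases h : i = b
    · left; rw [h]
    · right
      obtain ⟨l, hl⟩ := Fin.exists_succAbove_eq h
      exact ⟨l, by rw [hl]⟩

theorem own_card (J : Finset (Finset (Fin (k + 1)))) (b : Fin (k + 1)) (hb : b ∈ own J) :
    (own J).card = (univ.filter fun l : Fin k => b.succAbove l ∈ own J).card + 1 := by
  have h1 : own J = insert b ((univ.filter fun l : Fin k => b.succAbove l ∈ own J).image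
      b.succAbove) := by
    ext i
    simp only [mem_insert, mem_image, mem_filter, mem_univ, true_and]
    constructor
    · intro hi
      by_cases h : i = b
      · exact Or.inl h
      · obtain ⟨l, hl⟩ := Fin.exists_succAbove_eq h
        exact Or.inr ⟨l, by rw [hl]; exact hi, hl⟩
    · rintro (rfl | ⟨l, hl, rfl⟩)
      · exact hb
      · exact hl
  conv_lhs => rw [h1]
  rw [card_insert_of_notMem, card_image_of_injective _ Fin.succAbove_right_injective]
  intro h
  obtain ⟨l, _, hl⟩ := mem_image.1 h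
  exact Fin.succAbove_ne b l hl

/-- own positions: the other positions determine the tuple -/
theorem hom_own {s : ℕ} {F : Finset (Fin (k + 1) → Fin n)} {J : Finset (Finset (Fin (k + 1)))}
    (h : Hom s F J) {b : Fin (k + 1)} (hb : b ∈ own J) {e e' : Fin (k + 1) → Fin n}
    (he : e ∈ F) (he' : e' ∈ F) (heq : ∀ i, i ≠ b → e i = e' i) : e = e' := by
  by_contra hne
  have h1 := h.inter e he e' he' hne
  have h2 : agr e e' = univ.erase b := by
    ext i
    simp only [mem_agr, mem_univ, mem_erase, and_true]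
    constructor
    · rintro h3 rfl
      apply hne
      funext a
      by_cases h4 : a = i
      · rw [h4]; exact h3
      · exact heq a h4
    · exact heq i
  rw [h2] at h1
  exact (mem_filter.1 hb).2 h1

theorem hom_own' {s : ℕ} {F : Finset (Fin (k + 1) → Fin n)} {J : Finset (Finset (Fin (k + 1)))}
    (h : Hom s F J) {b : Fin (k + 1)} (hb : b ∈ own J) {e e' : Fin (k + 1) → Fin n}
    (he : e ∈ F) (he' : e' ∈ F) (heq : e ∘ b.succAbove = e' ∘ b.succAbove) : e = e' := by
  refine hom_own h hb he he' fun i hi => ?_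
  obtain ⟨l, hl⟩ := Fin.exists_succAbove_eq hi
  rw [← hl]
  exact congrFun heq l

/-- the box data -/
theorem data {s m : ℕ} (hk : 2 ≤ k) (hs : 2 * (k + 1) < s) {H : Finset (Finset (Fin n))}
    (F : Fin m → Finset (Fin (k + 1) → Fin n)) (P : Fin m → Fin n → Fin (k + 1))
    (J : Fin m → Finset (Finset (Fin (k + 1))))
    (hF : ∀ j, ∀ e ∈ F j, StrictMono e ∧ univ.image e ∈ H)
    (hdisj : ∀ i j, i ≠ j → Disjoint (F i) (F j)) (hHom : ∀ j, Hom s (F j) (J j))
    (hP : ∀ j, ∀ e ∈ F j, ∀ i, P j (e i) = i) (hcov : ∀ j, (F j).Nonempty → Cov (J j))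
    (β : Fin m → Option (Fin (k + 1))) (hβ : ∀ j b, β j = some b → b ∈ own (J j))
    (Y : Fin k → Finset (Fin n)) (W : Finset (Fin n)) (T : ℕ) (hT : 1 ≤ T)
    (hY : ∀ l, (Y l).card = T) (c : {j // β j ≠ none} → (Fin k → Fin n) → Fin n)
    (ec : {j // β j ≠ none} → (Fin k → Fin n) → Fin (k + 1) → Fin n)
    (bc : {j // β j ≠ none} → Fin (k + 1)) (hbc : ∀ j, β j.1 = some (bc j))
    (hec : ∀ (j : {j // β j ≠ none}) (x : Fin k → Fin n), Box Y x → ec j x ∈ F j.1 ∧ ec j x ∘ (bc j).succAbove = x ∧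
      c j x = ec j x (bc j))
    (hbox : ∀ x, Box Y x → StrictMono x ∧ (∀ l, x l ∉ W) ∧ ∀ j, c j x ∈ W) :
    BoxData s H Y (W : Set (Fin n)) c
      (fun j => univ.filter fun l : Fin k => (bc j).succAbove l ∈ own (J j.1)) := by
  have hYne : ∀ l, (Y l).Nonempty := fun l => by
    rw [← card_pos, hY l]
    omega
  have hpt : ∀ l, ∀ y ∈ Y l, ∃ x, Box Y x ∧ x l = y := by
    intro l y hy
    choose z hz using hYne
    refine ⟨Function.update z l y, fun l' => ?_, by simp⟩
    by_cases h : l' = l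
    · subst h; simpa using hy
    · simpa [Function.update_of_ne h] using hz l'
  have hpt2 : ∀ l l', l ≠ l' → ∀ y ∈ Y l, ∀ y' ∈ Y l', ∃ x, Box Y x ∧ x l = y ∧ x l' = y' := by
    intro l l' hl y hy y' hy'
    obtain ⟨x, hx, h1⟩ := hpt l y hy
    refine ⟨Function.update x l' y', fun a => ?_, by rw [Function.update_of_ne hl, h1], by simp⟩
    by_cases h : a = l'
    · subst h; simpa using hy'
    · simpa [Function.update_of_ne h] using hx a
  have hown : ∀ j : {j // β j ≠ none}, bc j ∈ own (J j.1) := fun j => hβ _ _ (hbc j)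
  have hcard3 : ∀ i i' : Fin (k + 1), ({i, i'} : Finset (Fin (k + 1))) ≠ univ := by
    intro i i' h
    have h1 := congrArg Finset.card h
    have h2 : ({i, i'} : Finset (Fin (k + 1))).card ≤ 2 := card_le_two
    rw [card_univ, Fintype.card_fin] at h1
    omega
  refine ⟨?_, ?_, ?_, ?_, ?_, ?_, ?_, ?_⟩
  · intro l l' hl
    rw [Finset.disjoint_left]
    intro v hv hv'
    obtain ⟨x, hx, h1, h2⟩ := hpt2 l l' hl v hv v hv'
    exact hl ((hbox x hx).1.injective (h1.trans h2.symm))
  · intro l y hy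
    obtain ⟨x, hx, rfl⟩ := hpt l y hy
    exact fun h => (hbox x hx).2.1 l h
  · intro j x hx
    exact (hbox x hx).2.2 j
  · intro j x hx
    obtain ⟨h1, h2, h3⟩ := hec j x hx
    have h4 := image_succAbove (ec j x) (bc j)
    rw [h2, ← h3] at h4
    have h5 := (hF _ _ h1).2
    rw [← h4] at h5
    exact (congrArg (fun E => E ∈ H) (ic_insert_image _ _ _ _)).mp h5
  · intro i j x hx hij heq
    obtain ⟨h1, h2, h3⟩ := hec i x hx
    obtain ⟨h1', h2', h3'⟩ := hec j x hx
    have h4 := image_succAbove (ec i x) (bc i)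
    have h4' := image_succAbove (ec j x) (bc j)
    rw [h2, ← h3] at h4
    rw [h2', ← h3', ← heq] at h4'
    have h5 := strictMono_image (hF _ _ h1).1 (hF _ _ h1').1 (h4.symm.trans h4')
    have h6 : (i : Fin m) ≠ j := fun h => hij (Subtype.ext h)
    exact Finset.disjoint_left.1 (hdisj _ _ h6) h1 (h5 ▸ h1')
  · intro j l l' hl
    set b := bc j with hb
    by_cases hA : ({b.succAbove l, b.succAbove l'} : Finset (Fin (k + 1))) ∈ J j.1
    · left
      intro y hy y' hy'
      obtain ⟨x, hx, rfl, rfl⟩ := hpt2 l l' hl y hy y' hy'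
      obtain ⟨h1, h2, h3⟩ := hec j x hx
      have h4 := rich_of_ker (hF j.1) (hP j.1) ((hHom j.1).ker _ h1 _ hA)
      have h5 := congrFun h2 l
      have h6 := congrFun h2 l'
      simp only [Function.comp_apply] at h5 h6
      rw [← hb] at h5 h6
      rw [h5, h6] at h4
      exact h4
    · right
      intro x x' hx hx' hl1 hl2
      obtain ⟨h1, h2, h3⟩ := hec j x hx
      obtain ⟨h1', h2', h3'⟩ := hec j x' hx'
      by_cases hee : ec j x = ec j x'
      · rw [h3, h3', hee]
      have h4 := (hHom j.1).inter _ h1 _ h1' hee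
      by_contra hcc
      have hbn : b ∉ agr (ec j x) (ec j x') := by
        intro h5
        apply hcc
        rw [h3, h3']
        exact (mem_agr _ _ _).1 h5
      have hcomp : ∀ a, ec j x (b.succAbove a) = x a := fun a => congrFun h2 a
      have hcomp' : ∀ a, ec j x' (b.succAbove a) = x' a := fun a => congrFun h2' a
      have hla : b.succAbove l ∈ agr (ec j x) (ec j x') := by
        rw [mem_agr, hcomp, hcomp', hl1]
      have hla' : b.succAbove l' ∈ agr (ec j x) (ec j x') := by
        rw [mem_agr, hcomp, hcomp', hl2]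
      have hFne : (F j.1).Nonempty := ⟨_, h1⟩
      have hZ : (insert b ({b.succAbove l, b.succAbove l'} : Finset (Fin (k + 1)))) ≠ univ := by
        intro hZ
        apply hee
        refine hom_own' (hHom j.1) (hown j) h1 h1' ?_
        rw [h2, h2']
        funext a
        have h5 : b.succAbove a ∈ insert b ({b.succAbove l, b.succAbove l'} :
            Finset (Fin (k + 1))) := by rw [hZ]; exact mem_univ _
        rw [mem_insert, mem_insert, mem_singleton] at h5
        rcases h5 with h5 | h5 | h5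
        · exact absurd h5 (Fin.succAbove_ne b a)
        · rw [Fin.succAbove_right_injective h5]; exact hl1
        · rw [Fin.succAbove_right_injective h5]; exact hl2
      have hA1 : (own (J j.1) \ {b.succAbove l, b.succAbove l'}).card = 1 := by
        by_contra h5
        exact hA ((hHom j.1).mem_J (by omega) hs hFne (hcov _ hFne) (hcard3 _ _) h5)
      have hbm : b ∈ own (J j.1) \ {b.succAbove l, b.succAbove l'} := by
        refine mem_sdiff.2 ⟨hown j, ?_⟩
        rw [mem_insert, mem_singleton, not_or]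
        exact ⟨(Fin.succAbove_ne b l).symm, (Fin.succAbove_ne b l').symm⟩
      have hZJ : insert b ({b.succAbove l, b.succAbove l'} : Finset (Fin (k + 1))) ∈ J j.1 := by
        refine (hHom j.1).mem_J (by omega) hs hFne (hcov _ hFne) hZ ?_
        have h5 : own (J j.1) \ insert b {b.succAbove l, b.succAbove l'} = ∅ := by
          rw [Finset.eq_empty_iff_forall_notMem]
          intro i hi
          obtain ⟨hi1, hi2⟩ := mem_sdiff.1 hi
          rw [mem_insert, not_or] at hi2
          have hi3 : i ∈ own (J j.1) \ {b.succAbove l, b.succAbove l'} :=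
            mem_sdiff.2 ⟨hi1, hi2.2⟩
          obtain ⟨a, ha⟩ := card_eq_one.1 hA1
          rw [ha, mem_singleton] at hi3 hbm
          exact hi2.1 (hi3.trans hbm.symm)
        rw [h5]
        simp
      apply hA
      have h6 := (hHom j.1).inter_mem hs hFne h4 hZJ
      have h7 : agr (ec j x) (ec j x') ∩ insert b {b.succAbove l, b.succAbove l'} =
          {b.succAbove l, b.succAbove l'} := by
        ext i
        simp only [mem_inter, mem_insert, mem_singleton]
        constructor
        · rintro ⟨h8, rfl | h9⟩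
          · exact absurd h8 hbn
          · exact h9
        · rintro (rfl | rfl)
          · exact ⟨hla, Or.inr (Or.inl rfl)⟩
          · exact ⟨hla', Or.inr (Or.inr rfl)⟩
      rw [h7] at h6
      exact h6
  · intro j hj x hx l
    obtain ⟨h1, h2, h3⟩ := hec j x hx
    have hFne : (F j.1).Nonempty := ⟨_, h1⟩
    have h4 : ({bc j, (bc j).succAbove l} : Finset (Fin (k + 1))) ∈ J j.1 := by
      refine (hHom j.1).mem_J (by omega) hs hFne (hcov _ hFne) (hcard3 _ _) ?_
      have h5 : own (J j.1) \ {bc j, (bc j).succAbove l} = ∅ := by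
        rw [Finset.eq_empty_iff_forall_notMem]
        intro i hi
        obtain ⟨hi1, hi2⟩ := mem_sdiff.1 hi
        rw [mem_insert, not_or] at hi2
        obtain ⟨a, ha⟩ := Fin.exists_succAbove_eq hi2.1
        have h6 : a ∈ (univ.filter fun l : Fin k => (bc j).succAbove l ∈ own (J j.1)) :=
          mem_filter.2 ⟨mem_univ _, by rw [ha]; exact hi1⟩
        rw [hj] at h6
        simp at h6
      rw [h5]
      simp
    have h5 := rich_of_ker (hF j.1) (hP j.1) ((hHom j.1).ker _ h1 _ h4)
    have h6 := congrFun h2 l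
    simp only [Function.comp_apply] at h6
    rw [h6, ← h3] at h5
    exact h5
  · intro j l hl x x' hx hx' hll hcc
    obtain ⟨h1, h2, h3⟩ := hec j x hx
    obtain ⟨h1', h2', h3'⟩ := hec j x' hx'
    have hcomp : ∀ a, ec j x ((bc j).succAbove a) = x a := fun a => congrFun h2 a
    have hcomp' : ∀ a, ec j x' ((bc j).succAbove a) = x' a := fun a => congrFun h2' a
    have h4 : ec j x = ec j x' := by
      refine hom_own (hHom j.1) (mem_filter.1 hl).2 h1 h1' fun i hi => ?_
      by_cases hib : i = bc j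
      · rw [hib, ← h3, ← h3']
        exact hcc
      · obtain ⟨a, rfl⟩ := Fin.exists_succAbove_eq hib
        rw [hcomp, hcomp']
        exact hll a fun h => hi (by rw [h])
    rw [← hcomp, ← hcomp', h4]

/-- an own position exists, if some pair is not rich -/
theorem own_nonempty {s : ℕ} (hk : 2 ≤ k) (hs : 2 * (k + 1) < s) {H H2 : Finset (Finset (Fin n))}
    (hsub : H2 ⊆ H) (hnr : ∀ E ∈ H2, ∃ u ∈ E, ∃ v ∈ E, u ≠ v ∧ ¬ Rich s H u v)
    {F : Finset (Fin (k + 1) → Fin n)} {P : Fin n → Fin (k + 1)}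
    {J : Finset (Finset (Fin (k + 1)))}
    (hF : ∀ e ∈ F, StrictMono e ∧ univ.image e ∈ H2) (hHom : Hom s F J)
    (hP : ∀ e ∈ F, ∀ i, P (e i) = i) (hne : F.Nonempty) (hcov : Cov J) : (own J).Nonempty := by
  obtain ⟨e, he⟩ := hne
  obtain ⟨u, hu, v, hv, huv, hr⟩ := hnr _ (hF e he).2
  obtain ⟨i, _, rfl⟩ := mem_image.1 hu
  obtain ⟨i', _, rfl⟩ := mem_image.1 hv
  by_contra hemp
  rw [Finset.not_nonempty_iff_eq_empty] at hemp
  apply hr
  refine rich_of_ker (F := F) (fun e he => ⟨(hF e he).1, hsub (hF e he).2⟩) hP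
    (hHom.ker e he {i, i'} ?_)
  refine hHom.mem_J (by omega) hs ⟨e, he⟩ hcov ?_ (by rw [hemp]; simp)
  intro h
  have h1 := congrArg Finset.card h
  have h2 : ({i, i'} : Finset (Fin (k + 1))).card ≤ 2 := card_le_two
  rw [card_univ, Fintype.card_fin] at h1
  omega

theorem choose_ge (n k : ℕ) (h : 2 * k ≤ n) :
    (n : ℝ) ^ k / (2 ^ k * (k.factorial : ℝ)) ≤ (n.choose k : ℝ) := by
  have h1 := Nat.pow_le_choose (α := ℝ) k n
  refine le_trans ?_ h1
  rw [div_le_div_iff₀ (by positivity) (by positivity)]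
  have h2 : (n : ℝ) / 2 ≤ ((n + 1 - k : ℕ) : ℝ) := by
    rw [Nat.cast_sub (by omega)]
    push_cast
    have : (2 * k : ℝ) ≤ n := by exact_mod_cast h
    linarith
  have h3 : ((n : ℝ) / 2) ^ k ≤ ((n + 1 - k : ℕ) : ℝ) ^ k :=
    pow_le_pow_left₀ (by positivity) h2 k
  have h4 : (n : ℝ) ^ k = ((n : ℝ) / 2) ^ k * 2 ^ k := by
    rw [← mul_pow]
    congr 1
    ring
  rw [h4]
  have h5 : (0 : ℝ) ≤ 2 ^ k * (k.factorial : ℝ) := by positivity
  nlinarith [mul_le_mul_of_nonneg_right h3 h5]

end UB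

open UB

theorem box_data_exists (k s : ℕ) (hk : 2 ≤ k) (hs : 2 * (k + 1) < s) (σ ε : ℝ) (hσ : 0 ≤ σ)
    (hε : 0 < ε) : ∃ m : ℕ, ∀ T : ℕ, ∀ᶠ n : ℕ in atTop, ∀ H H1 : Finset (Finset (Fin n)),
    (∀ E ∈ H, E.card = k + 1) → H1 ⊆ H →
    (∀ E ∈ H1, ∃ u ∈ E, ∃ v ∈ E, u ≠ v ∧ ¬ Rich s H u v) →
    (σ + ε) * (n.choose k : ℝ) ≤ H1.card →
    ∃ (ι : Type) (_ : Fintype ι) (Y : Fin k → Finset (Fin n)) (W : Set (Fin n))
      (c : ι → (Fin k → Fin n) → Fin n) (Λ : ι → Finset (Fin k)),
      Fintype.card ι ≤ m ∧ BoxData s H Y W c Λ ∧ (∀ l, T ≤ (Y l).card) ∧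
      σ < ∑ j, 1 / (((Λ j).card : ℝ) + 1) := by
  set δ : ℝ := ε / (4 * (σ + ε + 1)) with hδ
  have hδ0 : 0 < δ := by positivity
  obtain ⟨m, hm⟩ := decomp (k + 1) s (by omega) δ hδ0
  refine ⟨m, fun T => ?_⟩
  obtain ⟨η, hη, hpat⟩ := pattern k m σ (ε / 2) hσ (by linarith)
  set D : ℝ := 2 ^ k * (k.factorial : ℝ) with hD
  have hD0 : 0 < D := by positivity
  set η' : ℝ := η / (D * 2 ^ (k + m)) with hη'
  have hη'0 : 0 < η' := by positivity
  obtain ⟨n0, hn0⟩ := box_exists k (max T 1) η' hη'0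
  filter_upwards [eventually_ge_atTop n0, eventually_ge_atTop (2 * k),
    eventually_ge_atTop ⌈4 * m * D / ε⌉₊, eventually_ge_atTop 1] with n hn1 hn2 hn3 hn4
  intro H H1 hH hH1 hnr hcard
  set C : ℝ := (n.choose k : ℝ) with hC
  have hC1 : 1 ≤ C := by
    have : 1 ≤ n.choose k := Nat.succ_le_of_lt (Nat.choose_pos (by omega))
    rw [hC]
    exact_mod_cast this
  have hCge : (n : ℝ) ^ k / D ≤ C := choose_ge n k hn2
  have hn0' : (0 : ℝ) < n := by exact_mod_cast hn4
  -- the negligible families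
  have hsmall : (m : ℝ) * (n : ℝ) ^ (k - 1) ≤ ε / 4 * C := by
    have h1 : 4 * m * D / ε ≤ n := (Nat.le_ceil _).trans (by exact_mod_cast hn3)
    rw [div_le_iff₀ hε] at h1
    have h2 : (n : ℝ) ^ k = n * (n : ℝ) ^ (k - 1) := by
      rw [← pow_succ']
      congr 1
      omega
    have h3 : (m : ℝ) * (n : ℝ) ^ (k - 1) ≤ ε / 4 * ((n : ℝ) ^ k / D) := by
      rw [h2]
      have e1 : ε / 4 * (n * (n : ℝ) ^ (k - 1) / D) = (ε * n / (4 * D)) * (n : ℝ) ^ (k - 1) := by
        field_simp
      rw [e1]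
      apply mul_le_mul_of_nonneg_right _ (by positivity)
      rw [le_div_iff₀ (by positivity)]
      linarith
    refine h3.trans (mul_le_mul_of_nonneg_left hCge (by positivity))
  -- the subfamily
  obtain ⟨H2, hH21, hH2c⟩ : ∃ H2 ⊆ H1, H2.card = ⌈(σ + ε) * C⌉₊ :=
    Finset.exists_subset_card_eq (Nat.ceil_le.2 hcard)
  have hH2lo : (σ + ε) * C ≤ H2.card := by rw [hH2c]; exact Nat.le_ceil _
  have hH2hi : (H2.card : ℝ) ≤ (σ + ε + 1) * C := by
    rw [hH2c]
    have := (Nat.ceil_lt_add_one (show 0 ≤ (σ + ε) * C by positivity)).le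
    linarith
  set F : Finset (Fin (k + 1) → Fin n) := tup k H2 with hFdef
  have hFc : F.card = H2.card := tup_card H2 fun E hE => hH E (hH1 (hH21 hE))
  have hFm : ∀ e ∈ F, StrictMono e ∧ univ.image e ∈ H2 := fun e he => (mem_filter.1 he).2
  obtain ⟨F', P, J, hF'sub, hF'disj, hHom, hP, hsum⟩ := hm n F
    fun e he => (hFm e he).1.injective
  set G : Fin m → Finset (Fin (k + 1) → Fin n) := fun j =>
    if Cov (J j) then F' j else ∅ with hG
  have hGsub : ∀ j, G j ⊆ F' j := by
    intro j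
    simp only [hG]
    split_ifs
    · exact Subset.rfl
    · exact empty_subset _
  have hGcov : ∀ j, (G j).Nonempty → Cov (J j) ∧ G j = F' j := by
    intro j hj
    simp only [hG] at hj ⊢
    split_ifs at hj ⊢ with h
    · exact ⟨h, rfl⟩
    · simp at hj
  have hGsum : ∑ j, ((F' j).card : ℝ) ≤ ∑ j, ((G j).card : ℝ) + m * (n : ℝ) ^ (k - 1) := by
    have h1 : ∀ j, ((F' j).card : ℝ) ≤ ((G j).card : ℝ) + (n : ℝ) ^ (k - 1) := by
      intro j
      by_cases h : Cov (J j)
      · simp only [hG, if_pos h]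
        have : (0 : ℝ) ≤ (n : ℝ) ^ (k - 1) := by positivity
        linarith
      · simp only [hG, if_neg h]
        have h2 := (hHom j).card_le (by omega) h
        have h3 : ((F' j).card : ℝ) ≤ (n : ℝ) ^ (k - 1) := by exact_mod_cast h2
        simpa using h3
    calc ∑ j, ((F' j).card : ℝ) ≤ ∑ j : Fin m, (((G j).card : ℝ) + (n : ℝ) ^ (k - 1)) :=
          Finset.sum_le_sum fun j _ => h1 j
      _ = _ := by
          rw [Finset.sum_add_distrib, Finset.sum_const, card_univ, Fintype.card_fin,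
            nsmul_eq_mul]
  have hGm : ∀ j, ∀ e ∈ G j, StrictMono e ∧ univ.image e ∈ H2 :=
    fun j e he => hFm e (hF'sub j (hGsub j he))
  have hGHom : ∀ j, (G j).Nonempty → Hom s (G j) (J j) := by
    intro j hj
    rw [(hGcov j hj).2]
    exact hHom j
  have hGown : ∀ j, (G j).Nonempty → (own (J j)).Nonempty := by
    intro j hj
    refine own_nonempty hk hs (H := H) (H2 := H2) (hH21.trans hH1)
      (fun E hE => hnr E (hH21 hE)) (hGm j) (hGHom j hj)
      (fun e he => hP j e (hGsub j he)) hj (hGcov j hj).1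
  obtain ⟨β, hβ1, hβ2, hβ3⟩ := hpat n (by omega) G (fun j => own (J j))
    (fun j e he => (hGm j e he).1)
    (fun j b hb e he e' he' h => hom_own' (hGHom j ⟨e, he⟩) hb he he' h)
    (fun j b _ b' _ e he e' he' h => by
      have h1 : b.succAbove = b'.succAbove := by
        funext l
        have h2 := congrFun h l
        simp only [Function.comp_apply] at h2
        rw [← hP j e (hGsub j he) (b.succAbove l), h2, hP j e' (hGsub j he')]
      exact Fin.succAbove_left_injective h1)
    hGown (by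
      have h1 : (F.card : ℝ) = H2.card := by rw [hFc]
      have h2 : δ * (F.card : ℝ) ≤ ε / 4 * C := by
        rw [h1]
        calc δ * (H2.card : ℝ) ≤ δ * ((σ + ε + 1) * C) :=
              mul_le_mul_of_nonneg_left hH2hi hδ0.le
          _ = ε / 4 * C := by
              rw [hδ]
              field_simp
      have h3 : (σ + ε) * C ≤ F.card := by rw [h1]; exact hH2lo
      have h4 : (σ + ε / 2) * C = (σ + ε) * C - ε / 4 * C - ε / 4 * C := by ring
      rw [h4]
      linarith)
  -- the centres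
  have hβs : ∀ j : {j // β j ≠ none}, ∃ b, β j.1 = some b := fun j =>
    Option.ne_none_iff_exists'.1 j.2
  choose bc hbc using hβs
  set S0 : Finset (Fin k → Fin n) := univ.filter fun x : Fin k → Fin n => StrictMono x ∧
    ∀ j b, β j = some b → ∃ e ∈ G j, e ∘ b.succAbove = x with hS0
  have hS0m : ∀ x ∈ S0, StrictMono x ∧ ∀ j : {j // β j ≠ none}, ∃ e ∈ G j.1,
      e ∘ (bc j).succAbove = x := by
    intro x hx
    obtain ⟨_, h1, h2⟩ := mem_filter.1 hx
    exact ⟨h1, fun j => h2 j.1 (bc j) (hbc j)⟩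
  have hec : ∀ (j : {j // β j ≠ none}) (x : Fin k → Fin n), ∃ e : Fin (k + 1) → Fin n,
      x ∈ S0 → e ∈ G j.1 ∧ e ∘ (bc j).succAbove = x := by
    intro j x
    by_cases hx : x ∈ S0
    · obtain ⟨e, he, he'⟩ := (hS0m x hx).2 j
      exact ⟨e, fun _ => ⟨he, he'⟩⟩
    · exact ⟨fun _ => x ⟨0, by omega⟩, fun h => absurd h hx⟩
  choose ec hec using hec
  obtain ⟨W, hW⟩ := choose_W S0 (fun j x => ec j x (bc j)) (by
    intro j x hx l
    obtain ⟨h1, h2⟩ := hec j x hx
    rw [← h2]
    simp only [Function.comp_apply]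
    rw [h2]
    intro h3
    exact Fin.succAbove_ne (bc j) l (((hGm _ _ h1).1.injective h3).symm))
  set S1 : Finset (Fin k → Fin n) := S0.filter fun x => (∀ l, x l ∉ W) ∧
    ∀ j : {j // β j ≠ none}, ec j x (bc j) ∈ W with hS1
  have hcardι : Fintype.card {j // β j ≠ none} ≤ m := by
    refine (Fintype.card_subtype_le _).trans ?_
    simp
  have hS1c : η' * (n : ℝ) ^ k ≤ S1.card := by
    have h1 : (S0.card : ℝ) ≤ 2 ^ (k + m) * S1.card := by
      have h2 : (S0.card : ℝ) ≤ 2 ^ (k + Fintype.card {j // β j ≠ none}) * S1.card := by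
        exact_mod_cast hW
      refine h2.trans (mul_le_mul_of_nonneg_right ?_ (Nat.cast_nonneg _))
      exact pow_le_pow_right₀ (by norm_num) (by omega)
    have h2 : η * C ≤ S0.card := by
      refine hβ3.trans (le_of_eq ?_)
      congr 1
    have h3 : η * ((n : ℝ) ^ k / D) ≤ η * C := mul_le_mul_of_nonneg_left hCge hη.le
    have h4 : η * ((n : ℝ) ^ k / D) ≤ 2 ^ (k + m) * S1.card := by linarith
    calc η' * (n : ℝ) ^ k = η * ((n : ℝ) ^ k / D) / 2 ^ (k + m) := by
          rw [hη']
          field_simp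
      _ ≤ S1.card := by
          rw [div_le_iff₀ (by positivity)]
          linarith
  obtain ⟨Y, hY1, hY2⟩ := hn0 n hn1 S1 hS1c
  have hY3 : ∀ x, Box Y x → x ∈ S0 ∧ (∀ l, x l ∉ W) ∧
      ∀ j : {j // β j ≠ none}, ec j x (bc j) ∈ W := by
    intro x hx
    obtain ⟨h1, h2, h3⟩ := mem_filter.1 (hY2 x hx)
    exact ⟨h1, h2, h3⟩
  have hGHom' : ∀ j, Hom s (G j) (J j) := by
    intro j
    by_cases hj : (G j).Nonempty
    · exact hGHom j hj
    · rw [Finset.not_nonempty_iff_eq_empty.1 hj]
      exact ⟨by simp, by simp, (hHom j).proper⟩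
  refine ⟨{j // β j ≠ none}, inferInstance, Y, (W : Set (Fin n)), fun j x => ec j x (bc j),
    fun j => univ.filter fun l : Fin k => (bc j).succAbove l ∈ own (J j.1), hcardι, ?_, ?_, ?_⟩
  · exact data hk hs G P J (fun j e he => ⟨(hGm j e he).1, hH1 (hH21 (hGm j e he).2)⟩)
      (fun i j hij => Finset.disjoint_of_subset_left (hGsub i)
        (Finset.disjoint_of_subset_right (hGsub j) (hF'disj i j hij))) hGHom'
      (fun j e he => hP j e (hGsub j he)) (fun j hj => (hGcov j hj).1) β hβ1 Y W (max T 1)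
      (le_max_right _ _) hY1 _ ec bc hbc
      (fun j x hx => ⟨(hec j x (hY3 x hx).1).1, (hec j x (hY3 x hx).1).2, rfl⟩)
      (fun x hx => ⟨(hS0m x (hY3 x hx).1).1, (hY3 x hx).2⟩)
  · intro l
    rw [hY1 l]
    exact le_max_left _ _
  · refine lt_of_lt_of_le hβ2 (le_of_eq ?_)
    have e1 : ∑ j, (if β j = none then (0 : ℝ) else 1 / ((own (J j)).card : ℝ)) =
        ∑ j ∈ univ.filter (fun j => β j ≠ none), 1 / ((own (J j)).card : ℝ) := by
      rw [Finset.sum_filter]
      refine Finset.sum_congr rfl fun j _ => ?_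
      by_cases h : β j = none
      · simp [h]
      · simp [h]
    rw [e1, Finset.sum_subtype (univ.filter (fun j => β j ≠ none)) (p := fun j => β j ≠ none)
      (fun x => by simp)]
    refine Finset.sum_congr rfl fun j _ => ?_
    rw [own_card (J j.1) (bc j) (hβ1 _ _ (hbc j))]
    push_cast
    rfl

end

end EX
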