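import Pool.Agent.Helper89.EX.FB
import Pool.Agent.Helper89.EX.UB

/-!
# MP_5176ab_co: the upper bound (module MA)
-/

set_option autoImplicit false

namespace EX

open Finset SimpleGraph Filter Topology

open scoped Classical

noncomputable section

theorem exr_spec {W : Type} (r n : ℕ) (F : Finset (Finset W)) (h : 0 < exr r n F) :
    ∃ H : Finset (Finset (Fin n)), (∀ E ∈ H, E.card = r) ∧ ¬ Contains H F ∧
      H.card = exr r n F := by
  have hb : BddAbove {m | ∃ H : Finset (Finset (Fin n)), (∀ E ∈ H, E.card = r) ∧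
      ¬ Contains H F ∧ H.card = m} := by
    refine ⟨Fintype.card (Finset (Fin n)), ?_⟩
    rintro m ⟨H, _, _, rfl⟩
    exact card_le_univ H
  have hne : {m | ∃ H : Finset (Finset (Fin n)), (∀ E ∈ H, E.card = r) ∧
      ¬ Contains H F ∧ H.card = m}.Nonempty := by
    by_contra hcon
    rw [Set.not_nonempty_iff_eq_empty] at hcon
    unfold exr at h
    rw [hcon] at h
    simp at h
  exact Nat.sSup_mem hne hb

theorem le_exK {U : Type} (n r : ℕ) (G : SimpleGraph U) (K : SimpleGraph (Fin n))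
    (hK : G.Free K) : (K.cliqueFinset r).card ≤ exK n r G := by
  refine le_csSup ⟨Fintype.card (Finset (Fin n)), ?_⟩ ⟨K, hK, rfl⟩
  rintro m ⟨K, _, rfl⟩
  exact card_le_univ _

theorem main_upper' {U : Type} [Fintype U] (k : ℕ) (hk : 2 ≤ k) (G : SimpleGraph U)
    (I : Finset U) (hI : ∀ u ∈ I, ∀ v ∈ I, ¬ G.Adj u v) (ψ : U → Fin k)
    (hψ : ∀ u v, G.Adj u v → ψ u ≠ ψ v) (c0 : Fin k) (hc0 : ∀ u ∈ I, ψ u ≠ c0)
    (hcost : 1 ≤ cost G I) (ε : ℝ) (hε : 0 < ε) :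
    ∀ᶠ n : ℕ in atTop, (exr (k + 1) n (expansion (k + 1) G) : ℝ) ≤
      exK n (k + 1) G + ((cost G I : ℝ) - 1 + ε) * (n.choose k : ℝ) := by
  set s := sN k G with hs
  have hs2 : 2 * (k + 1) < s := by
    rw [hs]
    unfold sN
    omega
  have hσ : (0 : ℝ) ≤ (cost G I : ℝ) - 1 := by
    have : (1 : ℝ) ≤ (cost G I : ℝ) := by exact_mod_cast hcost
    linarith
  obtain ⟨m, hm⟩ := box_data_exists k s hk hs2 ((cost G I : ℝ) - 1) ε hσ hε
  obtain ⟨T, hT⟩ := box_embeds k m hk G I hI ψ hψ c0 hc0 hcost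
  filter_upwards [hm T] with n hn
  by_contra hcon
  rw [not_le] at hcon
  have hC : (0 : ℝ) ≤ (n.choose k : ℝ) := Nat.cast_nonneg _
  have hpos : 0 < exr (k + 1) n (expansion (k + 1) G) := by
    have h1 : (0 : ℝ) < (exr (k + 1) n (expansion (k + 1) G) : ℝ) := by
      refine lt_of_le_of_lt ?_ hcon
      positivity
    exact_mod_cast h1
  obtain ⟨H, hH, hfree, hcard⟩ := exr_spec _ _ _ hpos
  -- the rich graph
  obtain ⟨K, hK⟩ : ∃ K : SimpleGraph (Fin n), ∀ u v, K.Adj u v ↔ u ≠ v ∧ Rich s H u v :=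
    ⟨{ Adj := fun u v => u ≠ v ∧ Rich s H u v
       symm := ⟨fun u v h => ⟨h.1.symm, FB.Rich.symm h.2⟩⟩
       loopless := ⟨fun u h => h.1 rfl⟩ }, fun _ _ => Iff.rfl⟩
  have hKfree : G.Free K := by
    rintro ⟨f⟩
    apply hfree
    refine embed k (by omega) H hH G (fun u => f u) f.injective ∅ (by simp) (fun _ => ∅)
      (by simp) (by simp) (by simp) ?_
    intro u v huv _
    exact ((hK _ _).1 (f.toHom.map_adj huv)).2
  set Hc : Finset (Finset (Fin n)) := H.filter fun E => ∀ u ∈ E, ∀ v ∈ E, u ≠ v → Rich s H u v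
    with hHc
  set H1 : Finset (Finset (Fin n)) := H.filter fun E =>
    ¬ ∀ u ∈ E, ∀ v ∈ E, u ≠ v → Rich s H u v with hH1
  have hsum : Hc.card + H1.card = H.card := by
    rw [hHc, hH1]
    exact Finset.card_filter_add_card_filter_not _
  have hHcc : Hc.card ≤ exK n (k + 1) G := by
    refine le_trans (card_le_card ?_) (le_exK n (k + 1) G K hKfree)
    intro E hE
    obtain ⟨h1, h2⟩ := mem_filter.1 hE
    rw [SimpleGraph.mem_cliqueFinset_iff, SimpleGraph.isNClique_iff]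
    exact ⟨fun u hu v hv huv => (hK u v).2 ⟨huv, h2 u hu v hv huv⟩, hH E h1⟩
  have hH1c : ((cost G I : ℝ) - 1 + ε) * (n.choose k : ℝ) ≤ (H1.card : ℝ) := by
    have h1 : (Hc.card : ℝ) + H1.card = (exr (k + 1) n (expansion (k + 1) G) : ℝ) := by
      rw [← hcard, ← hsum]
      push_cast
      rfl
    have h2 : (Hc.card : ℝ) ≤ exK n (k + 1) G := by exact_mod_cast hHcc
    linarith
  obtain ⟨ι, hι, Y, W, c, Λ, hcι, hD, hY, hw⟩ := hn H H1 hH (filter_subset _ _) (by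
    intro E hE
    obtain ⟨_, h2⟩ := mem_filter.1 hE
    push Not at h2
    exact h2) hH1c
  exact hfree (hT (Fin n) ι H Y W c Λ hcι hH hD hY hw)

theorem main_upper {U : Type} [Fintype U] (r : ℕ) (hr : 3 ≤ r) (G : SimpleGraph U)
    (I : Finset U) (hI : ∀ u ∈ I, ∀ v ∈ I, ¬ G.Adj u v) (ψ : U → Fin (r - 1))
    (hψ : ∀ u v, G.Adj u v → ψ u ≠ ψ v) (c0 : Fin (r - 1)) (hc0 : ∀ u ∈ I, ψ u ≠ c0)
    (hcost : 1 ≤ cost G I) (ε : ℝ) (hε : 0 < ε) :
    ∀ᶠ n : ℕ in atTop, (exr r n (expansion r G) : ℝ) ≤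
      exK n r G + ((cost G I : ℝ) - 1 + ε) * (n.choose (r - 1) : ℝ) := by
  obtain ⟨k, rfl⟩ : ∃ k, r = k + 1 := ⟨r - 1, by omega⟩
  exact main_upper' k (by omega) G I hI ψ hψ c0 hc0 hcost ε hε

end

end EX
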