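import Pool.Agent.Helper89.EX.Defs2
import Pool.Agent.Helper89.EX.MA
import Pool.Agent.Helper80.EX.LW

/-!
# MP_5176ab_co: from independent sets to crosscuts, and asymptotics of binomial coefficients
-/

set_option autoImplicit false

namespace EX

open Finset SimpleGraph Filter Topology

open scoped Classical

noncomputable section

/-- from a minimum crosscut one gets an independent set with the same cost -/
theorem exists_I {U : Type} [Fintype U] (r : ℕ) (hr : 3 ≤ r) (G : SimpleGraph U)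
    (X : Finset (XV r G)) (hX : IsCrosscut (expansion r G) X)
    (hXc : X.card = crosscutNumber (expansion r G)) :
    ∃ I : Finset U, (∀ u ∈ I, ∀ v ∈ I, ¬ G.Adj u v) ∧ (∀ u, u ∈ I ↔ Sum.inl u ∈ X) ∧
      cost G I = crosscutNumber (expansion r G) := by
  have hXe : ∀ e : G.edgeSet, (xEdge r G e ∩ X).card = 1 := fun e => by
    exact (congrArg Finset.card (ic_inter _ _ _ _)).trans
      (hX (xEdge r G e) (Finset.mem_image_of_mem _ (Finset.mem_univ e)))
  set I : Finset U := univ.filter fun u => (Sum.inl u : XV r G) ∈ X with hIdef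
  have hI : ∀ u ∈ I, ∀ v ∈ I, ¬ G.Adj u v := by
    intro u hu v hv huv
    have h1 := hXe ⟨s(u, v), huv⟩
    obtain ⟨x, hx⟩ := Finset.card_eq_one.1 h1
    have h2 : (Sum.inl u : XV r G) ∈ xEdge r G ⟨s(u, v), huv⟩ ∩ X :=
      Finset.mem_inter.2 ⟨(inl_mem_xEdge r G _ u).2 (Sym2.mem_mk_left u v),
        (Finset.mem_filter.1 hu).2⟩
    have h3 : (Sum.inl v : XV r G) ∈ xEdge r G ⟨s(u, v), huv⟩ ∩ X :=
      Finset.mem_inter.2 ⟨(inl_mem_xEdge r G _ v).2 (Sym2.mem_mk_right u v),
        (Finset.mem_filter.1 hv).2⟩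
    rw [hx, Finset.mem_singleton] at h2 h3
    exact huv.ne (Sum.inl_injective (h2.trans h3.symm))
  refine ⟨I, hI, fun u => by simp [hIdef], le_antisymm ?_ (crosscut_le_cost r hr G I hI)⟩
  rw [← hXc]
  have hch : ∀ e : G.edgeSet, (∀ u ∈ I, u ∉ (e : Sym2 U)) →
      ∃ i : Fin (r - 2), (Sum.inr (e, i) : XV r G) ∈ X := by
    intro e he
    obtain ⟨x, hx⟩ := Finset.card_eq_one.1 (hXe e)
    have hxm : x ∈ xEdge r G e ∩ X := by rw [hx]; exact Finset.mem_singleton_self _
    obtain ⟨hx1, hx2⟩ := Finset.mem_inter.1 hxm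
    rcases x with u | ⟨e', i⟩
    · exact absurd ((inl_mem_xEdge r G e u).1 hx1)
        (he u (Finset.mem_filter.2 ⟨Finset.mem_univ _, hx2⟩))
    · have h := (inr_mem_xEdge r G e (e', i)).1 hx1
      simp only at h
      subst h
      exact ⟨i, hx2⟩
  have hsub : I.card + (G.edgeFinset.filter fun e => ∀ u ∈ I, u ∉ e).card =
      (I.disjSum (G.edgeFinset.filter fun e => ∀ u ∈ I, u ∉ e)).card := by
    rw [Finset.card_disjSum]
  rw [cost, hsub]
  have himg : I.disjSum (G.edgeFinset.filter fun e => ∀ u ∈ I, u ∉ e) ⊆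
      X.image (fun x => Sum.elim (fun u => (Sum.inl u : U ⊕ Sym2 U))
        (fun q => Sum.inr (q.1 : Sym2 U)) x) := by
    intro y hy
    rcases y with u | e
    · have hu : u ∈ I := Finset.inl_mem_disjSum.1 hy
      exact Finset.mem_image.2 ⟨Sum.inl u, (Finset.mem_filter.1 hu).2, rfl⟩
    · have he := Finset.inr_mem_disjSum.1 hy
      obtain ⟨he1, he2⟩ := Finset.mem_filter.1 he
      obtain ⟨i, hi⟩ := hch ⟨e, (SimpleGraph.mem_edgeFinset.1 he1)⟩ he2
      exact Finset.mem_image.2 ⟨_, hi, rfl⟩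
  exact (Finset.card_le_card himg).trans Finset.card_image_le

/-- a minimum crosscut exists -/
theorem exists_min {U : Type} [Fintype U] (r : ℕ) (hr : 3 ≤ r) (G : SimpleGraph U) :
    ∃ X : Finset (XV r G), IsCrosscut (expansion r G) X ∧
      X.card = crosscutNumber (expansion r G) := by
  have hne : {m | ∃ X : Finset (XV r G), IsCrosscut (expansion r G) X ∧ X.card = m}.Nonempty :=
    ⟨_, xcut r hr G ∅, xcut_isCrosscut r hr G ∅ (by simp), rfl⟩
  exact Nat.sInf_mem hne

/-- if `G` is `(r - 2)`-colourable then one of the `r - 1` colour classes can be taken empty -/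
theorem avoids_of_colorable {U : Type} [Fintype U] (r : ℕ) (hr : 3 ≤ r) (G : SimpleGraph U)
    (h : G.Colorable (r - 2)) : AvoidsClass r G := by
  obtain ⟨X, hX, hXc⟩ := exists_min r hr G
  obtain ⟨ψ⟩ := h
  refine ⟨X, hX, hXc, ⟨fun u => ⟨(ψ u : ℕ), by have := (ψ u).2; omega⟩, ?_⟩,
    ⟨r - 2, by omega⟩, ?_⟩
  · intro u v huv heq
    apply ψ.valid huv
    simp only [Fin.mk.injEq] at heq
    exact Fin.ext heq
  · intro u hu
    exfalso
    have h1 : (ψ u : ℕ) = r - 2 := congrArg Fin.val hu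
    have h2 := (ψ u).2
    omega

theorem one_le_cost {U : Type} [Fintype U] (G : SimpleGraph U) (hG : G ≠ ⊥) (I : Finset U) :
    1 ≤ cost G I := by
  obtain ⟨u, v, huv⟩ := SimpleGraph.ne_bot_iff_exists_adj.1 hG
  unfold cost
  by_cases hI : I = ∅
  · have h1 : s(u, v) ∈ G.edgeFinset.filter fun e => ∀ u ∈ I, u ∉ e := by
      rw [Finset.mem_filter]
      refine ⟨by rw [SimpleGraph.mem_edgeFinset]; exact huv, ?_⟩
      intro w hw
      simp [hI] at hw
    have := Finset.card_pos.2 ⟨_, h1⟩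
    omega
  · have := Finset.card_pos.2 (Finset.nonempty_iff_ne_empty.2 hI)
    omega

/-- `(n - a choose k) / (n choose k)` tends to `1` -/
theorem choose_ratio (a k : ℕ) (ε : ℝ) (hε : 0 < ε) :
    ∀ᶠ n : ℕ in atTop, (1 - ε) * (n.choose k : ℝ) ≤ ((n - a).choose k : ℝ) := by
  have h1 : Tendsto (fun n : ℕ => (((n - a).choose k : ℕ) : ℝ) / (n.choose k : ℝ)) atTop
      (𝓝 1) := by
    have e1 : Asymptotics.IsEquivalent atTop (fun n : ℕ => ((n.choose k : ℕ) : ℝ))
        fun n : ℕ => (n : ℝ) ^ k / (k.factorial : ℝ) := isEquivalent_choose k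
    have e2 : Asymptotics.IsEquivalent atTop (fun n : ℕ => (((n - a).choose k : ℕ) : ℝ))
        fun n : ℕ => (((n - a : ℕ) : ℝ)) ^ k / (k.factorial : ℝ) :=
      e1.comp_tendsto (tendsto_sub_atTop_nat a)
    have e3 : Asymptotics.IsEquivalent atTop (fun n : ℕ => (((n - a : ℕ) : ℝ)))
        fun n : ℕ => (n : ℝ) := by
      rw [Asymptotics.isEquivalent_iff_tendsto_one]
      · have : Tendsto (fun n : ℕ => 1 - (a : ℝ) / (n : ℝ)) atTop (𝓝 (1 - 0)) :=
          tendsto_const_nhds.sub (tendsto_const_div_atTop_nhds_zero_nat (a : ℝ))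
        rw [sub_zero] at this
        refine this.congr' ?_
        filter_upwards [eventually_ge_atTop (a + 1)] with n hn
        have hn0 : (n : ℝ) ≠ 0 := by
          have : 0 < n := by omega
          positivity
        simp only [Pi.div_apply]
        rw [Nat.cast_sub (by omega)]
        field_simp
      · filter_upwards [eventually_ge_atTop 1] with n hn
        have : 0 < n := by omega
        positivity
    have e4 := (e2.trans ((e3.pow k).div (Asymptotics.IsEquivalent.refl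
      (u := fun _ : ℕ => (k.factorial : ℝ))))).trans e1.symm
    rw [Asymptotics.isEquivalent_iff_tendsto_one] at e4
    · exact e4
    · filter_upwards [eventually_ge_atTop k] with n hn
      have := Nat.choose_pos hn
      positivity
  have h2 := h1.eventually (lt_mem_nhds (show (1 - ε : ℝ) < 1 by linarith))
  filter_upwards [h2, eventually_ge_atTop k] with n hn hn2
  have h3 : (0 : ℝ) < (n.choose k : ℝ) := by exact_mod_cast Nat.choose_pos hn2
  rw [lt_div_iff₀ h3] at hn
  exact hn.le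

/-- the lower bound from the crosscut, asymptotically -/
theorem lower_crosscut' {W : Type} (F : Finset (Finset W)) (r : ℕ) (hr : 1 ≤ r)
    (h1 : 1 ≤ crosscutNumber F) (ε : ℝ) (hε : 0 < ε) :
    ∀ᶠ n : ℕ in atTop, ((crosscutNumber F : ℝ) - 1 - ε) * (n.choose (r - 1) : ℝ) ≤ exr r n F := by
  set σ := crosscutNumber F with hσ
  have hσ0 : (0 : ℝ) < σ := by exact_mod_cast h1
  filter_upwards [choose_ratio (σ - 1) (r - 1) (ε / σ) (by positivity),
    eventually_ge_atTop (σ - 1)] with n hn1 hn2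
  have h2 := lower_crosscut F r n hr hn2 h1
  have h3 : (((σ - 1 : ℕ) : ℝ)) * ((n - (σ - 1)).choose (r - 1) : ℝ) ≤ exr r n F := by
    exact_mod_cast h2
  have h4 : ((σ - 1 : ℕ) : ℝ) = (σ : ℝ) - 1 := by rw [Nat.cast_sub h1, Nat.cast_one]
  rw [h4] at h3
  have h5 : (0 : ℝ) ≤ (σ : ℝ) - 1 := by
    have : (1 : ℝ) ≤ σ := by exact_mod_cast h1
    linarith
  have hC : (0 : ℝ) ≤ (n.choose (r - 1) : ℝ) := Nat.cast_nonneg _
  refine le_trans ?_ h3
  refine le_trans ?_ (mul_le_mul_of_nonneg_left hn1 h5)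
  have h6 : ((σ : ℝ) - 1) * (ε / σ) ≤ ε := by
    rw [mul_div_assoc', div_le_iff₀ hσ0]
    nlinarith
  nlinarith [mul_le_mul_of_nonneg_right h6 hC]

/-- the two-sided bound -/
theorem sandwich {U : Type} [Fintype U] (r : ℕ) (hr : 3 ≤ r) (G : SimpleGraph U) (hG : G ≠ ⊥)
    (hA : AvoidsClass r G) :
    1 ≤ crosscutNumber (expansion r G) ∧ (∀ n, exK n r G ≤ exr r n (expansion r G)) ∧
    ∀ ε : ℝ, 0 < ε → ∀ᶠ n : ℕ in atTop,
      ((crosscutNumber (expansion r G) : ℝ) - 1 - ε) * (n.choose (r - 1) : ℝ) ≤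
        exr r n (expansion r G) ∧
      (exr r n (expansion r G) : ℝ) ≤ exK n r G +
        ((crosscutNumber (expansion r G) : ℝ) - 1 + ε) * (n.choose (r - 1) : ℝ) := by
  obtain ⟨X, hX, hXc, ψ, c, hψ⟩ := hA
  obtain ⟨I, hI, hIX, hcost⟩ := exists_I r hr G X hX hXc
  have h1 : 1 ≤ crosscutNumber (expansion r G) := by
    rw [← hcost]; exact one_le_cost G hG I
  refine ⟨h1, fun n => exK_le_exr r n (by omega) G, ?_⟩
  intro ε hε
  have h2 := main_upper r hr G I hI ψ (fun u v huv => ψ.valid huv) c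
    (fun u hu hc => hψ u hc ((hIX u).1 hu)) (one_le_cost G hG I) ε hε
  rw [hcost] at h2
  filter_upwards [h2, lower_crosscut' (expansion r G) r (by omega) h1 ε hε] with n hn1 hn2
  exact ⟨hn2, hn1⟩

theorem choose_pos_eventually (k : ℕ) : ∀ᶠ n : ℕ in atTop, (0 : ℝ) < (n.choose k : ℝ) := by
  filter_upwards [eventually_ge_atTop k] with n hn
  exact_mod_cast Nat.choose_pos hn

/-- `a / n ^ k → 0` implies `a / (n choose k) → 0` -/
theorem small_choose (a : ℕ → ℝ) (k : ℕ)
    (h : Tendsto (fun n : ℕ => a n / (n : ℝ) ^ k) atTop (𝓝 0)) :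
    Tendsto (fun n : ℕ => a n / (n.choose k : ℝ)) atTop (𝓝 0) := by
  have e1 : Asymptotics.IsEquivalent atTop (fun n : ℕ => ((n.choose k : ℕ) : ℝ))
      fun n : ℕ => (n : ℝ) ^ k / (k.factorial : ℝ) := isEquivalent_choose k
  have e2 : Tendsto (fun n : ℕ => ((n : ℝ) ^ k / (k.factorial : ℝ)) / (n.choose k : ℝ)) atTop
      (𝓝 1) := by
    have := e1.symm
    rw [Asymptotics.isEquivalent_iff_tendsto_one] at this
    · exact this
    · filter_upwards [choose_pos_eventually k] with n hn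
      exact hn.ne'
  have h3 := (h.mul e2).mul_const (k.factorial : ℝ)
  rw [zero_mul, zero_mul] at h3
  refine h3.congr' ?_
  filter_upwards [eventually_ge_atTop 1] with n hn
  have hn0 : (n : ℝ) ≠ 0 := by
    have : 0 < n := by omega
    positivity
  have hk : (k.factorial : ℝ) ≠ 0 := by positivity
  field_simp

/-- an `ε`-statement gives the limit -/
theorem tendsto_of_bounds (a b : ℕ → ℝ) (s : ℝ) (k : ℕ)
    (hb : Tendsto (fun n : ℕ => b n / (n.choose k : ℝ)) atTop (𝓝 0))
    (h : ∀ ε : ℝ, 0 < ε → ∀ᶠ n : ℕ in atTop, (s - ε) * (n.choose k : ℝ) ≤ a n ∧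
      a n ≤ b n + (s + ε) * (n.choose k : ℝ)) :
    Tendsto (fun n : ℕ => a n / (n.choose k : ℝ)) atTop (𝓝 s) := by
  rw [Metric.tendsto_atTop'] at hb ⊢
  intro ε hε
  obtain ⟨N1, hN1⟩ := hb (ε / 2) (by positivity)
  obtain ⟨N2, hN2⟩ := Filter.eventually_atTop.1 (h (ε / 2) (by positivity))
  obtain ⟨N3, hN3⟩ := Filter.eventually_atTop.1 (choose_pos_eventually k)
  refine ⟨max N1 (max N2 N3), fun n hn => ?_⟩
  have h1 := hN1 n (lt_of_le_of_lt (le_max_left _ _) hn)
  have h2 := hN2 n (le_of_lt (lt_of_le_of_lt ((le_max_left _ _).trans (le_max_right _ _)) hn))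
  have h3 := hN3 n (le_of_lt (lt_of_le_of_lt ((le_max_right _ _).trans (le_max_right _ _)) hn))
  rw [Real.dist_eq, sub_zero, abs_lt, lt_div_iff₀ h3, div_lt_iff₀ h3] at h1
  rw [Real.dist_eq, abs_lt]
  have h4 : a n / (n.choose k : ℝ) * (n.choose k : ℝ) = a n := div_mul_cancel₀ _ h3.ne'
  constructor
  · have : (s - ε) < a n / (n.choose k : ℝ) := by
      rw [lt_div_iff₀ h3]
      nlinarith [h2.1]
    linarith
  · have : a n / (n.choose k : ℝ) < s + ε := by
      rw [div_lt_iff₀ h3]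
      nlinarith [h2.2, h1.2]
    linarith

/-- the crosscut formula from the limit -/
theorem formula_of_tendsto {U : Type} [Fintype U] (r : ℕ) (G : SimpleGraph U)
    (hσ : 2 ≤ crosscutNumber (expansion r G))
    (h : Tendsto (fun n : ℕ => (exr r n (expansion r G) : ℝ) / (n.choose (r - 1) : ℝ)) atTop
      (𝓝 ((crosscutNumber (expansion r G) : ℝ) - 1))) : CrosscutFormula r G := by
  have hs : (0 : ℝ) < (crosscutNumber (expansion r G) : ℝ) - 1 := by
    have : (2 : ℝ) ≤ crosscutNumber (expansion r G) := by exact_mod_cast hσ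
    linarith
  have h1 := h.div_const ((crosscutNumber (expansion r G) : ℝ) - 1)
  rw [div_self hs.ne'] at h1
  refine h1.congr fun n => ?_
  rw [div_div, mul_comm]

/-- the limit from the crosscut formula -/
theorem tendsto_of_formula {U : Type} [Fintype U] (r : ℕ) (G : SimpleGraph U)
    (hσ : 2 ≤ crosscutNumber (expansion r G)) (h : CrosscutFormula r G) :
    Tendsto (fun n : ℕ => (exr r n (expansion r G) : ℝ) / (n.choose (r - 1) : ℝ)) atTop
      (𝓝 ((crosscutNumber (expansion r G) : ℝ) - 1)) := by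
  have hs : (0 : ℝ) < (crosscutNumber (expansion r G) : ℝ) - 1 := by
    have : (2 : ℝ) ≤ crosscutNumber (expansion r G) := by exact_mod_cast hσ
    linarith
  have h1 := h.mul_const ((crosscutNumber (expansion r G) : ℝ) - 1)
  rw [one_mul] at h1
  refine h1.congr fun n => ?_
  rw [← div_div, div_right_comm, div_mul_cancel₀ _ hs.ne']

/-- under the crosscut formula everything below `exr` is at most `(σ - 1 + ε) (n choose (r-1))` -/
theorem le_of_formula {U : Type} [Fintype U] (r : ℕ) (G : SimpleGraph U)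
    (hσ : 2 ≤ crosscutNumber (expansion r G)) (h : CrosscutFormula r G) (ε : ℝ) (hε : 0 < ε) :
    ∀ᶠ n : ℕ in atTop, (exr r n (expansion r G) : ℝ) ≤
      ((crosscutNumber (expansion r G) : ℝ) - 1 + ε) * (n.choose (r - 1) : ℝ) := by
  have h1 := (tendsto_of_formula r G hσ h).eventually
    (gt_mem_nhds (show (crosscutNumber (expansion r G) : ℝ) - 1 <
      (crosscutNumber (expansion r G) : ℝ) - 1 + ε by linarith))
  filter_upwards [h1, choose_pos_eventually (r - 1)] with n hn1 hn2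
  rw [div_lt_iff₀ hn2] at hn1
  exact hn1.le

end

end EX
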