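import Pool.Agent.Helper89.EX.DefsO
import Pool.Agent.Helper89.EX.CG
import Pool.Agent.Helper89.EX.FN

/-!
# MP_5176ab_co, module OB: the mixed construction
-/

set_option autoImplicit false

namespace EX

open Finset SimpleGraph Filter Topology

open scoped Classical

noncomputable section

/-- vertices of the construction -/
abbrev OBV (a : ℕ) (Y : Type) (d q : ℕ) : Type := Fin a ⊕ (Y ⊕ (Fin d × Fin q))

/-- edges with a vertex in the first part -/
def OBc {a d q : ℕ} {Y : Type} [Fintype Y] (c : Fin a) (y : Y) (b : Fin d → Fin q) :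
    Finset (OBV a Y d q) :=
  univ.filter fun x => Sum.elim (fun c' => c' = c)
    (fun z => Sum.elim (fun y' => y' = y) (fun p => p.2 = b p.1) z) x

/-- edges with two vertices in the second part -/
def OBm {a d q : ℕ} {Y : Type} [Fintype Y] (e : Sym2 Y) (b : Fin d → Fin q) :
    Finset (OBV a Y d q) :=
  univ.filter fun x => Sum.elim (fun _ => False)
    (fun z => Sum.elim (fun y' => y' ∈ e) (fun p => p.2 = b p.1) z) x

/-- the construction -/
def OBH (a d q : ℕ) {Y : Type} [Fintype Y] (M : SimpleGraph Y) : Finset (Finset (OBV a Y d q)) :=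
  (univ.image fun p : Fin a × Y × (Fin d → Fin q) => OBc p.1 p.2.1 p.2.2) ∪
    ((M.edgeFinset ×ˢ (univ : Finset (Fin d → Fin q))).image fun p => OBm p.1 p.2)

section mem

variable {a d q : ℕ} {Y : Type} [Fintype Y]

theorem OBc_1 (c : Fin a) (y : Y) (b : Fin d → Fin q) (c' : Fin a) :
    (Sum.inl c' : OBV a Y d q) ∈ OBc c y b ↔ c' = c := by simp [OBc]

theorem OBc_2 (c : Fin a) (y : Y) (b : Fin d → Fin q) (y' : Y) :
    (Sum.inr (Sum.inl y') : OBV a Y d q) ∈ OBc c y b ↔ y' = y := by simp [OBc]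

theorem OBc_3 (c : Fin a) (y : Y) (b : Fin d → Fin q) (p : Fin d × Fin q) :
    (Sum.inr (Sum.inr p) : OBV a Y d q) ∈ OBc c y b ↔ p.2 = b p.1 := by simp [OBc]

theorem OBm_1 (e : Sym2 Y) (b : Fin d → Fin q) (c' : Fin a) :
    (Sum.inl c' : OBV a Y d q) ∉ OBm e b := by simp [OBm]

theorem OBm_2 (e : Sym2 Y) (b : Fin d → Fin q) (y' : Y) :
    (Sum.inr (Sum.inl y') : OBV a Y d q) ∈ OBm e b ↔ y' ∈ e := by simp [OBm]

theorem OBm_3 (e : Sym2 Y) (b : Fin d → Fin q) (p : Fin d × Fin q) :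
    (Sum.inr (Sum.inr p) : OBV a Y d q) ∈ OBm e b ↔ p.2 = b p.1 := by simp [OBm]

theorem OBc_inj (c c' : Fin a) (y y' : Y) (b b' : Fin d → Fin q)
    (h : (OBc c y b : Finset (OBV a Y d q)) = OBc c' y' b') : c = c' ∧ y = y' ∧ b = b' := by
  refine ⟨?_, ?_, ?_⟩
  · have h1 : (Sum.inl c : OBV a Y d q) ∈ OBc c y b := (OBc_1 _ _ _ _).2 rfl
    rw [h] at h1
    exact (OBc_1 _ _ _ _).1 h1
  · have h1 : (Sum.inr (Sum.inl y) : OBV a Y d q) ∈ OBc c y b := (OBc_2 _ _ _ _).2 rfl
    rw [h] at h1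
    exact (OBc_2 _ _ _ _).1 h1
  · funext i
    have h1 : (Sum.inr (Sum.inr (i, b i)) : OBV a Y d q) ∈ OBc c y b := (OBc_3 _ _ _ _).2 rfl
    rw [h] at h1
    exact (OBc_3 _ _ _ _).1 h1

theorem OBm_inj (e e' : Sym2 Y) (b b' : Fin d → Fin q)
    (h : (OBm e b : Finset (OBV a Y d q)) = OBm e' b') : e = e' ∧ b = b' := by
  refine ⟨?_, ?_⟩
  · ext y
    rw [← OBm_2 (a := a) e b y, h, OBm_2]
  · funext i
    have h1 : (Sum.inr (Sum.inr (i, b i)) : OBV a Y d q) ∈ OBm e b := (OBm_3 _ _ _).2 rfl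
    rw [h] at h1
    exact (OBm_3 _ _ _).1 h1

theorem OBc_ne (c : Fin a) (y : Y) (b : Fin d → Fin q) (e : Sym2 Y) (b' : Fin d → Fin q) :
    (OBc c y b : Finset (OBV a Y d q)) ≠ OBm e b' := by
  intro h
  have h1 : (Sum.inl c : OBV a Y d q) ∈ OBc c y b := (OBc_1 _ _ _ _).2 rfl
  rw [h] at h1
  exact OBm_1 _ _ _ h1

theorem OBc_card (c : Fin a) (y : Y) (b : Fin d → Fin q) :
    (OBc c y b : Finset (OBV a Y d q)).card = d + 2 := by
  have h1 : (OBc c y b : Finset (OBV a Y d q)) = insert (Sum.inl c) (insert (Sum.inr (Sum.inl y))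
      (univ.image fun i : Fin d => Sum.inr (Sum.inr (i, b i)))) := by
    ext x
    rcases x with c' | y' | ⟨i, j⟩
    · rw [OBc_1]; simp
    · rw [OBc_2]; simp
    · rw [OBc_3]
      simp only [mem_insert, reduceCtorEq, Sum.inr.injEq, mem_image, mem_univ, true_and, false_or,
        Prod.mk.injEq]
      constructor
      · intro h; exact ⟨i, rfl, h.symm⟩
      · rintro ⟨i', rfl, h⟩; exact h.symm
  rw [h1, card_insert_of_notMem (by simp), card_insert_of_notMem (by simp),
    card_image_of_injective, card_univ, Fintype.card_fin]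
  intro i j h
  simp only [Sum.inr.injEq, Prod.mk.injEq] at h
  exact h.1

theorem OBm_card (y y' : Y) (hy : y ≠ y') (b : Fin d → Fin q) :
    (OBm s(y, y') b : Finset (OBV a Y d q)).card = d + 2 := by
  have h1 : (OBm s(y, y') b : Finset (OBV a Y d q)) = insert (Sum.inr (Sum.inl y))
      (insert (Sum.inr (Sum.inl y'))
      (univ.image fun i : Fin d => Sum.inr (Sum.inr (i, b i)))) := by
    ext x
    rcases x with c' | z | ⟨i, j⟩
    · simp [OBm_1]
    · rw [OBm_2]; simp
    · rw [OBm_3]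
      simp only [mem_insert, reduceCtorEq, Sum.inr.injEq, mem_image, mem_univ, true_and, false_or,
        Prod.mk.injEq]
      constructor
      · intro h; exact ⟨i, rfl, h.symm⟩
      · rintro ⟨i', rfl, h⟩; exact h.symm
  rw [h1, card_insert_of_notMem (by simp [hy]), card_insert_of_notMem (by simp),
    card_image_of_injective, card_univ, Fintype.card_fin]
  intro i j h
  simp only [Sum.inr.injEq, Prod.mk.injEq] at h
  exact h.1

theorem OBH_cases (M : SimpleGraph Y) (E : Finset (OBV a Y d q)) (hE : E ∈ OBH a d q M) :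
    (∃ c y b, E = OBc c y b) ∨ ∃ y y' b, M.Adj y y' ∧ E = OBm s(y, y') b := by
  rcases mem_union.1 hE with h | h
  · obtain ⟨⟨c, y, b⟩, -, rfl⟩ := mem_image.1 h
    exact Or.inl ⟨c, y, b, rfl⟩
  · obtain ⟨⟨e, b⟩, he, rfl⟩ := mem_image.1 h
    obtain ⟨he1, -⟩ := mem_product.1 he
    simp only at he1
    induction e with
    | _ y y' =>
      rw [SimpleGraph.mem_edgeFinset, SimpleGraph.mem_edgeSet] at he1
      exact Or.inr ⟨y, y', b, he1, rfl⟩

theorem OBH_unif (M : SimpleGraph Y) (E : Finset (OBV a Y d q)) (hE : E ∈ OBH a d q M) :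
    E.card = d + 2 := by
  rcases OBH_cases M E hE with ⟨c, y, b, rfl⟩ | ⟨y, y', b, h, rfl⟩
  · exact OBc_card c y b
  · exact OBm_card y y' h.ne b

theorem OBH_card (M : SimpleGraph Y) :
    (OBH a d q M).card = (a * Fintype.card Y + M.edgeFinset.card) * q ^ d := by
  unfold OBH
  rw [card_union_of_disjoint, card_image_of_injective, card_image_of_injective, card_product,
    card_univ, card_univ, Fintype.card_prod, Fintype.card_prod, Fintype.card_fin,
    Fintype.card_pi_const, Fintype.card_fin]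
  · ring
  · rintro ⟨e, b⟩ ⟨e', b'⟩ h
    obtain ⟨h1, h2⟩ := OBm_inj e e' b b' h
    rw [h1, h2]
  · rintro ⟨c, y, b⟩ ⟨c', y', b'⟩ h
    obtain ⟨h1, h2, h3⟩ := OBc_inj c c' y y' b b' h
    rw [h1, h2, h3]
  · rw [Finset.disjoint_left]
    intro E h1 h2
    obtain ⟨⟨c, y, b⟩, -, rfl⟩ := mem_image.1 h1
    obtain ⟨⟨e, b'⟩, -, h⟩ := mem_image.1 h2
    exact OBc_ne c y b e b' h.symm

end mem

/-- the colour of a vertex of the construction -/
def OBcol {a d q : ℕ} {Y : Type} (x : OBV a Y d q) : Fin (d + 1) :=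
  Sum.elim (fun _ => 0) (fun z => Sum.elim (fun _ => 0) (fun p => p.1.succ) z) x

theorem OBcol_1 {a d q : ℕ} {Y : Type} (c : Fin a) :
    OBcol (Sum.inl c : OBV a Y d q) = 0 := rfl

theorem OBcol_2 {a d q : ℕ} {Y : Type} (y : Y) :
    OBcol (Sum.inr (Sum.inl y) : OBV a Y d q) = 0 := rfl

theorem OBcol_3 {a d q : ℕ} {Y : Type} (p : Fin d × Fin q) :
    OBcol (Sum.inr (Sum.inr p) : OBV a Y d q) = p.1.succ := rfl

/-- two elements of an edge that have the same colour and are not in the first part -/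
theorem OB_same {a d q : ℕ} {Y : Type} [Fintype Y] (M : SimpleGraph Y)
    (E : Finset (OBV a Y d q)) (hE : E ∈ OBH a d q M) (x x' : OBV a Y d q) (hx : x ∈ E)
    (hx' : x' ∈ E) (hne : x ≠ x') (h1 : ∀ c, x ≠ Sum.inl c) (h2 : ∀ c, x' ≠ Sum.inl c)
    (hc : OBcol x = OBcol x') :
    ∃ y y', x = Sum.inr (Sum.inl y) ∧ x' = Sum.inr (Sum.inl y') ∧ M.Adj y y' ∧
      ∀ c, Sum.inl c ∉ E := by
  rcases x with c | y | p
  · exact absurd rfl (h1 c)
  · rcases x' with c | y' | p'
    · exact absurd rfl (h2 c)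
    · refine ⟨y, y', rfl, rfl, ?_⟩
      rcases OBH_cases M E hE with ⟨c, y0, b, rfl⟩ | ⟨y1, y2, b, h, rfl⟩
      · exfalso
        rw [OBc_2] at hx hx'
        exact hne (by rw [hx, hx'])
      · rw [OBm_2] at hx hx'
        refine ⟨?_, fun c => OBm_1 _ _ c⟩
        have hyy : y ≠ y' := fun h => hne (by rw [h])
        have := (Sym2.mem_and_mem_iff hyy).1 ⟨hx, hx'⟩
        rw [← SimpleGraph.mem_edgeSet, ← this]
        exact h
    · rw [OBcol_2, OBcol_3] at hc
      exact absurd hc.symm (Fin.succ_ne_zero _)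
  · rcases x' with c | y' | p'
    · exact absurd rfl (h2 c)
    · rw [OBcol_2, OBcol_3] at hc
      exact absurd hc (Fin.succ_ne_zero _)
    · exfalso
      rw [OBcol_3, OBcol_3] at hc
      have hc' := Fin.succ_injective _ hc
      apply hne
      rcases OBH_cases M E hE with ⟨c, y0, b, rfl⟩ | ⟨y1, y2, b, h, rfl⟩
      · rw [OBc_3] at hx hx'
        have : p = p' := Prod.ext hc' (by rw [hx, hx', hc'])
        rw [this]
      · rw [OBm_3] at hx hx'
        have : p = p' := Prod.ext hc' (by rw [hx, hx', hc'])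
        rw [this]

theorem OB_col_zero {a d q : ℕ} {Y : Type} (x : OBV a Y d q) (h1 : ∀ c, x ≠ Sum.inl c)
    (h2 : OBcol x = 0) : ∃ y, x = Sum.inr (Sum.inl y) := by
  rcases x with c | y | p
  · exact absurd rfl (h1 c)
  · exact ⟨y, rfl⟩
  · rw [OBcol_3] at h2
    exact absurd h2 (Fin.succ_ne_zero _)

theorem OB_splits {U : Type} [Fintype U] (a d q k R : ℕ) {Y : Type} [Fintype Y]
    (M : SimpleGraph Y) (hM1 : ∀ y, (univ.filter (M.Adj y)).card ≤ k)
    (hM2 : ∀ (y : Y) (w : M.Walk y y), w.IsCycle → R < w.length) (G : SimpleGraph U)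
    (hR : Fintype.card U ≤ R) (h : Contains (OBH a d q M) (expansion (d + 2) G)) :
    Splits (d + 2) a k G := by
  obtain ⟨f, hf⟩ := h
  have hfe : ∀ e : G.edgeSet, (xEdge (d + 2) G e).map f ∈ OBH a d q M := fun e =>
    hf _ (mem_image_of_mem _ (mem_univ _))
  have hmem : ∀ (e : G.edgeSet) (u : U), u ∈ (e : Sym2 U) →
      f (Sum.inl u) ∈ (xEdge (d + 2) G e).map f := fun e u hu =>
    mem_map_of_mem f ((inl_mem_xEdge _ _ _ _).2 hu)
  set I : Finset U := univ.filter fun u => ∃ c, f (Sum.inl u) = Sum.inl c with hI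
  set F : Finset (Sym2 U) := G.edgeFinset.filter fun e =>
    ∃ (he : e ∈ G.edgeSet) (i : Fin (d + 2 - 2)) (c : Fin a), f (Sum.inr (⟨e, he⟩, i)) = Sum.inl c
    with hF
  have hnI : ∀ u, u ∉ I → ∀ c, f (Sum.inl u) ≠ Sum.inl c := by
    intro u hu c hc
    exact hu (mem_filter.2 ⟨mem_univ _, c, hc⟩)
  have key : ∀ (e : G.edgeSet) (u v : U), u ∈ (e : Sym2 U) → v ∈ (e : Sym2 U) → u ≠ v →
      u ∉ I → v ∉ I → OBcol (f (Sum.inl u)) = OBcol (f (Sum.inl v)) →
      ∃ y y', f (Sum.inl u) = Sum.inr (Sum.inl y) ∧ f (Sum.inl v) = Sum.inr (Sum.inl y') ∧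
        M.Adj y y' ∧ ∀ c, Sum.inl c ∉ (xEdge (d + 2) G e).map f := by
    intro e u v hu hv huv hu' hv' hc
    exact OB_same M _ (hfe e) _ _ (hmem e u hu) (hmem e v hv)
      (fun h => huv (Sum.inl_injective (f.injective h))) (hnI u hu') (hnI v hv') hc
  refine ⟨I, F, fun u => OBcol (f (Sum.inl u)), (0 : Fin (d + 1)), ?_, filter_subset _ _, ?_, ?_,
    ?_, ?_, ?_⟩
  · -- independent
    intro u hu v hv huv
    obtain ⟨c, hc⟩ := (mem_filter.1 hu).2
    obtain ⟨c', hc'⟩ := (mem_filter.1 hv).2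
    have h1 := hmem ⟨s(u, v), huv⟩ u (Sym2.mem_mk_left u v)
    have h2 := hmem ⟨s(u, v), huv⟩ v (Sym2.mem_mk_right u v)
    have hcc : c ≠ c' := by
      rintro rfl
      exact huv.ne (Sum.inl_injective (f.injective (hc.trans hc'.symm)))
    rcases OBH_cases M _ (hfe ⟨s(u, v), huv⟩) with ⟨c0, y0, b, hE⟩ | ⟨y1, y2, b, h, hE⟩
    · rw [hE, hc, OBc_1] at h1
      rw [hE, hc', OBc_1] at h2
      exact hcc (h1.trans h2.symm)
    · rw [hE, hc] at h1
      exact OBm_1 _ _ _ h1
  · -- at most `a` vertices and edges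
    have h1 : I.card + F.card = (I.disjSum F).card := by rw [Finset.card_disjSum]
    set X : Finset (XV (d + 2) G) := univ.filter fun x => ∃ c, f x = Sum.inl c with hX
    have h2 : I.disjSum F ⊆ X.image (fun x => Sum.elim (fun u => (Sum.inl u : U ⊕ Sym2 U))
        (fun q => Sum.inr (q.1 : Sym2 U)) x) := by
      intro z hz
      rcases z with u | e
      · have hu : u ∈ I := Finset.inl_mem_disjSum.1 hz
        exact mem_image.2 ⟨Sum.inl u, mem_filter.2 ⟨mem_univ _, (mem_filter.1 hu).2⟩, rfl⟩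
      · have he := Finset.inr_mem_disjSum.1 hz
        obtain ⟨-, he2, i, c, hc⟩ := mem_filter.1 he
        exact mem_image.2 ⟨Sum.inr (⟨e, he2⟩, i), mem_filter.2 ⟨mem_univ _, c, hc⟩, rfl⟩
    have h3 : X.card ≤ a := by
      have h5 : X.map f ⊆ (univ : Finset (Fin a)).image Sum.inl := by
        intro z hz
        obtain ⟨x, hx, rfl⟩ := mem_map.1 hz
        obtain ⟨c, hc⟩ := (mem_filter.1 hx).2
        exact mem_image.2 ⟨c, mem_univ _, hc.symm⟩
      have h6 := (card_le_card h5).trans card_image_le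
      rwa [card_map, card_univ, Fintype.card_fin] at h6
    rw [h1]
    exact (card_le_card h2).trans (card_image_le.trans h3)
  · -- adjacent vertices of the same colour
    intro u v huv hu hv hc
    obtain ⟨y, y', h1, h2, h3, h4⟩ := key ⟨s(u, v), huv⟩ u v (Sym2.mem_mk_left u v)
      (Sym2.mem_mk_right u v) huv.ne hu hv hc
    refine ⟨?_, ?_⟩
    · show OBcol (f (Sum.inl u)) = 0
      rw [h1, OBcol_2]
    · intro hF'
      obtain ⟨-, he2, i, c, hc⟩ := mem_filter.1 hF'
      apply h4 c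
      rw [← hc]
      exact mem_map_of_mem f ((inr_mem_xEdge _ _ _ _).2 rfl)
  · -- forest
    intro x w hw
    have hy : ∀ u : {u | u ∉ I ∧ OBcol (f (Sum.inl u)) = 0}, ∃ y,
        f (Sum.inl (u : U)) = Sum.inr (Sum.inl y) := by
      rintro ⟨u, hu1, hu2⟩
      exact OB_col_zero _ (hnI u hu1) hu2
    choose g hg using hy
    have hginj : Function.Injective g := by
      intro u v huv
      have h1 : f (Sum.inl (u : U)) = f (Sum.inl (v : U)) := by rw [hg u, hg v, huv]
      exact Subtype.ext (Sum.inl_injective (f.injective h1))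
    have hgadj : ∀ u v : {u | u ∉ I ∧ OBcol (f (Sum.inl u)) = 0},
        G.Adj (u : U) (v : U) → M.Adj (g u) (g v) := by
      intro u v huv
      obtain ⟨y, y', h1, h2, h3, -⟩ := key ⟨s((u : U), (v : U)), huv⟩ u v
        (Sym2.mem_mk_left _ _) (Sym2.mem_mk_right _ _) huv.ne u.2.1 v.2.1
        (u.2.2.trans v.2.2.symm)
      rw [hg u] at h1
      rw [hg v] at h2
      have e1 : g u = y := Sum.inl_injective (Sum.inr_injective h1)
      have e2 : g v = y' := Sum.inl_injective (Sum.inr_injective h2)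
      rw [e1, e2]
      exact h3
    let φ : G.induce {u | u ∉ I ∧ OBcol (f (Sum.inl u)) = 0} →g M :=
      ⟨g, fun {u v} huv => hgadj u v huv⟩
    have h1 := hM2 _ _ (hw.map (f := φ) hginj)
    rw [Walk.length_map] at h1
    have h2 : w.length ≤ Fintype.card U := by
      have h3 := hw.support_nodup
      have h4 := h3.map (Subtype.val_injective)
      have h5 := h4.length_le_card
      rw [List.length_map, List.length_tail, Walk.length_support] at h5
      omega
    omega
  · -- degrees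
    intro u hu hc
    obtain ⟨y, hy⟩ := OB_col_zero _ (hnI u hu) hc
    have hex : ∀ v ∈ univ.filter (fun v => G.Adj u v ∧ v ∉ I ∧ s(u, v) ∉ F), ∃ y', M.Adj y y' ∧
        ∃ (e : G.edgeSet) (x : XV (d + 2) G), (e : Sym2 U) = s(u, v) ∧ x ∈ xEdge (d + 2) G e ∧
          x ≠ Sum.inl u ∧ f x = Sum.inr (Sum.inl y') := by
      intro v hv
      obtain ⟨-, huv, hvI, hvF⟩ := mem_filter.1 hv
      have hE := hfe ⟨s(u, v), huv⟩
      have hyE := hmem ⟨s(u, v), huv⟩ u (Sym2.mem_mk_left u v)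
      rw [hy] at hyE
      rcases OBH_cases M _ hE with ⟨c0, y0, b, hE'⟩ | ⟨y1, y2, b, h, hE'⟩
      · exfalso
        have h1 : (Sum.inl c0 : OBV a Y d q) ∈ (xEdge (d + 2) G ⟨s(u, v), huv⟩).map f := by
          rw [hE']; exact (OBc_1 _ _ _ _).2 rfl
        obtain ⟨x, hx, hxc⟩ := mem_map.1 h1
        rcases x with w | ⟨e', i⟩
        · rw [inl_mem_xEdge] at hx
          rcases Sym2.mem_iff.1 hx with rfl | rfl
          · exact hnI _ hu c0 hxc
          · exact hnI _ hvI c0 hxc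
        · rw [inr_mem_xEdge] at hx
          simp only at hx
          subst hx
          refine hvF (mem_filter.2 ⟨?_, huv, i, c0, hxc⟩)
          rw [SimpleGraph.mem_edgeFinset]
          exact huv
      · rw [hE', OBm_2] at hyE
        obtain ⟨y', hyy⟩ : ∃ y', s(y1, y2) = s(y, y') := by
          obtain ⟨y', hy'⟩ := hyE
          exact ⟨y', hy'⟩
        have hadj : M.Adj y y' := by
          rw [← SimpleGraph.mem_edgeSet, ← hyy]
          exact h
        have h1 : (Sum.inr (Sum.inl y') : OBV a Y d q) ∈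
            (xEdge (d + 2) G ⟨s(u, v), huv⟩).map f := by
          rw [hE', OBm_2, hyy]
          exact Sym2.mem_mk_right _ _
        obtain ⟨x, hx, hxc⟩ := mem_map.1 h1
        refine ⟨y', hadj, ⟨s(u, v), huv⟩, x, rfl, hx, ?_, hxc⟩
        rintro rfl
        rw [hy] at hxc
        exact hadj.ne (Sum.inl_injective (Sum.inr_injective hxc))
    have hfin : (univ.filter fun v => G.Adj u v ∧ v ∉ I ∧ s(u, v) ∉ F).card ≤
        (univ.filter (M.Adj y)).card := by
      have hex' : ∀ v, ∃ y', v ∈ univ.filter (fun v => G.Adj u v ∧ v ∉ I ∧ s(u, v) ∉ F) →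
          M.Adj y y' ∧ ∃ (e : G.edgeSet) (x : XV (d + 2) G), (e : Sym2 U) = s(u, v) ∧
            x ∈ xEdge (d + 2) G e ∧ x ≠ Sum.inl u ∧ f x = Sum.inr (Sum.inl y') := by
        intro v
        by_cases hv : v ∈ univ.filter (fun v => G.Adj u v ∧ v ∉ I ∧ s(u, v) ∉ F)
        · obtain ⟨y', h⟩ := hex v hv
          exact ⟨y', fun _ => h⟩
        · exact ⟨y, fun h => absurd h hv⟩
      choose g hg using hex'
      refine Finset.card_le_card_of_injOn g
        (fun v hv => mem_coe.2 (mem_filter.2 ⟨mem_univ _, (hg v hv).1⟩)) ?_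
      intro v hv v' hv' hvv
      obtain ⟨e, x, h1, h2, h3, h4⟩ := (hg v hv).2
      obtain ⟨e', x', h1', h2', h3', h4'⟩ := (hg v' hv').2
      have hxx : x = x' := f.injective (h4.trans ((congrArg _ (congrArg _ hvv)).trans h4'.symm))
      subst hxx
      have huv := (mem_filter.1 hv).2.1
      have huv' := (mem_filter.1 hv').2.1
      rcases x with w | q0
      · rw [inl_mem_xEdge, h1] at h2
        rw [inl_mem_xEdge, h1'] at h2'
        have hwu : w ≠ u := fun h => h3 (by rw [h])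
        rcases Sym2.mem_iff.1 h2 with h | h
        · exact absurd h hwu
        · rcases Sym2.mem_iff.1 h2' with h' | h'
          · exact absurd h' hwu
          · exact h.symm.trans h'
      · rw [inr_mem_xEdge] at h2 h2'
        have h5 : s(u, v) = s(u, v') := by rw [← h1, ← h1', ← h2, ← h2']
        exact Sym2.congr_right.1 h5
    exact hfin.trans (hM1 y)
  · -- no edge of the second kind
    intro hk u v huv hu hv
    rcases OBH_cases M _ (hfe ⟨s(u, v), huv⟩) with ⟨c0, y0, b, hE'⟩ | ⟨y1, y2, b, h, hE'⟩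
    · have h1 : (Sum.inl c0 : OBV a Y d q) ∈ (xEdge (d + 2) G ⟨s(u, v), huv⟩).map f := by
        rw [hE']; exact (OBc_1 _ _ _ _).2 rfl
      obtain ⟨x, hx, hxc⟩ := mem_map.1 h1
      rcases x with w | ⟨e', i⟩
      · rw [inl_mem_xEdge] at hx
        rcases Sym2.mem_iff.1 hx with rfl | rfl
        · exact absurd hxc (hnI _ hu c0)
        · exact absurd hxc (hnI _ hv c0)
      · rw [inr_mem_xEdge] at hx
        simp only at hx
        subst hx
        refine mem_filter.2 ⟨?_, huv, i, c0, hxc⟩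
        rw [SimpleGraph.mem_edgeFinset]
        exact huv
    · exfalso
      have h1 := hM1 y1
      rw [hk, Nat.le_zero, Finset.card_eq_zero, Finset.eq_empty_iff_forall_notMem] at h1
      exact h1 y2 (mem_filter.2 ⟨mem_univ _, h⟩)

end

end EX
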