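import Pool.Agent.Helper89.EX.Defs

/-!
# MP_5176ab_co: statements of all modules (STUBS, never import this file in a landed file)
-/

set_option autoImplicit false

namespace EX

open Finset SimpleGraph Filter Topology

open scoped Classical

noncomputable section

/-! ## Module EM: embedding with rich pairs -/

theorem embed {U V : Type} [Fintype U] (k : ℕ) (hk : 1 ≤ k) (H : Finset (Finset V))
    (hH : ∀ E ∈ H, E.card = k + 1) (G : SimpleGraph U) (φ : U → V) (hφ : Function.Injective φ)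
    (Q : Finset (Sym2 U)) (hQ : ∀ e ∈ Q, e ∈ G.edgeSet) (D : Sym2 U → Finset V)
    (h1 : ∀ e ∈ Q, D e ∈ H) (h2 : ∀ e ∈ Q, ∀ u, φ u ∈ D e ↔ u ∈ e)
    (h3 : ∀ e ∈ Q, ∀ e' ∈ Q, e ≠ e' → ∀ v, v ∈ D e → v ∈ D e' → ∃ u, φ u = v)
    (h4 : ∀ u v, G.Adj u v → s(u, v) ∉ Q → Rich (sN k G) H (φ u) (φ v)) :
    Contains H (expansion (k + 1) G) := sorry

/-! ## Module EB: embedding in a box (uses `embed`) -/

theorem embed_box {U V : Type} [Fintype U] (k : ℕ) (hk : 2 ≤ k) (H : Finset (Finset V))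
    (hH : ∀ E ∈ H, E.card = k + 1) (G : SimpleGraph U) (Y : Fin k → Finset V)
    (hd : ∀ l l', l ≠ l' → Disjoint (Y l) (Y l'))
    (hY : ∀ l, Fintype.card U + G.edgeFinset.card ≤ (Y l).card) (W : Set V)
    (hW : ∀ l, ∀ y ∈ Y l, y ∉ W) (I : Finset U) (ψ : U → Fin k)
    (hψ : ∀ u v, u ∉ I → v ∉ I → G.Adj u v → ψ u ≠ ψ v) (φ : U → V)
    (hφ : Function.Injective φ) (hφ1 : ∀ u ∈ I, φ u ∈ W) (hφ2 : ∀ u, u ∉ I → φ u ∈ Y (ψ u))
    (Q : Finset (Sym2 U)) (hQ : ∀ e ∈ Q, e ∈ G.edgeSet ∧ ∀ u ∈ e, u ∉ I) (χ : Sym2 U → V)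
    (hχ1 : ∀ e ∈ Q, χ e ∈ W) (hχ2 : ∀ e ∈ Q, ∀ e' ∈ Q, χ e = χ e' → e = e')
    (hχ3 : ∀ e ∈ Q, ∀ u, χ e ≠ φ u)
    (hχ4 : ∀ e ∈ Q, ∀ x, Box Y x → (∀ u ∈ e, x (ψ u) = φ u) →
      insert (χ e) (univ.image x) ∈ H)
    (hr : ∀ u v, G.Adj u v → s(u, v) ∉ Q → Rich (sN k G) H (φ u) (φ v)) :
    Contains H (expansion (k + 1) G) := sorry

/-! ## Module CR: canonical Ramsey theorem for functions of two variables -/

theorem canon (t : ℕ) : ∃ T : ℕ, ∀ (V C : Type) (f : V → V → C) (Y Y' : Finset V),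
    T ≤ Y.card → T ≤ Y'.card →
    ∃ Z ⊆ Y, ∃ Z' ⊆ Y', Z.card = t ∧ Z'.card = t ∧ Canon f Z Z' := sorry

/-! ## Module BR: several functions on a box (uses `canon`) -/

theorem box_canon (k m t : ℕ) : ∃ T : ℕ, ∀ (V C ι : Type) (K : Finset ι), K.card ≤ m →
    ∀ (Y : Fin k → Finset V), (∀ l, T ≤ (Y l).card) →
    ∀ (f : ι → V → V → C) (p q : ι → Fin k), (∀ j ∈ K, p j ≠ q j) →
    ∃ Z : Fin k → Finset V, (∀ l, Z l ⊆ Y l) ∧ (∀ l, (Z l).card = t) ∧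
      ∀ j ∈ K, Canon (f j) (Z (p j)) (Z (q j)) := sorry

/-! ## Module FB: the expansion is found in a box (uses EB, BR) -/

theorem box_embeds {U : Type} [Fintype U] (k m : ℕ) (hk : 2 ≤ k) (G : SimpleGraph U)
    (I : Finset U) (hI : ∀ u ∈ I, ∀ v ∈ I, ¬ G.Adj u v) (ψ : U → Fin k)
    (hψ : ∀ u v, G.Adj u v → ψ u ≠ ψ v) (c0 : Fin k) (hc0 : ∀ u ∈ I, ψ u ≠ c0)
    (hcost : 1 ≤ cost G I) :
    ∃ T : ℕ, ∀ (V ι : Type) [Fintype ι] (H : Finset (Finset V)) (Y : Fin k → Finset V)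
      (W : Set V) (c : ι → (Fin k → V) → V) (Λ : ι → Finset (Fin k)),
      Fintype.card ι ≤ m → (∀ E ∈ H, E.card = k + 1) → BoxData (sN k G) H Y W c Λ →
      (∀ l, T ≤ (Y l).card) →
      (cost G I : ℝ) - 1 < ∑ j, 1 / (((Λ j).card : ℝ) + 1) →
      Contains H (expansion (k + 1) G) := sorry

/-! ## Module HM: homogeneous subfamilies (Füredi) -/

theorem hom_exists (r s : ℕ) : ∃ N : ℕ, 0 < N ∧ ∀ (V : Type) (F : Finset (Fin r → V)),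
    ∃ F' ⊆ F, ∃ J : Finset (Finset (Fin r)), Hom s F' J ∧ F.card ≤ N * F'.card := sorry

/-! ## Module JS: structure of `J` -/

theorem Hom.inter_mem {r s : ℕ} {V : Type} {F : Finset (Fin r → V)}
    {J : Finset (Finset (Fin r))} (h : Hom s F J) (hs : 2 * r < s) (hF : F.Nonempty)
    {A A' : Finset (Fin r)} (hA : A ∈ J) (hA' : A' ∈ J) : A ∩ A' ∈ J := sorry

theorem Hom.mem_J {r s : ℕ} {V : Type} {F : Finset (Fin r → V)}
    {J : Finset (Finset (Fin r))} (h : Hom s F J) (hr : 2 ≤ r) (hs : 2 * r < s)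
    (hF : F.Nonempty) (hcov : Cov J) {Y : Finset (Fin r)} (hY : Y ≠ univ)
    (hB : (own J \ Y).card ≠ 1) : Y ∈ J := sorry

theorem Hom.card_le {r s n : ℕ} (hr : 2 ≤ r) {F : Finset (Fin r → Fin n)}
    {J : Finset (Finset (Fin r))} (h : Hom s F J) (hcov : ¬ Cov J) :
    F.card ≤ n ^ (r - 2) := sorry

/-! ## Module DC: decomposition into homogeneous families (uses HM) -/

theorem part_exists (r n : ℕ) (hr : 1 ≤ r) (F : Finset (Fin r → Fin n))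
    (hF : ∀ e ∈ F, Function.Injective e) : ∃ P : Fin n → Fin r,
    F.card ≤ r ^ r * (F.filter fun e => ∀ i, P (e i) = i).card := sorry

theorem decomp (r s : ℕ) (hr : 1 ≤ r) (δ : ℝ) (hδ : 0 < δ) : ∃ m : ℕ, ∀ (n : ℕ)
    (F : Finset (Fin r → Fin n)), (∀ e ∈ F, Function.Injective e) →
    ∃ (F' : Fin m → Finset (Fin r → Fin n)) (P : Fin m → Fin n → Fin r)
      (J : Fin m → Finset (Finset (Fin r))),
      (∀ j, F' j ⊆ F) ∧ (∀ i j, i ≠ j → Disjoint (F' i) (F' j)) ∧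
      (∀ j, Hom s (F' j) (J j)) ∧ (∀ j, ∀ e ∈ F' j, ∀ i, P j (e i) = i) ∧
      (F.card : ℝ) ≤ ∑ j, ((F' j).card : ℝ) + δ * F.card := sorry

/-! ## Module CN: counting -/

theorem pattern (k m : ℕ) (σ ε : ℝ) (hσ : 0 ≤ σ) (hε : 0 < ε) : ∃ η : ℝ, 0 < η ∧
    ∀ (n : ℕ), k ≤ n → ∀ (F : Fin m → Finset (Fin (k + 1) → Fin n))
      (B : Fin m → Finset (Fin (k + 1))), (∀ j, ∀ e ∈ F j, StrictMono e) →
      (∀ j, ∀ b ∈ B j, ∀ e ∈ F j, ∀ e' ∈ F j, e ∘ b.succAbove = e' ∘ b.succAbove → e = e') →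
      (∀ j, ∀ b ∈ B j, ∀ b' ∈ B j, ∀ e ∈ F j, ∀ e' ∈ F j,
        e ∘ b.succAbove = e' ∘ b'.succAbove → b = b') →
      (∀ j, (F j).Nonempty → (B j).Nonempty) →
      (σ + ε) * (n.choose k : ℝ) ≤ ∑ j, ((F j).card : ℝ) →
      ∃ β : Fin m → Option (Fin (k + 1)), (∀ j b, β j = some b → b ∈ B j) ∧
        σ < ∑ j, (if β j = none then 0 else 1 / ((B j).card : ℝ)) ∧
        η * (n.choose k : ℝ) ≤ ((univ.filter fun x : Fin k → Fin n => StrictMono x ∧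
          ∀ j b, β j = some b → ∃ e ∈ F j, e ∘ b.succAbove = x).card : ℝ) := sorry

/-! ## Module WT: separating the centres from the box -/

theorem choose_W {n k : ℕ} {ι : Type} [Fintype ι] (S : Finset (Fin k → Fin n))
    (c : ι → (Fin k → Fin n) → Fin n) (hc : ∀ j, ∀ x ∈ S, ∀ l, c j x ≠ x l) :
    ∃ W : Finset (Fin n), S.card ≤ 2 ^ (k + Fintype.card ι) *
      (S.filter fun x => (∀ l, x l ∉ W) ∧ ∀ j, c j x ∈ W).card := sorry

/-! ## Module BT: box theorem (Erdős) -/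

theorem box_exists (k T : ℕ) (η : ℝ) (hη : 0 < η) : ∃ n0 : ℕ, ∀ n ≥ n0,
    ∀ S : Finset (Fin k → Fin n), η * (n : ℝ) ^ k ≤ S.card →
    ∃ Y : Fin k → Finset (Fin n), (∀ l, (Y l).card = T) ∧ ∀ x, Box Y x → x ∈ S := sorry

/-! ## Module UB: box data (uses HM, JS, DC, CN, WT, BT) -/

theorem box_data_exists (k s : ℕ) (hk : 2 ≤ k) (hs : 2 * (k + 1) < s) (σ ε : ℝ) (hσ : 0 ≤ σ)
    (hε : 0 < ε) : ∃ m : ℕ, ∀ T : ℕ, ∀ᶠ n : ℕ in atTop, ∀ H H1 : Finset (Finset (Fin n)),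
    (∀ E ∈ H, E.card = k + 1) → H1 ⊆ H →
    (∀ E ∈ H1, ∃ u ∈ E, ∃ v ∈ E, u ≠ v ∧ ¬ Rich s H u v) →
    (σ + ε) * (n.choose k : ℝ) ≤ H1.card →
    ∃ (ι : Type) (_ : Fintype ι) (Y : Fin k → Finset (Fin n)) (W : Set (Fin n))
      (c : ι → (Fin k → Fin n) → Fin n) (Λ : ι → Finset (Fin k)),
      Fintype.card ι ≤ m ∧ BoxData s H Y W c Λ ∧ (∀ l, T ≤ (Y l).card) ∧
      σ < ∑ j, 1 / (((Λ j).card : ℝ) + 1) := sorry

/-! ## Module MA: the upper bound (uses UB, FB) -/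

theorem main_upper {U : Type} [Fintype U] (r : ℕ) (hr : 3 ≤ r) (G : SimpleGraph U)
    (I : Finset U) (hI : ∀ u ∈ I, ∀ v ∈ I, ¬ G.Adj u v) (ψ : U → Fin (r - 1))
    (hψ : ∀ u v, G.Adj u v → ψ u ≠ ψ v) (c0 : Fin (r - 1)) (hc0 : ∀ u ∈ I, ψ u ≠ c0)
    (hcost : 1 ≤ cost G I) (ε : ℝ) (hε : 0 < ε) :
    ∀ᶠ n : ℕ in atTop, (exr r n (expansion r G) : ℝ) ≤
      exK n r G + ((cost G I : ℝ) - 1 + ε) * (n.choose (r - 1) : ℝ) := sorry

/-! ## Module LW: lower bounds and the crosscut number -/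

theorem lower_crosscut {W : Type} (F : Finset (Finset W)) (r n : ℕ) (hr : 1 ≤ r)
    (hn : crosscutNumber F - 1 ≤ n) (h1 : 1 ≤ crosscutNumber F) :
    (crosscutNumber F - 1) * (n - (crosscutNumber F - 1)).choose (r - 1) ≤ exr r n F := sorry

theorem exK_le_exr {U : Type} [Fintype U] (r n : ℕ) (hr : 2 ≤ r) (G : SimpleGraph U) :
    exK n r G ≤ exr r n (expansion r G) := sorry

theorem crosscut_le_cost {U : Type} [Fintype U] (r : ℕ) (hr : 3 ≤ r) (G : SimpleGraph U)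
    (I : Finset U) (hI : ∀ u ∈ I, ∀ v ∈ I, ¬ G.Adj u v) :
    crosscutNumber (expansion r G) ≤ cost G I := sorry

theorem exists_opt {U : Type} [Fintype U] (r : ℕ) (hr : 3 ≤ r) (G : SimpleGraph U) :
    ∃ I : Finset U, (∀ u ∈ I, ∀ v ∈ I, ¬ G.Adj u v) ∧
      cost G I = crosscutNumber (expansion r G) := sorry

/-! ## Module TW: bounded treewidth (uses BT) -/

theorem exK_small_of_tw {U : Type} [Fintype U] (r : ℕ) (hr : 2 ≤ r) (G : SimpleGraph U)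
    (hG : TreewidthLE G (r - 1)) (hcol : G.Colorable (r - 1)) :
    Tendsto (fun n : ℕ => (exK n r G : ℝ) / (n : ℝ) ^ (r - 1)) atTop (𝓝 0) := sorry

/-! ## Module AS: bipartite graphs with a small side (Alon-Shikhelman) -/

theorem exK_small_of_bip {U : Type} [Fintype U] (r : ℕ) (hr : 3 ≤ r) (G : SimpleGraph U)
    (A : Finset U) (hA : ∀ u v, G.Adj u v → (u ∈ A ↔ v ∉ A)) (hcard : A.card < r.choose 2) :
    Tendsto (fun n : ℕ => (exK n r G : ℝ) / (n : ℝ) ^ (r - 1)) atTop (𝓝 0) := sorry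

end

end EX
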